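import Pool.Agent.Helper21.RT.Consts

/-!
RT-3: the adaptive choice of digits (MP_b79ae6_an).
-/

open Set Filter Topology
open scoped ContDiff

noncomputable section

namespace Pool.Agent.Helper21.RT

section adapt
variable {ι D : Type*} [Fintype ι]

/-- the states of the adaptive process -/
structure AdState (st wk : ι → Prop) [DecidablePred st]
    (α : ({c // st c} → ℝ) → (ι → ℝ)) : Prop where
  h1 : ∀ σ (c : {c // st c}), α σ c.1 = σ c
  h2 : ∀ σ σ' c, ¬ st c → |α σ c - α σ' c| ≤ 1 / 10 * ‖σ - σ'‖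
  h3 : ∀ c, wk c → |α 0 c| ≤ 5 / 6
  h4 : ∀ σ, ‖σ‖ ≤ 1 → ∀ c, ¬ st c → ¬ wk c → |α σ c| ≤ 1

lemma AdState.lip {st wk : ι → Prop} [DecidablePred st] {α : ({c // st c} → ℝ) → (ι → ℝ)}
    (h : AdState st wk α) (σ σ' : {c // st c} → ℝ) : ‖α σ - α σ'‖ ≤ ‖σ - σ'‖ := by
  refine (pi_norm_le_iff_of_nonneg (norm_nonneg _)).2 fun c => ?_
  by_cases hc : st c
  · have e1 := h.h1 σ ⟨c, hc⟩
    have e2 := h.h1 σ' ⟨c, hc⟩
    simp only at e1 e2
    rw [Pi.sub_apply, e1, e2]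
    exact norm_le_pi_norm (σ - σ') ⟨c, hc⟩
  · rw [Pi.sub_apply, Real.norm_eq_abs]
    have := h.h2 σ σ' c hc
    have := norm_nonneg (σ - σ')
    linarith

/-- one step of the adaptive process -/
lemma adapt_step {lam : ι → ℝ} {st wk : ι → Prop} {b : D → ι → ℝ} {G : D → (ι → ℝ) → (ι → ℝ)}
    [DecidablePred st] (h : AdaptSys lam st wk b G)
    {α : ({c // st c} → ℝ) → (ι → ℝ)} (hα : AdState st wk α) :
    ∃ (d : D) (Ψ : ({c // st c} → ℝ) → ({c // st c} → ℝ)),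
      (∀ σ, ‖σ‖ ≤ 1 → ‖Ψ σ‖ ≤ 1) ∧ (∀ σ σ', ‖Ψ σ - Ψ σ'‖ ≤ 1 / 99 * ‖σ - σ'‖) ∧
      AdState st wk (fun σ => G d (α (Ψ σ))) ∧
      ∀ σ, ‖σ‖ ≤ 1 → ∀ c, |α (Ψ σ) c| ≤ 1 := by
  classical
  obtain ⟨d, hd⟩ := h.sgn (fun c => decide (0 ≤ α 0 c))
  -- the error term
  set p : (ι → ℝ) → ι → ℝ := fun X c => G d X c - lam c * (X c - b d c) with hp
  have hp1 : ∀ X c, |p X c| ≤ 1 / 100 := fun X c => h.off d X c
  have hp2 : ∀ X X' c, |p X c - p X' c| ≤ 1 / 100 * ‖X - X'‖ := by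
    intro X X' c
    have := h.near d X X' c
    have e : p X c - p X' c = G d X c - G d X' c - lam c * (X c - X' c) := by
      simp only [hp]; ring
    rw [e]; exact this
  have hlam : ∀ c : {c // st c}, 100 ≤ lam c.1 := fun c => h.lam_st c.1 c.2
  -- the contraction
  set Θ : ({c // st c} → ℝ) → ({c // st c} → ℝ) → ({c // st c} → ℝ) :=
    fun σ s c => b d c.1 + (σ c - p (α s) c.1) / lam c.1 with hΘ
  have hΘ1 : ∀ σ σ' s s', ‖Θ σ s - Θ σ' s'‖ ≤ 1 / 100 * (‖σ - σ'‖ + 1 / 100 * ‖s - s'‖) := by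
    intro σ σ' s s'
    refine (pi_norm_le_iff_of_nonneg (by positivity)).2 fun c => ?_
    have hl := hlam c
    have e : (Θ σ s - Θ σ' s') c = ((σ c - σ' c) - (p (α s) c.1 - p (α s') c.1)) / lam c.1 := by
      simp only [hΘ, Pi.sub_apply]; ring
    rw [e, Real.norm_eq_abs, abs_div, abs_of_pos (by linarith : 0 < lam c.1)]
    have h1 : |σ c - σ' c| ≤ ‖σ - σ'‖ := norm_le_pi_norm (σ - σ') c
    have h2 : |p (α s) c.1 - p (α s') c.1| ≤ 1 / 100 * ‖s - s'‖ :=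
      (hp2 _ _ _).trans (by have := hα.lip s s'; linarith)
    have h3 : |(σ c - σ' c) - (p (α s) c.1 - p (α s') c.1)| ≤ ‖σ - σ'‖ + 1 / 100 * ‖s - s'‖ :=
      (abs_sub _ _).trans (add_le_add h1 h2)
    rw [div_le_iff₀ (by linarith)]
    have h4 : 0 ≤ ‖σ - σ'‖ + 1 / 100 * ‖s - s'‖ := by positivity
    nlinarith
  have hcontr : ∀ σ, ContractingWith (1 / 10000 : NNReal) (Θ σ) := by
    intro σ
    refine ⟨by rw [← NNReal.coe_lt_coe]; norm_num, LipschitzWith.of_dist_le_mul fun s s' => ?_⟩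
    rw [dist_eq_norm, dist_eq_norm]
    have := hΘ1 σ σ s s'
    rw [sub_self, norm_zero] at this
    refine this.trans (le_of_eq ?_)
    push_cast
    ring
  set Ψ : ({c // st c} → ℝ) → ({c // st c} → ℝ) := fun σ =>
    ContractingWith.fixedPoint (Θ σ) (hcontr σ) with hΨ
  have hfix : ∀ σ, Θ σ (Ψ σ) = Ψ σ := fun σ => (hcontr σ).fixedPoint_isFixedPt
  have hΨlip : ∀ σ σ', ‖Ψ σ - Ψ σ'‖ ≤ 1 / 99 * ‖σ - σ'‖ := by
    intro σ σ'
    have h1 := hΘ1 σ σ' (Ψ σ) (Ψ σ')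
    rw [hfix, hfix] at h1
    have h2 := norm_nonneg (σ - σ')
    have h3 := norm_nonneg (Ψ σ - Ψ σ')
    linarith
  have hΨval : ∀ σ, ‖Ψ σ‖ ≤ 7 / 8 + 1 / 100 * (‖σ‖ + 1 / 100) := by
    intro σ
    refine (pi_norm_le_iff_of_nonneg (by positivity)).2 fun c => ?_
    have hl := hlam c
    have e : Ψ σ c = b d c.1 + (σ c - p (α (Ψ σ)) c.1) / lam c.1 := by
      conv_lhs => rw [← hfix σ]
    rw [e, Real.norm_eq_abs]
    refine (abs_add_le _ _).trans (add_le_add (h.b_st d c.1 c.2) ?_)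
    rw [abs_div, abs_of_pos (by linarith : 0 < lam c.1), div_le_iff₀ (by linarith)]
    have h1 : |σ c| ≤ ‖σ‖ := norm_le_pi_norm σ c
    have h3 : |σ c - p (α (Ψ σ)) c.1| ≤ ‖σ‖ + 1 / 100 :=
      (abs_sub _ _).trans (add_le_add h1 (hp1 _ _))
    have h4 : 0 ≤ ‖σ‖ + 1 / 100 := by positivity
    nlinarith
  have hΨ1 : ∀ σ, ‖σ‖ ≤ 1 → ‖Ψ σ‖ ≤ 1 := by
    intro σ hσ
    have := hΨval σ
    linarith
  have hΨ0 : ‖Ψ 0‖ ≤ 9 / 10 := by
    have := hΨval 0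
    rw [norm_zero] at this
    linarith
  have hval : ∀ X c, G d X c = lam c * (X c - b d c) + p X c := by
    intro X c; simp only [hp]; ring
  refine ⟨d, Ψ, hΨ1, hΨlip, ⟨?_, ?_, ?_, ?_⟩, ?_⟩
  · intro σ c
    have hl := hlam c
    have e : Ψ σ c = b d c.1 + (σ c - p (α (Ψ σ)) c.1) / lam c.1 := by
      conv_lhs => rw [← hfix σ]
    rw [hval, hα.h1, e]
    field_simp
    ring
  · intro σ σ' c hc
    obtain ⟨hl0, hl1⟩ := h.lam_not c hc
    have e : G d (α (Ψ σ)) c - G d (α (Ψ σ')) c =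
        lam c * (α (Ψ σ) c - α (Ψ σ') c) + (p (α (Ψ σ)) c - p (α (Ψ σ')) c) := by
      rw [hval, hval]; ring
    rw [e]
    have h1 := hα.h2 (Ψ σ) (Ψ σ') c hc
    have h2 := hp2 (α (Ψ σ)) (α (Ψ σ')) c
    have h3 := hα.lip (Ψ σ) (Ψ σ')
    have h4 := hΨlip σ σ'
    have h5 := norm_nonneg (σ - σ')
    have h6 := norm_nonneg (Ψ σ - Ψ σ')
    refine (abs_add_le _ _).trans ?_
    rw [abs_mul, abs_of_nonneg hl0]
    have h7 : lam c * |α (Ψ σ) c - α (Ψ σ') c| ≤ 4 / 3 * (1 / 10 * ‖Ψ σ - Ψ σ'‖) :=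
      mul_le_mul hl1 h1 (abs_nonneg _) (by norm_num)
    linarith
  · intro c hc
    have hst : ¬ st c := fun hs => h.disj c ⟨hs, hc⟩
    obtain ⟨hl0, hl1⟩ := h.lam_not c hst
    have h1 := hα.h2 (Ψ 0) 0 c hst
    rw [sub_zero] at h1
    have h3 := hα.h3 c hc
    have hb := hd c hc
    have h5 : |α 0 c - b d c| ≤ 1 / 2 := by
      rw [hb]
      simp only [sg]
      by_cases h0 : 0 ≤ α 0 c
      · simp only [h0, decide_true, if_true]
        rw [abs_of_nonneg h0] at h3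
        rw [abs_le]; constructor <;> linarith
      · simp only [h0, decide_false]
        rw [abs_of_neg (by linarith)] at h3
        rw [abs_le]; constructor <;> norm_num <;> linarith
    have h6 : |α (Ψ 0) c - b d c| ≤ 1 / 2 + 1 / 10 * (9 / 10) := by
      have e : α (Ψ 0) c - b d c = (α 0 c - b d c) + (α (Ψ 0) c - α 0 c) := by ring
      rw [e]
      refine (abs_add_le _ _).trans (add_le_add h5 (h1.trans ?_))
      linarith
    rw [hval]
    refine (abs_add_le _ _).trans ?_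
    rw [abs_mul, abs_of_nonneg hl0]
    have h7 : lam c * |α (Ψ 0) c - b d c| ≤ 4 / 3 * (1 / 2 + 1 / 10 * (9 / 10)) :=
      mul_le_mul hl1 h6 (abs_nonneg _) (by norm_num)
    have h8 := hp1 (α (Ψ 0)) c
    linarith
  · intro σ hσ c hc hw
    obtain ⟨hl0, hl1⟩ := h.lam_not c hc
    have h1 := hα.h4 (Ψ σ) (hΨ1 σ hσ) c hc hw
    have h2 := h.con d c hc hw
    rw [hval]
    refine (abs_add_le _ _).trans ?_
    rw [abs_mul, abs_of_nonneg hl0]
    have h3 : |α (Ψ σ) c - b d c| ≤ 1 + |b d c| := (abs_sub _ _).trans (by linarith)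
    have h7 : lam c * |α (Ψ σ) c - b d c| ≤ lam c * (1 + |b d c|) :=
      mul_le_mul_of_nonneg_left h3 hl0
    have h8 := hp1 (α (Ψ σ)) c
    linarith
  · intro σ hσ c
    have hσ' := hΨ1 σ hσ
    by_cases hc : st c
    · have e := hα.h1 (Ψ σ) ⟨c, hc⟩
      simp only at e
      rw [e]
      exact (norm_le_pi_norm (Ψ σ) ⟨c, hc⟩).trans hσ'
    · by_cases hw : wk c
      · have h1 := hα.h2 (Ψ σ) 0 c hc
        rw [sub_zero] at h1
        have h3 := hα.h3 c hw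
        have e : α (Ψ σ) c = α 0 c + (α (Ψ σ) c - α 0 c) := by ring
        rw [e]
        refine (abs_add_le _ _).trans ?_
        linarith
      · exact hα.h4 (Ψ σ) hσ' c hc hw

/-- a backward orbit of uniformly contracting self-maps of the unit ball -/
lemma exists_backward {V : Type*} [NormedAddCommGroup V] [CompleteSpace V] (Ψ : ℕ → V → V)
    (h1 : ∀ n σ, ‖σ‖ ≤ 1 → ‖Ψ n σ‖ ≤ 1)
    (h2 : ∀ n σ σ', ‖Ψ n σ - Ψ n σ'‖ ≤ 1 / 99 * ‖σ - σ'‖) :
    ∃ σ : ℕ → V, (∀ n, ‖σ n‖ ≤ 1) ∧ ∀ n, σ n = Ψ n (σ (n + 1)) := by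
  let s : ℕ → ℕ → V := fun N => Nat.rec (fun _ => 0) (fun _ f n => Ψ n (f (n + 1))) N
  have s0 : ∀ n, s 0 n = 0 := fun n => rfl
  have sS : ∀ N n, s (N + 1) n = Ψ n (s N (n + 1)) := fun N n => rfl
  have hs1 : ∀ N n, ‖s N n‖ ≤ 1 := by
    intro N
    induction N with
    | zero => intro n; rw [s0, norm_zero]; norm_num
    | succ N ih => intro n; rw [sS]; exact h1 _ _ (ih _)
  have hs2 : ∀ N n, ‖s (N + 1) n - s N n‖ ≤ (1 / 99) ^ N := by
    intro N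
    induction N with
    | zero => intro n; rw [s0, sub_zero, pow_zero]; exact hs1 1 n
    | succ N ih =>
      intro n
      rw [sS (N + 1) n, sS N n, pow_succ]
      have := ih (n + 1)
      refine (h2 _ _ _).trans ?_
      linarith
  have hc : ∀ n, ∃ l, Tendsto (fun N => s N n) atTop (𝓝 l) := by
    intro n
    refine cauchySeq_tendsto_of_complete
      (cauchySeq_of_le_geometric (1 / 99) 1 (by norm_num) fun N => ?_)
    rw [dist_comm, dist_eq_norm, one_mul]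
    exact hs2 N n
  choose σ hσ using hc
  refine ⟨σ, fun n => le_of_tendsto ((hσ n).norm) (Eventually.of_forall fun N => hs1 N n),
    fun n => ?_⟩
  have hcont : Continuous (Ψ n) := by
    have : LipschitzWith (1 / 99 : NNReal) (Ψ n) := by
      refine LipschitzWith.of_dist_le_mul fun a b => ?_
      rw [dist_eq_norm, dist_eq_norm]
      refine (h2 n a b).trans (le_of_eq ?_)
      push_cast
      ring
    exact this.continuous
  have ha : Tendsto (fun N => s (N + 1) n) atTop (𝓝 (σ n)) :=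
    (hσ n).comp (tendsto_add_atTop_nat 1)
  have hb : Tendsto (fun N => s (N + 1) n) atTop (𝓝 (Ψ n (σ (n + 1)))) := by
    have : (fun N => s (N + 1) n) = fun N => Ψ n (s N (n + 1)) := funext fun N => sS N n
    rw [this]
    exact (hcont.tendsto _).comp (hσ (n + 1))
  exact tendsto_nhds_unique ha hb

theorem adapt {lam : ι → ℝ} {st wk : ι → Prop} {b : D → ι → ℝ} {G : D → (ι → ℝ) → (ι → ℝ)}
    [DecidablePred st] (h : AdaptSys lam st wk b G)
    (α : ({c // st c} → ℝ) → (ι → ℝ)) (h1 : ∀ σ c, α σ c.1 = σ c)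
    (h2 : ∀ σ σ' c, ¬ st c → |α σ c - α σ' c| ≤ 1 / 10 * ‖σ - σ'‖)
    (h3 : ∀ c, wk c → |α 0 c| ≤ 5 / 6)
    (h4 : ∀ σ, ‖σ‖ ≤ 1 → ∀ c, ¬ st c → ¬ wk c → |α σ c| ≤ 1) :
    ∃ (σ : {c // st c} → ℝ) (d : ℕ → D) (X : ℕ → ι → ℝ), ‖σ‖ ≤ 1 ∧ X 0 = α σ ∧
      (∀ n, X (n + 1) = G (d n) (X n)) ∧ ∀ n c, |X n c| ≤ 1 := by
  let S := {α : ({c // st c} → ℝ) → (ι → ℝ) // AdState st wk α}
  choose dd PP hP1 hP2 hP3 hP4 using fun a : S => adapt_step h a.2
  let nx : S → S := fun a => ⟨fun σ => G (dd a) (a.1 (PP a σ)), hP3 a⟩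
  let a : ℕ → S := fun n => nx^[n] ⟨α, h1, h2, h3, h4⟩
  have aS : ∀ n, a (n + 1) = nx (a n) := fun n => Function.iterate_succ_apply' nx n _
  obtain ⟨σ, hσ1, hσ2⟩ := exists_backward (fun n => PP (a n)) (fun n => hP1 (a n))
    (fun n => hP2 (a n))
  refine ⟨σ 0, fun n => dd (a n), fun n => (a n).1 (σ n), hσ1 0, rfl, fun n => ?_, fun n c => ?_⟩
  · simp only
    rw [aS n]
    show G (dd (a n)) ((a n).1 (PP (a n) (σ (n + 1)))) = _
    rw [← hσ2 n]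
  · simp only
    rw [hσ2 n]
    exact hP4 (a n) _ (hσ1 (n + 1)) c

end adapt

end Pool.Agent.Helper21.RT
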