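import Pool.Agent.Helper21.RT.Consts

/-!
Extension of a map which is close to a diagonal map on a box to a globally close map.
-/

open Set Filter Topology

noncomputable section

namespace Pool.Agent.Helper21.RT

section clamp
variable {ι : Type*} [Fintype ι]

/-- coordinatewise projection to a box -/
def clampF (c r : ι → ℝ) (X : ι → ℝ) : ι → ℝ := fun i => max (c i - r i) (min (X i) (c i + r i))

/-- the box -/
def boxF (c r : ι → ℝ) : Set (ι → ℝ) := {X | ∀ i, |X i - c i| ≤ r i}

theorem clampF_mem {c r : ι → ℝ} (hr : ∀ i, 0 ≤ r i) (X : ι → ℝ) : clampF c r X ∈ boxF c r := by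
  intro i
  have h := hr i
  rw [abs_le]
  unfold clampF
  constructor
  · have := le_max_left (c i - r i) (min (X i) (c i + r i)); linarith
  · have : max (c i - r i) (min (X i) (c i + r i)) ≤ c i + r i :=
      max_le (by linarith) (min_le_right _ _)
    linarith

theorem clampF_eq {c r : ι → ℝ} {X : ι → ℝ} (hX : X ∈ boxF c r) : clampF c r X = X := by
  funext i
  have h := hX i
  rw [abs_le] at h
  unfold clampF
  rw [min_eq_left (by linarith), max_eq_right (by linarith)]

theorem clampF_lip (c r : ι → ℝ) (X Y : ι → ℝ) : ‖clampF c r X - clampF c r Y‖ ≤ ‖X - Y‖ := by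
  rw [pi_norm_le_iff_of_nonneg (norm_nonneg _)]
  intro i
  have h1 : ‖(X - Y) i‖ ≤ ‖X - Y‖ := norm_le_pi_norm _ i
  simp only [Pi.sub_apply, Real.norm_eq_abs] at h1 ⊢
  refine le_trans ?_ h1
  unfold clampF
  calc |max (c i - r i) (min (X i) (c i + r i)) - max (c i - r i) (min (Y i) (c i + r i))|
      ≤ max |(c i - r i) - (c i - r i)| |min (X i) (c i + r i) - min (Y i) (c i + r i)| :=
        abs_max_sub_max_le_max _ _ _ _
    _ = |min (X i) (c i + r i) - min (Y i) (c i + r i)| := by simp
    _ ≤ max |X i - Y i| |(c i + r i) - (c i + r i)| := abs_min_sub_min_le_max _ _ _ _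
    _ = |X i - Y i| := by simp

/-- global extension of `Φ` restricted to the box -/
def extF (lam b c r : ι → ℝ) (Φ : (ι → ℝ) → (ι → ℝ)) (X : ι → ℝ) : ι → ℝ :=
  fun i => lam i * (X i - b i) +
    (Φ (clampF c r X) i - lam i * (clampF c r X i - b i))

theorem extF_spec {lam b c r : ι → ℝ} (hr : ∀ i, 0 ≤ r i) {η : ℝ} (hη : 0 ≤ η)
    {Φ : (ι → ℝ) → (ι → ℝ)}
    (h1 : ∀ X ∈ boxF c r, ∀ i, |Φ X i - lam i * (X i - b i)| ≤ η)
    (h2 : ∀ X ∈ boxF c r, ∀ Y ∈ boxF c r, ∀ i,
      |(Φ X i - lam i * (X i - b i)) - (Φ Y i - lam i * (Y i - b i))| ≤ η * ‖X - Y‖) :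
    NearDiag lam η (extF lam b c r Φ) ∧
      (∀ X i, |extF lam b c r Φ X i - lam i * (X i - b i)| ≤ η) ∧
      ∀ X ∈ boxF c r, extF lam b c r Φ X = Φ X := by
  refine ⟨?_, ?_, ?_⟩
  · intro X Y i
    have e : extF lam b c r Φ X i - extF lam b c r Φ Y i - lam i * (X i - Y i) =
        (Φ (clampF c r X) i - lam i * (clampF c r X i - b i)) -
        (Φ (clampF c r Y) i - lam i * (clampF c r Y i - b i)) := by
      unfold extF; ring
    rw [e]
    refine (h2 _ (clampF_mem hr X) _ (clampF_mem hr Y) i).trans ?_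
    exact mul_le_mul_of_nonneg_left (clampF_lip c r X Y) hη
  · intro X i
    have e : extF lam b c r Φ X i - lam i * (X i - b i) =
        (Φ (clampF c r X) i - lam i * (clampF c r X i - b i)) := by
      unfold extF; ring
    rw [e]
    exact h1 _ (clampF_mem hr X) i
  · intro X hX
    funext i
    unfold extF
    rw [clampF_eq hX]; ring

end clamp

end Pool.Agent.Helper21.RT
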