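import Pool.Agent.Helper21.RT.Clamp

/-!
Closeness of the backward map to its model on a convex region.
-/

open Set Filter Topology
open scoped ContDiff

noncomputable section

namespace Pool.Agent.Helper21.RT

/-- `k` is `e`-close on `R` to the model `m` whose derivative at `x` is `M0 (C x)` -/
structure CloseOn (R : Set E) (m : E → E) (C : E → Sl) (k : E → E) (e : ℝ) : Prop where
  val : ∀ x ∈ R, ‖k x - m x‖ ≤ e
  dif : ∀ x ∈ R, HasFDerivAt k (fderiv ℝ k x) x
  lip : ∀ x ∈ R, ∀ y ∈ R, ‖(k x - m x) - (k y - m y)‖ ≤ e * ‖x - y‖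
  der : ∀ x ∈ R, ∀ v, ‖fderiv ℝ k x v - M0 (C x) v‖ ≤ e * ‖v‖
  der2 : ∀ x ∈ R, ∀ y ∈ R, ∀ v,
    ‖(fderiv ℝ k x v - M0 (C x) v) - (fderiv ℝ k y v - M0 (C y) v)‖ ≤ e * ‖x - y‖ * ‖v‖

/-- `M0 C` as a continuous linear map -/
def M0L (C : Sl) : E →L[ℝ] E :=
  LinearMap.toContinuousLinearMap
    { toFun := M0 C
      map_add' := by intro v w; ext i; fin_cases i <;> simp [M0] <;> ring
      map_smul' := by intro a v; ext i; fin_cases i <;> simp [M0] <;> ring }

@[simp] theorem M0L_apply (C : Sl) (v : E) : M0L C v = M0 C v := rfl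

theorem closeOn_of_C2Close {f g : E → E} {K R O : Set E} {e : ℝ} {m : E → E} {C : E → Sl}
    (hO : IsOpen O) (hRO : R ⊆ O) (hRK : R ⊆ K) (hconv : Convex ℝ R)
    (hf : ContDiff ℝ 2 f) (hg : ContDiff ℝ 2 g) (hm : ∀ y ∈ O, f y = m y)
    (hmd : ∀ y ∈ O, HasFDerivAt m (M0L (C y)) y) (hc : C2Close K e g f) : CloseOn R m C g e := by
  have hh : ContDiff ℝ 2 (fun y => g y - f y) := hg.sub hf
  have hfd : ∀ y ∈ O, HasFDerivAt f (M0L (C y)) y := fun y hy =>
    (hmd y hy).congr_of_eventuallyEq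
      (Filter.eventually_of_mem (hO.mem_nhds hy) (fun z hz => hm z hz))
  have hgd : ∀ y, HasFDerivAt g (fderiv ℝ g y) y := fun y =>
    (hg.differentiable (by norm_num) y).hasFDerivAt
  have hhd : ∀ y ∈ O, HasFDerivAt (fun y => g y - f y) (fderiv ℝ g y - M0L (C y)) y := fun y hy =>
    (hgd y).sub (hfd y hy)
  have hhf : ∀ y ∈ O, fderiv ℝ (fun y => g y - f y) y = fderiv ℝ g y - M0L (C y) := fun y hy =>
    (hhd y hy).fderiv
  have h0 : ∀ x ∈ K, ‖g x - f x‖ ≤ e := fun x hx => by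
    have := hc 0 (by norm_num) x hx
    rw [norm_iteratedFDeriv_zero] at this
    exact this.le
  have h1 : ∀ x ∈ K, ‖fderiv ℝ (fun y => g y - f y) x‖ ≤ e := fun x hx => by
    have := hc 1 (by norm_num) x hx
    rw [← norm_iteratedFDeriv_fderiv, norm_iteratedFDeriv_zero] at this
    exact this.le
  have h2 : ∀ x ∈ K, ‖fderiv ℝ (fderiv ℝ (fun y => g y - f y)) x‖ ≤ e := fun x hx => by
    have := hc 2 (by norm_num) x hx
    rw [← norm_iteratedFDeriv_fderiv, ← norm_iteratedFDeriv_fderiv, norm_iteratedFDeriv_zero] at this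
    exact this.le
  have hdd : Differentiable ℝ (fderiv ℝ (fun y => g y - f y)) :=
    (hh.fderiv_right (m := 1) (by norm_num)).differentiable (by norm_num)
  refine ⟨fun x hx => ?_, fun x hx => hgd x, fun x hx y hy => ?_, fun x hx v => ?_,
    fun x hx y hy v => ?_⟩
  · rw [← hm x (hRO hx)]; exact h0 x (hRK hx)
  · rw [← hm x (hRO hx), ← hm y (hRO hy)]
    exact hconv.norm_image_sub_le_of_norm_hasFDerivWithin_le
      (f := fun y => g y - f y) (f' := fun y => fderiv ℝ (fun y => g y - f y) y)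
      (fun z hz => ((hh.differentiable (by norm_num) z).hasFDerivAt).hasFDerivWithinAt)
      (fun z hz => h1 z (hRK hz)) hy hx
  · have := (fderiv ℝ (fun y => g y - f y) x).le_of_opNorm_le (h1 x (hRK hx)) v
    rw [hhf x (hRO hx)] at this
    exact this
  · have hl : ‖fderiv ℝ (fun y => g y - f y) x - fderiv ℝ (fun y => g y - f y) y‖ ≤ e * ‖x - y‖ :=
      hconv.norm_image_sub_le_of_norm_hasFDerivWithin_le
        (f := fderiv ℝ (fun y => g y - f y)) (f' := fun y => fderiv ℝ (fderiv ℝ (fun y => g y - f y)) y)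
        (fun z hz => ((hdd z).hasFDerivAt).hasFDerivWithinAt)
        (fun z hz => h2 z (hRK hz)) hy hx
    have := (fderiv ℝ (fun y => g y - f y) x - fderiv ℝ (fun y => g y - f y) y).le_of_opNorm_le hl v
    rw [hhf x (hRO hx), hhf y (hRO hy)] at this
    exact this

end Pool.Agent.Helper21.RT
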