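import Pool.Agent.Helper21.RT.Consts

/-!
Existence of bounded orbits for sequences of near-diagonal maps (MP_b79ae6_an, piece RT-2b).
-/

open Set Filter Topology
open scoped ContDiff BoundedContinuousFunction NNReal

noncomputable section

namespace Pool.Agent.Helper21.RT

/-- Banach's fixed point theorem for maps of bounded sequences. -/
theorem exists_bounded_fixed {J V : Type*} [NormedAddCommGroup V] [CompleteSpace V]
    (Γ : (J → V) → (J → V)) (hb : ∀ X : J → V, (∃ B, ∀ j, ‖X j‖ ≤ B) → ∃ B, ∀ j, ‖Γ X j‖ ≤ B)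
    (hc : ∀ (X X' : J → V) (d : ℝ), (∀ j, ‖X j - X' j‖ ≤ d) → 0 ≤ d →
      ∀ j, ‖Γ X j - Γ X' j‖ ≤ 91 / 100 * d) :
    ∃ X : J → V, Γ X = X ∧ ∃ B, ∀ j, ‖X j‖ ≤ B := by
  let _ : TopologicalSpace J := ⊥
  have : DiscreteTopology J := ⟨rfl⟩
  have hbd : ∀ X : J →ᵇ V, ∃ B, ∀ j, ‖X j‖ ≤ B := fun X => ⟨‖X‖, fun j => X.norm_coe_le_norm j⟩
  choose B hB using fun X : J →ᵇ V => hb X (hbd X)
  let Φ : (J →ᵇ V) → (J →ᵇ V) := fun X =>
    BoundedContinuousFunction.ofNormedAddCommGroupDiscrete (Γ X) (B X) (hB X)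
  have hΦ : ∀ X j, Φ X j = Γ X j := fun X j => rfl
  have hcon : ContractingWith (91 / 100 : ℝ≥0) Φ := by
    refine ⟨?_, ?_⟩
    · rw [div_lt_one (by norm_num)]; norm_num
    · refine LipschitzWith.of_dist_le_mul fun X X' => ?_
      have h0 : (0 : ℝ) ≤ ((91 / 100 : ℝ≥0) : ℝ) * dist X X' := by positivity
      refine (BoundedContinuousFunction.dist_le h0).2 fun j => ?_
      have := hc X X' (dist X X')
        (fun j => by rw [← dist_eq_norm]; exact BoundedContinuousFunction.dist_coe_le_dist j)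
        dist_nonneg j
      rw [dist_eq_norm, hΦ, hΦ]
      simpa using this
  obtain ⟨X, hX⟩ : ∃ X : J →ᵇ V, Φ X = X := ⟨_, hcon.fixedPoint_isFixedPt⟩
  refine ⟨X, ?_, hbd _⟩
  funext j
  exact congrArg (fun X : J →ᵇ V => X j) hX

section perron
variable {ι : Type*} [Fintype ι]

lemma nearDiag_bound {lam : ι → ℝ} {G : (ι → ℝ) → (ι → ℝ)} (hG : NearDiag lam (1 / 100) G)
    {M : ℝ} (hM : ∀ c, |G 0 c| ≤ M) (X : ι → ℝ) (c : ι) :
    |G X c| ≤ M + (‖lam‖ + 1 / 100) * ‖X‖ := by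
  have h1 := hG X 0 c
  simp only [Pi.zero_apply, sub_zero] at h1
  have h2 : |lam c * X c| ≤ ‖lam‖ * ‖X‖ := by
    rw [abs_mul]
    exact mul_le_mul (norm_le_pi_norm lam c) (norm_le_pi_norm X c) (abs_nonneg _) (norm_nonneg _)
  have h3 := hM c
  have h4 : G X c = G 0 c + (G X c - G 0 c - lam c * X c) + lam c * X c := by ring
  rw [h4]
  refine (abs_add_three _ _ _).trans ?_
  linarith

/-- the common core of `perron_exists` and `perronZ_exists` -/
theorem perron_core {lam : ι → ℝ} {ex : ι → Prop} (hR : Rates lam ex) {J : Type*} (s : J → J)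
    (G : J → (ι → ℝ) → (ι → ℝ)) (hG : ∀ n, NearDiag lam (1 / 100) (G n))
    (M : ℝ) (hM : ∀ n c, |G n 0 c| ≤ M) (P : (J → ι → ℝ) → J → ι → ℝ)
    (hPb : ∀ X : J → ι → ℝ, (∃ B, ∀ j, ‖X j‖ ≤ B) → ∃ B, ∀ j c, ¬ ex c → |P X j c| ≤ B)
    (hPc : ∀ (X X' : J → ι → ℝ) (d : ℝ), (∀ j, ‖X j - X' j‖ ≤ d) → 0 ≤ d → ∀ j c, ¬ ex c →
      |P X j c - P X' j c| ≤ 91 / 100 * d) :
    ∃ X : J → ι → ℝ, (∀ j c, ¬ ex c → X j c = P X j c) ∧
      (∀ j c, ex c → X (s j) c = G j (X j) c) ∧ ∃ B, ∀ j, ‖X j‖ ≤ B := by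
  classical
  let Γ : (J → ι → ℝ) → (J → ι → ℝ) := fun X j c =>
    if ex c then X j c + (lam c)⁻¹ * (X (s j) c - G j (X j) c) else P X j c
  have hΓe : ∀ X j c, ex c → Γ X j c = X j c + (lam c)⁻¹ * (X (s j) c - G j (X j) c) :=
    fun X j c hc => if_pos hc
  have hΓn : ∀ X j c, ¬ ex c → Γ X j c = P X j c := fun X j c hc => if_neg hc
  have hli : ∀ c, ex c → 0 < (lam c)⁻¹ ∧ (lam c)⁻¹ ≤ 9 / 10 := fun c hc => by
    have h1 := hR.exp c hc
    refine ⟨by positivity, ?_⟩
    rw [inv_le_comm₀ (by linarith) (by norm_num)]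
    linarith
  obtain ⟨X, hX, hXb⟩ := exists_bounded_fixed Γ (by
    rintro X ⟨B, hB⟩
    obtain ⟨B', hB'⟩ := hPb X ⟨B, hB⟩
    refine ⟨max |B'| (|B| + (|B| + (|M| + (‖lam‖ + 1 / 100) * |B|))), fun j => ?_⟩
    refine (pi_norm_le_iff_of_nonneg (le_max_of_le_left (abs_nonneg _))).2 fun c => ?_
    rw [Real.norm_eq_abs]
    by_cases hc : ex c
    · rw [hΓe X j c hc]
      refine le_max_of_le_right ?_
      have h1 := hli c hc
      have h2 : |X j c| ≤ |B| := (norm_le_pi_norm (X j) c).trans ((hB j).trans (le_abs_self _))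
      have h3 : |X (s j) c| ≤ |B| :=
        (norm_le_pi_norm (X (s j)) c).trans ((hB (s j)).trans (le_abs_self _))
      have h4 : |G j (X j) c| ≤ |M| + (‖lam‖ + 1 / 100) * |B| := by
        refine (nearDiag_bound (hG j) (hM j) (X j) c).trans ?_
        have h5 : ‖X j‖ ≤ |B| := (hB j).trans (le_abs_self _)
        have h6 : 0 ≤ ‖lam‖ + 1 / 100 := by positivity
        have := mul_le_mul_of_nonneg_left h5 h6
        have := le_abs_self M
        linarith
      refine (abs_add_le _ _).trans ?_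
      rw [abs_mul, abs_of_pos h1.1]
      have h7 : |X (s j) c - G j (X j) c| ≤ |B| + (|M| + (‖lam‖ + 1 / 100) * |B|) :=
        (abs_sub _ _).trans (by linarith)
      have h8 : (lam c)⁻¹ * |X (s j) c - G j (X j) c| ≤ 1 * |X (s j) c - G j (X j) c| :=
        mul_le_mul_of_nonneg_right (by linarith) (abs_nonneg _)
      linarith
    · rw [hΓn X j c hc]
      exact le_max_of_le_left ((hB' j c hc).trans (le_abs_self _))) (by
    intro X X' d hd hd0 j
    refine (pi_norm_le_iff_of_nonneg (by positivity)).2 fun c => ?_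
    rw [Real.norm_eq_abs, Pi.sub_apply]
    by_cases hc : ex c
    · rw [hΓe X j c hc, hΓe X' j c hc]
      have h1 := hli c hc
      have h0 := hR.exp c hc
      have h2 := hG j (X j) (X' j) c
      have h3 : |X (s j) c - X' (s j) c| ≤ d := (norm_le_pi_norm (X (s j) - X' (s j)) c).trans (hd _)
      have h4 : X j c + (lam c)⁻¹ * (X (s j) c - G j (X j) c) -
          (X' j c + (lam c)⁻¹ * (X' (s j) c - G j (X' j) c)) =
          (lam c)⁻¹ * ((X (s j) c - X' (s j) c) -
            (G j (X j) c - G j (X' j) c - lam c * (X j c - X' j c))) := by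
        field_simp
        ring
      rw [h4, abs_mul, abs_of_pos h1.1]
      have h5 : |(X (s j) c - X' (s j) c) -
            (G j (X j) c - G j (X' j) c - lam c * (X j c - X' j c))| ≤ d + 1 / 100 * d := by
        refine (abs_sub _ _).trans ?_
        have := hd j
        linarith
      have h6 := mul_le_mul h1.2 h5 (abs_nonneg _) (by norm_num)
      linarith
    · rw [hΓn X j c hc, hΓn X' j c hc]
      exact hPc X X' d hd hd0 j c hc)
  refine ⟨X, fun j c hc => ?_, fun j c hc => ?_, hXb⟩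
  · have := congrFun (congrFun hX j) c
    rw [hΓn X j c hc] at this
    exact this.symm
  · have := congrFun (congrFun hX j) c
    rw [hΓe X j c hc] at this
    have h1 := (hli c hc).1
    have h2 : (lam c)⁻¹ * (X (s j) c - G j (X j) c) = 0 := by linarith
    rcases mul_eq_zero.1 h2 with h3 | h3
    · exact absurd h3 h1.ne'
    · linarith

lemma nearDiag_con {lam : ι → ℝ} {ex : ι → Prop} (hR : Rates lam ex)
    {G : (ι → ℝ) → (ι → ℝ)} (hG : NearDiag lam (1 / 100) G) {X X' : ι → ℝ} {d : ℝ}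
    (hd : ‖X - X'‖ ≤ d) {c : ι} (hc : ¬ ex c) : |G X c - G X' c| ≤ 91 / 100 * d := by
  have h1 := hG X X' c
  have h2 := hR.con c hc
  have h3 : |X c - X' c| ≤ ‖X - X'‖ := norm_le_pi_norm (X - X') c
  have h4 : |lam c * (X c - X' c)| ≤ 9 / 10 * ‖X - X'‖ := by
    rw [abs_mul, abs_of_nonneg h2.1]
    exact mul_le_mul h2.2 h3 (abs_nonneg _) (by norm_num)
  have h5 : G X c - G X' c = (G X c - G X' c - lam c * (X c - X' c)) + lam c * (X c - X' c) := by
    ring
  rw [h5]
  refine (abs_add_le _ _).trans ?_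
  linarith

/-- existence of a bounded forward orbit with prescribed initial contracting coordinates -/
theorem perron_exists {lam : ι → ℝ} {ex : ι → Prop} (hR : Rates lam ex)
    (G : ℕ → (ι → ℝ) → (ι → ℝ)) (hG : ∀ n, NearDiag lam (1 / 100) (G n))
    (M : ℝ) (hM : ∀ n c, |G n 0 c| ≤ M) (x : ι → ℝ) :
    ∃ X : ℕ → ι → ℝ, (∀ c, ¬ ex c → X 0 c = x c) ∧ (∀ n, X (n + 1) = G n (X n)) ∧
      ∃ B, ∀ n, ‖X n‖ ≤ B := by
  obtain ⟨X, h1, h2, h3⟩ := perron_core hR (fun n : ℕ => n + 1) G hG M hM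
    (fun X j c => match j with
      | 0 => x c
      | k + 1 => G k (X k) c)
    (by
      rintro X ⟨B, hB⟩
      refine ⟨max ‖x‖ (M + (‖lam‖ + 1 / 100) * B), fun j c _ => ?_⟩
      cases j with
      | zero => exact le_max_of_le_left (norm_le_pi_norm x c)
      | succ k =>
        refine le_max_of_le_right ((nearDiag_bound (hG k) (hM k) (X k) c).trans ?_)
        have h6 : 0 ≤ ‖lam‖ + 1 / 100 := by positivity
        have := mul_le_mul_of_nonneg_left (hB k) h6
        linarith)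
    (by
      intro X X' d hd hd0 j c hc
      cases j with
      | zero => simp only [sub_self, abs_zero]; positivity
      | succ k => exact nearDiag_con hR (hG k) (hd k) hc)
  refine ⟨X, fun c hc => h1 0 c hc, fun n => ?_, h3⟩
  funext c
  by_cases hc : ex c
  · exact h2 n c hc
  · exact h1 (n + 1) c hc

/-- existence of a bounded bi-infinite orbit -/
theorem perronZ_exists {lam : ι → ℝ} {ex : ι → Prop} (hR : Rates lam ex)
    (G : ℤ → (ι → ℝ) → (ι → ℝ)) (hG : ∀ n, NearDiag lam (1 / 100) (G n))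
    (M : ℝ) (hM : ∀ n c, |G n 0 c| ≤ M) :
    ∃ X : ℤ → ι → ℝ, (∀ n, X (n + 1) = G n (X n)) ∧ ∃ B, ∀ n, ‖X n‖ ≤ B := by
  obtain ⟨X, h1, h2, h3⟩ := perron_core hR (fun n : ℤ => n + 1) G hG M hM
    (fun X j c => G (j - 1) (X (j - 1)) c)
    (by
      rintro X ⟨B, hB⟩
      refine ⟨M + (‖lam‖ + 1 / 100) * B, fun j c _ => ?_⟩
      refine (nearDiag_bound (hG (j - 1)) (hM (j - 1)) (X (j - 1)) c).trans ?_
      have h6 : 0 ≤ ‖lam‖ + 1 / 100 := by positivity
      have := mul_le_mul_of_nonneg_left (hB (j - 1)) h6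
      linarith)
    (by
      intro X X' d hd hd0 j c hc
      exact nearDiag_con hR (hG (j - 1)) (hd (j - 1)) hc)
  refine ⟨X, fun n => ?_, h3⟩
  funext c
  by_cases hc : ex c
  · exact h2 n c hc
  · have := h1 (n + 1) c hc
    rw [this, add_sub_cancel_right]

end perron

end Pool.Agent.Helper21.RT
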