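import Pool.Agent.Helper21.RT.Consts

/-!
Cone arguments for near-diagonal hyperbolic sequences (MP_b79ae6_an, piece RT-2a).
-/

open Set Filter Topology

noncomputable section

namespace Pool.Agent.Helper21.RT

section perron
variable {ι : Type*} [Fintype ι]

/-- the norm is attained at an expanding coordinate -/
def InCone (ex : ι → Prop) (v : ι → ℝ) : Prop := ∃ c, ex c ∧ ‖v‖ ≤ |v c|

/-- one step of the difference of two orbits -/
def DStep (lam : ι → ℝ) (v v' : ι → ℝ) : Prop := ∀ c, |v' c - lam c * v c| ≤ 1 / 100 * ‖v‖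

lemma abs_le_norm_pi (v : ι → ℝ) (c : ι) : |v c| ≤ ‖v‖ := norm_le_pi_norm v c

lemma DStep.con {lam : ι → ℝ} {ex : ι → Prop} (hR : Rates lam ex) {v v' : ι → ℝ}
    (h : DStep lam v v') {c : ι} (hc : ¬ ex c) : |v' c| ≤ 91 / 100 * ‖v‖ := by
  obtain ⟨h0, h1⟩ := hR.con c hc
  have h2 := abs_le_norm_pi v c
  have h3 : |lam c * v c| ≤ 9 / 10 * ‖v‖ := by
    rw [abs_mul, abs_of_nonneg h0]
    exact mul_le_mul h1 h2 (abs_nonneg _) (by norm_num)
  have h4 := h c
  have h5 : |v' c| ≤ |v' c - lam c * v c| + |lam c * v c| := by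
    have := abs_add_le (v' c - lam c * v c) (lam c * v c)
    simpa using this
  linarith

lemma exists_norm_le (v : ι → ℝ) [Nonempty ι] : ∃ c, ‖v‖ ≤ |v c| := by
  obtain ⟨c, hc⟩ := Finite.exists_max (fun c => |v c|)
  exact ⟨c, (pi_norm_le_iff_of_nonneg (abs_nonneg _)).mpr fun i => hc i⟩

lemma DStep.cone {lam : ι → ℝ} {ex : ι → Prop} (hR : Rates lam ex) {v v' : ι → ℝ}
    (h : DStep lam v v') (hv : InCone ex v) : InCone ex v' ∧ 11 / 10 * ‖v‖ ≤ ‖v'‖ := by
  obtain ⟨c₀, hc₀, hv₀⟩ := hv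
  have : Nonempty ι := ⟨c₀⟩
  have h0 := norm_nonneg v
  have h1 : 11 / 10 * ‖v‖ ≤ |v' c₀| := by
    have h2 := hR.exp c₀ hc₀
    have h3 : 10 / 9 * ‖v‖ ≤ |lam c₀ * v c₀| := by
      rw [abs_mul, abs_of_nonneg (by linarith)]
      exact mul_le_mul h2 hv₀ h0 (by linarith)
    have h4 := h c₀
    have h5 : |lam c₀ * v c₀| ≤ |v' c₀| + |v' c₀ - lam c₀ * v c₀| := by
      have := abs_sub (v' c₀) (v' c₀ - lam c₀ * v c₀)
      simpa using this
    linarith
  refine ⟨?_, h1.trans (abs_le_norm_pi v' c₀)⟩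
  obtain ⟨c₁, hc₁⟩ := exists_norm_le v'
  by_cases hex : ex c₁
  · exact ⟨c₁, hex, hc₁⟩
  · refine ⟨c₀, hc₀, hc₁.trans ?_⟩
    have := h.con hR hex
    linarith

lemma DStep.not_cone {lam : ι → ℝ} {ex : ι → Prop} (hR : Rates lam ex) {v v' : ι → ℝ}
    (h : DStep lam v v') (hv : ¬ InCone ex v') : ‖v'‖ ≤ 91 / 100 * ‖v‖ := by
  rcases isEmpty_or_nonempty ι with he | he
  · have : v' = v := Subsingleton.elim _ _
    have h2 : ‖v‖ = 0 := by
      rw [Subsingleton.elim v 0, norm_zero]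
    rw [this, h2]; norm_num
  · obtain ⟨c₁, hc₁⟩ := exists_norm_le v'
    have hex : ¬ ex c₁ := fun hex => hv ⟨c₁, hex, hc₁⟩
    exact hc₁.trans (h.con hR hex)

lemma cone_iterate {lam : ι → ℝ} {ex : ι → Prop} (hR : Rates lam ex) (D : ℕ → ι → ℝ) (N : ℕ)
    (hD : ∀ n < N, DStep lam (D n) (D (n + 1))) (h0 : InCone ex (D 0)) :
    ∀ n ≤ N, InCone ex (D n) ∧ (11 / 10) ^ n * ‖D 0‖ ≤ ‖D n‖ := by
  intro n
  induction n with
  | zero => intro _; simpa using h0
  | succ n ih =>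
    intro hn
    obtain ⟨h1, h2⟩ := ih (by omega)
    obtain ⟨h3, h4⟩ := (hD n (by omega)).cone hR h1
    refine ⟨h3, ?_⟩
    rw [pow_succ]
    nlinarith

lemma cone_eq_zero {lam : ι → ℝ} {ex : ι → Prop} (hR : Rates lam ex) (D : ℕ → ι → ℝ) (B : ℝ)
    (hD : ∀ n, DStep lam (D n) (D (n + 1))) (hB : ∀ n, ‖D n‖ ≤ B) (h0 : InCone ex (D 0)) :
    ‖D 0‖ = 0 := by
  by_contra hne
  have hpos : 0 < ‖D 0‖ := lt_of_le_of_ne (norm_nonneg _) (Ne.symm hne)
  obtain ⟨n, hn⟩ := pow_unbounded_of_one_lt (B / ‖D 0‖) (by norm_num : (1 : ℝ) < 11 / 10)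
  have h1 := (cone_iterate hR D n (fun k _ => hD k) h0 n le_rfl).2
  rw [div_lt_iff₀ hpos] at hn
  linarith [hB n]

lemma dstep_of_nearDiag {lam : ι → ℝ} {G : (ι → ℝ) → (ι → ℝ)} (hG : NearDiag lam (1 / 100) G)
    {X X' Y Y' : ι → ℝ} (hY : Y = G X) (hY' : Y' = G X') : DStep lam (X - X') (Y - Y') := by
  intro c
  have := hG X X' c
  rw [hY, hY']
  simpa using this

/-- two bounded forward orbits of a sequence of near-diagonal maps -/
theorem perron_unique {lam : ι → ℝ} {ex : ι → Prop} (hR : Rates lam ex)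
    (G : ℕ → (ι → ℝ) → (ι → ℝ)) (hG : ∀ n, NearDiag lam (1 / 100) (G n))
    (X X' : ℕ → ι → ℝ) (hX : ∀ n, X (n + 1) = G n (X n)) (hX' : ∀ n, X' (n + 1) = G n (X' n))
    (B : ℝ) (hB : ∀ n, ‖X n‖ ≤ B) (hB' : ∀ n, ‖X' n‖ ≤ B) :
    (∀ δ, 0 ≤ δ → (∀ c, ¬ ex c → |X 0 c - X' 0 c| ≤ δ) → ‖X 0 - X' 0‖ ≤ δ) ∧
      ∀ n, ‖X n - X' n‖ ≤ (91 / 100) ^ n * ‖X 0 - X' 0‖ := by
  have hD : ∀ n, DStep lam (X n - X' n) (X (n + 1) - X' (n + 1)) := fun n =>
    dstep_of_nearDiag (hG n) (hX n) (hX' n)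
  have hbd : ∀ n, ‖X n - X' n‖ ≤ 2 * B := fun n => by
    have := norm_sub_le (X n) (X' n)
    linarith [hB n, hB' n]
  have hz : ∀ n, InCone ex (X n - X' n) → ‖X n - X' n‖ = 0 := by
    intro n hn
    have h1 := cone_eq_zero hR (fun k => X (n + k) - X' (n + k)) (2 * B)
      (fun k => hD (n + k)) (fun k => hbd (n + k)) hn
    exact h1
  constructor
  · intro δ hδ h
    by_cases hc : InCone ex (X 0 - X' 0)
    · rw [hz 0 hc]; exact hδ
    · rcases isEmpty_or_nonempty ι with he | he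
      · rw [Subsingleton.elim (X 0 - X' 0) 0, norm_zero]; exact hδ
      · obtain ⟨c, hc'⟩ := exists_norm_le (X 0 - X' 0)
        have hex : ¬ ex c := fun hex => hc ⟨c, hex, hc'⟩
        exact hc'.trans (h c hex)
  · intro n
    induction n with
    | zero => simp
    | succ n ih =>
      have h1 : ‖X (n + 1) - X' (n + 1)‖ ≤ 91 / 100 * ‖X n - X' n‖ := by
        by_cases hc : InCone ex (X (n + 1) - X' (n + 1))
        · rw [hz _ hc]
          have := norm_nonneg (X n - X' n)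
          positivity
        · exact (hD n).not_cone hR hc
      rw [pow_succ]
      have := norm_nonneg (X n - X' n)
      nlinarith

/-- two bi-infinite bounded sequences which are orbits of the same maps in a window are close at `0` -/
theorem perronZ_window {lam : ι → ℝ} {ex : ι → Prop} (hR : Rates lam ex) (N : ℕ)
    (G : ℤ → (ι → ℝ) → (ι → ℝ)) (hG : ∀ n, NearDiag lam (1 / 100) (G n))
    (X X' : ℤ → ι → ℝ) (hX : ∀ n : ℤ, -N ≤ n → n < N → X (n + 1) = G n (X n))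
    (hX' : ∀ n : ℤ, -N ≤ n → n < N → X' (n + 1) = G n (X' n))
    (B : ℝ) (hB : ∀ n, ‖X n‖ ≤ B) (hB' : ∀ n, ‖X' n‖ ≤ B) :
    ‖X 0 - X' 0‖ ≤ 2 * B * (91 / 100) ^ N := by
  have hD : ∀ n : ℤ, -N ≤ n → n < N → DStep lam (X n - X' n) (X (n + 1) - X' (n + 1)) :=
    fun n h1 h2 => dstep_of_nearDiag (hG n) (hX n h1 h2) (hX' n h1 h2)
  have hbd : ∀ n, ‖X n - X' n‖ ≤ 2 * B := fun n => by
    have := norm_sub_le (X n) (X' n)
    linarith [hB n, hB' n]
  by_cases hc : InCone ex (X 0 - X' 0)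
  · have h1 := (cone_iterate hR (fun k : ℕ => X (k : ℤ) - X' (k : ℤ)) N (fun k hk => by
      have := hD k (by omega) (by omega)
      push_cast
      exact this) (by simpa using hc) N le_rfl).2
    have h2 := hbd N
    have h3 : (11 / 10 : ℝ) ^ N * ‖X 0 - X' 0‖ ≤ 2 * B := by
      refine le_trans ?_ h2
      simpa using h1
    have h4 : (1 : ℝ) ≤ (91 / 100) ^ N * (11 / 10) ^ N := by
      rw [← mul_pow]
      exact one_le_pow₀ (by norm_num)
    have h5 : (0 : ℝ) ≤ (91 / 100) ^ N := by positivity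
    have h6 := norm_nonneg (X 0 - X' 0)
    calc ‖X 0 - X' 0‖ ≤ ((91 / 100) ^ N * (11 / 10) ^ N) * ‖X 0 - X' 0‖ :=
          le_mul_of_one_le_left h6 h4
      _ = (91 / 100) ^ N * ((11 / 10) ^ N * ‖X 0 - X' 0‖) := by ring
      _ ≤ (91 / 100) ^ N * (2 * B) := mul_le_mul_of_nonneg_left h3 h5
      _ = _ := by ring
  · -- backwards
    have key : ∀ k : ℕ, k ≤ N → ¬ InCone ex (X (-k) - X' (-k)) ∧
        ‖X 0 - X' 0‖ ≤ (91 / 100) ^ k * ‖X (-k) - X' (-k)‖ := by
      intro k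
      induction k with
      | zero => intro _; exact ⟨by simpa using hc, by simp⟩
      | succ k ih =>
        intro hk
        obtain ⟨h1, h2⟩ := ih (by omega)
        have h3 := hD (-((k + 1 : ℕ) : ℤ)) (by omega) (by omega)
        have h4 : (-((k + 1 : ℕ) : ℤ)) + 1 = -(k : ℤ) := by push_cast; ring
        rw [h4] at h3
        refine ⟨fun hcone => h1 (h3.cone hR hcone).1, ?_⟩
        have h5 := h3.not_cone hR h1
        rw [pow_succ]
        have h6 : (0 : ℝ) ≤ (91 / 100) ^ k := by positivity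
        nlinarith
    have h1 := (key N le_rfl).2
    have h2 := hbd (-N)
    have h5 : (0 : ℝ) ≤ (91 / 100) ^ N := by positivity
    nlinarith

/-- scalar bound for expanding coordinates of bounded orbits -/
theorem exp_bound {lam β η : ℝ} (hl : 1 < lam) (x b : ℕ → ℝ) (hb : ∀ n, |b n| ≤ β)
    (hx : ∀ n, |x (n + 1) - lam * (x n - b n)| ≤ η) (B : ℝ) (hB : ∀ n, |x n| ≤ B) (n : ℕ) :
    |x n| ≤ (lam * β + η) / (lam - 1) := by
  set K := (lam * β + η) / (lam - 1) with hK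
  have hK' : (lam - 1) * K = lam * β + η := by
    have h0 : lam - 1 ≠ 0 := by linarith
    rw [hK]; field_simp
  have hstep : ∀ n, lam * (|x n| - K) ≤ |x (n + 1)| - K := by
    intro n
    have h1 : |lam * (x n - b n)| ≤ |x (n + 1)| + |x (n + 1) - lam * (x n - b n)| := by
      have := abs_sub (x (n + 1)) (x (n + 1) - lam * (x n - b n))
      simpa using this
    have h2 : lam * (|x n| - |b n|) ≤ |lam * (x n - b n)| := by
      rw [abs_mul, abs_of_pos (show (0 : ℝ) < lam by linarith)]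
      exact mul_le_mul_of_nonneg_left (abs_sub_abs_le_abs_sub _ _) (by linarith)
    have h3 := hx n
    have h4 := hb n
    nlinarith
  by_contra hcon
  push Not at hcon
  have hpos : 0 < |x n| - K := by linarith
  have hgrow : ∀ k : ℕ, lam ^ k * (|x n| - K) ≤ |x (n + k)| - K := by
    intro k
    induction k with
    | zero => simp
    | succ k ih =>
      have := hstep (n + k)
      rw [pow_succ]
      have h2 : lam * (lam ^ k * (|x n| - K)) ≤ lam * (|x (n + k)| - K) :=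
        mul_le_mul_of_nonneg_left ih (by linarith)
      calc lam ^ k * lam * (|x n| - K) = lam * (lam ^ k * (|x n| - K)) := by ring
        _ ≤ _ := h2.trans this
  obtain ⟨k, hk⟩ := pow_unbounded_of_one_lt ((B - K) / (|x n| - K)) hl
  rw [div_lt_iff₀ hpos] at hk
  linarith [hgrow k, hB (n + k)]

/-- scalar bound for contracting coordinates of bounded bi-infinite orbits -/
theorem con_boundZ {lam β η : ℝ} (h0 : 0 ≤ lam) (hl : lam < 1) (x b : ℤ → ℝ) (hb : ∀ n, |b n| ≤ β)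
    (hx : ∀ n, |x (n + 1) - lam * (x n - b n)| ≤ η) (B : ℝ) (hB : ∀ n, |x n| ≤ B) (n : ℤ) :
    |x n| ≤ (lam * β + η) / (1 - lam) := by
  set K := (lam * β + η) / (1 - lam) with hK
  have hK' : (1 - lam) * K = lam * β + η := by
    have h0 : 1 - lam ≠ 0 := by linarith
    rw [hK]; field_simp
  have hstep : ∀ n, |x (n + 1)| - K ≤ lam * (|x n| - K) := by
    intro n
    have h1 : |x (n + 1)| ≤ |x (n + 1) - lam * (x n - b n)| + |lam * (x n - b n)| := by
      have := abs_add_le (x (n + 1) - lam * (x n - b n)) (lam * (x n - b n))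
      simpa using this
    have h2 : |lam * (x n - b n)| ≤ lam * (|x n| + |b n|) := by
      rw [abs_mul, abs_of_nonneg h0]
      exact mul_le_mul_of_nonneg_left (abs_sub _ _) h0
    have h3 := hx n
    have h4 := hb n
    nlinarith
  have hback : ∀ k : ℕ, |x n| - K ≤ lam ^ k * (|x (n - k)| - K) := by
    intro k
    induction k with
    | zero => simp
    | succ k ih =>
      have h1 := hstep (n - ((k + 1 : ℕ) : ℤ))
      have h2 : n - ((k + 1 : ℕ) : ℤ) + 1 = n - k := by push_cast; ring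
      rw [h2] at h1
      have h3 : lam ^ k * (|x (n - k)| - K) ≤ lam ^ k * (lam * (|x (n - ((k + 1 : ℕ) : ℤ))| - K)) :=
        mul_le_mul_of_nonneg_left h1 (pow_nonneg h0 _)
      calc |x n| - K ≤ _ := ih.trans h3
        _ = _ := by rw [pow_succ]; ring
  have hlim : Tendsto (fun k : ℕ => lam ^ k * (B + |K|)) atTop (𝓝 (0 * (B + |K|))) :=
    (tendsto_pow_atTop_nhds_zero_of_lt_one h0 hl).mul_const _
  rw [zero_mul] at hlim
  have hle : |x n| - K ≤ 0 := by
    refine ge_of_tendsto' hlim fun k => ?_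
    refine (hback k).trans (mul_le_mul_of_nonneg_left ?_ (pow_nonneg h0 _))
    have := neg_abs_le K
    linarith [hB (n - k)]
  linarith

end perron

end Pool.Agent.Helper21.RT
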