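import Pool.Agent.Helper21.RT.HypCore
import Pool.Agent.Helper21.RT.PerronU
import Pool.Agent.Helper21.RT.PerronE

/-!
Hyperbolicity of invariant sets on which the derivatives are close to diagonal (MP_b79ae6_an, RT-7).
-/

open Set Filter Topology
open scoped ContDiff

noncomputable section

namespace Pool.Agent.Helper21.RT

theorem hyperbolic_of_nearDiag (g : Equiv.Perm E) (hg : ContDiff ℝ 1 g)
    (hg' : ContDiff ℝ 1 g.symm) (L : Set E) (hL : ∀ x ∈ L, g x ∈ L) (hL' : ∀ x ∈ L, g.symm x ∈ L)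
    (hf : ∀ x ∈ L, NearDiag lamf (1 / 100) (fderiv ℝ g x))
    (hb : ∀ x ∈ L, NearDiag lamb (1 / 100) (fderiv ℝ g.symm x)) : IsHyperbolicSet g L 2 :=
  hyperbolic_of_nearDiag_core perron_unique perron_exists g hg hg' L hL hL' hf hb

end Pool.Agent.Helper21.RT
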