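import Pool.Agent.Helper21.RT.Consts

/-!
RT-8 TRANS: transitivity of the maximal invariant set from a coding by digits (MP_b79ae6_an).
-/

open Set Filter Topology
open scoped ContDiff

noncomputable section

namespace Pool.Agent.Helper21.RT

theorem transitive_of_coding (g : Equiv.Perm E) (A : Dg → Set E) (B : ℝ)
    (hex : ∀ d : ℤ → Dg, ∃ x, ∀ n : ℤ, (g ^ (-n)) x ∈ A (d n))
    (hcl : ∀ (N : ℕ) (d d' : ℤ → Dg) (x x' : E), (∀ n : ℤ, (g ^ (-n)) x ∈ A (d n)) →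
      (∀ n : ℤ, (g ^ (-n)) x' ∈ A (d' n)) → (∀ n : ℤ, |n| ≤ N + 1 → d n = d' n) →
      ‖x - x'‖ ≤ B * (91 / 100) ^ N) :
    IsTransitiveOn g (maxInv g (⋃ d, A d)) := by
  classical
  -- every point of the maximal invariant set has a coding
  have hcode : ∀ x ∈ maxInv g (⋃ d, A d), ∃ d : ℤ → Dg, ∀ n : ℤ, (g ^ (-n)) x ∈ A (d n) := by
    intro x hx
    have h : ∀ n : ℤ, ∃ d : Dg, (g ^ (-n)) x ∈ A d := fun n => by
      simpa using hx (-n)
    choose d hd using h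
    exact ⟨d, hd⟩
  -- small radii
  have hsmall : ∀ r : ℝ, 0 < r → ∃ N₀ : ℕ, ∀ N : ℕ, N₀ ≤ N → B * (91 / 100 : ℝ) ^ N < r := by
    intro r hr
    have ht : Tendsto (fun N : ℕ => B * (91 / 100 : ℝ) ^ N) atTop (𝓝 (B * 0)) :=
      (tendsto_pow_atTop_nhds_zero_of_lt_one (by norm_num) (by norm_num)).const_mul B
    rw [mul_zero] at ht
    have := (ht.eventually (gt_mem_nhds hr))
    rw [eventually_atTop] at this
    exact this
  intro O O' hO hO' hne hne'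
  obtain ⟨x, hxL, hxO⟩ := hne
  obtain ⟨x', hxL', hxO'⟩ := hne'
  obtain ⟨d, hd⟩ := hcode x hxL
  obtain ⟨d', hd'⟩ := hcode x' hxL'
  obtain ⟨r, hr, hrO⟩ := Metric.isOpen_iff.1 hO x hxO
  obtain ⟨r', hr', hrO'⟩ := Metric.isOpen_iff.1 hO' x' hxO'
  obtain ⟨N₁, hN₁⟩ := hsmall r hr
  obtain ⟨N₂, hN₂⟩ := hsmall r' hr'
  set N : ℕ := max N₁ N₂ with hN
  set m : ℕ := 2 * N + 3 with hm
  -- the spliced coding
  let e : ℤ → Dg := fun n => if -((N : ℤ) + 1) ≤ n then d n else d' (n + m)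
  obtain ⟨y, hy⟩ := hex e
  have hyL : y ∈ maxInv g (⋃ d, A d) := by
    intro n
    have := hy (-n)
    rw [neg_neg] at this
    exact mem_iUnion.2 ⟨_, this⟩
  have hyO : y ∈ O := by
    apply hrO
    rw [Metric.mem_ball, dist_eq_norm]
    refine lt_of_le_of_lt (hcl N e d y x hy hd ?_) (hN₁ N (le_max_left _ _))
    intro n hn
    have h1 : -((N : ℤ) + 1) ≤ n := (abs_le.1 hn).1
    simp only [e, if_pos h1]
  refine ⟨m, by omega, y, ⟨hyL, hyO⟩, ?_⟩
  have hy' : ∀ n : ℤ, (g ^ (-n)) ((g ^ m) y) ∈ A (e (n - m)) := by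
    intro n
    have h := hy (n - m)
    have h2 : (g ^ (-(n - (m : ℤ)))) y = (g ^ (-n)) ((g ^ m) y) := by
      rw [show -(n - (m : ℤ)) = -n + m by ring, zpow_add, zpow_natCast]
      rfl
    rw [h2] at h
    exact h
  apply hrO'
  rw [Metric.mem_ball, dist_eq_norm]
  refine lt_of_le_of_lt (hcl N (fun n => e (n - m)) d' ((g ^ m) y) x' hy' hd' ?_)
    (hN₂ N (le_max_right _ _))
  intro n hn
  have h1 : n ≤ (N : ℤ) + 1 := (abs_le.1 hn).2
  have h2 : ¬ (-((N : ℤ) + 1) ≤ n - m) := by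
    rw [hm]
    push_cast
    omega
  simp only [e, if_neg h2]
  congr 1
  ring

end Pool.Agent.Helper21.RT
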