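import Pool.Agent.Helper21.RT.Near
import Pool.Agent.Helper21.RT.PerronU
import Pool.Agent.Helper21.RT.PerronE
import Pool.Agent.Helper21.RT.Trans
import Pool.Agent.Helper21.RT.Hyp

/-!
The isolated invariant set of a diffeomorphism close to the model is a transitive hyperbolic set.
-/

open Set Filter Topology
open scoped ContDiff

noncomputable section

namespace Pool.Agent.Helper21.RT

/-- closeness to the model of a diffeomorphism `g` and of its inverse -/
structure Side (g : Equiv.Perm E) (e : ℝ) : Prop where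
  e0 : 0 ≤ e
  e1 : e ≤ 1 / 1000
  hg : ContDiff ℝ 2 g
  hg' : ContDiff ℝ 2 g.symm
  hk : ∀ d, CloseD g.symm e d
  hk0 : CloseOn R0 kap0 C0 g.symm e
  hv : ∀ d, ∀ x ∈ Vd d, ‖g x - Fd d x‖ ≤ e
  hdf : ∀ d, ∀ x ∈ Vd d, NearDiag lamf (1 / 100) (fderiv ℝ g x)

/-- expanding coordinates of the backward map -/
def exB (c : Fin 5) : Prop := c = 3 ∨ c = 4

theorem rates_b : Rates lamb exB := by
  constructor
  · intro c hc
    fin_cases c <;> simp [exB, lamb] at hc ⊢ <;> norm_num
  · intro c hc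
    fin_cases c <;> simp [exB, lamb] at hc ⊢ <;> norm_num

theorem bB_abs (d : Dg) (c : Fin 5) : |bB d c| ≤ 28 := by
  have h := qd_abs d
  have h1 := sg_abs d.1
  rw [abs_le] at h
  fin_cases c
  · simp only [bB, Fin.zero_eta, Matrix.cons_val_zero, abs_le]; constructor <;> linarith [h.1, h.2]
  · simp [bB]
  · simp [bB]
  · simp only [bB, abs_le]; constructor <;> simp <;> linarith [h.1, h.2]
  · have := sg_le d.1
    simp only [bB, abs_le]; constructor <;> simp <;> linarith [this.1, this.2]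

theorem lamb_pos (c : Fin 5) : 0 ≤ lamb c := by
  fin_cases c <;> simp [lamb] <;> norm_num

theorem lamb_le (c : Fin 5) : lamb c ≤ 100 := by
  fin_cases c <;> simp [lamb] <;> norm_num

variable {g : Equiv.Perm E} {e : ℝ}

theorem Kb_zero (hs : Side g e) (d : Dg) (c : Fin 5) : |Kb g.symm d 0 c| ≤ 3000 := by
  have h := (Kb_spec (hs.hk d) hs.e1).2.1 0 c
  have h1 := bB_abs d c
  have h2 := lamb_pos c
  have h3 := lamb_le c
  have h4 : |lamb c * ((0 : E) c - bB d c)| ≤ 2800 := by
    rw [abs_mul, abs_of_nonneg h2]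
    simp only [Pi.zero_apply, zero_sub, abs_neg]
    nlinarith [abs_nonneg (bB d c)]
  have h5 := abs_sub_abs_le_abs_sub (Kb g.symm d 0 c) (lamb c * ((0 : E) c - bB d c))
  linarith

/-- coordinate bounds along an orbit, expanding coordinates -/
theorem bound3 (hs : Side g e) (d : ℕ → Dg) (X : ℕ → E)
    (hX : ∀ n, X (n + 1) = Kb g.symm (d n) (X n)) (B : ℝ) (hB : ∀ n, ‖X n‖ ≤ B) (n : ℕ) :
    |X n 3| ≤ 9 / 10 ∧ |X n 4| ≤ 52 / 10 ∧ |X n 3 - qd (d n) / 8| ≤ 1 / 100 := by
  have hst : ∀ n c, |X (n + 1) c - lamb c * (X n c - bB (d n) c)| ≤ 1 / 100 := by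
    intro n c; rw [hX n]; exact (Kb_spec (hs.hk (d n)) hs.e1).2.1 (X n) c
  have hBc : ∀ n c, |X n c| ≤ B := fun n c => (norm_le_pi_norm (X n) c).trans (hB n)
  have h3 := exp_bound (lam := 100) (β := 7 / 8) (η := 1 / 100) (by norm_num) (fun n => X n 3)
    (fun n => qd (d n) / 8)
    (fun n => by have := qd_abs (d n); rw [abs_le] at this ⊢; constructor <;> linarith [this.1, this.2])
    (fun n => by have := hst n 3; simpa [lamb, bB] using this) B (fun n => hBc n 3)
  have h4 := exp_bound (lam := 10 / 9) (β := 1 / 2) (η := 1 / 100) (by norm_num) (fun n => X n 4)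
    (fun n => sg (d n).1 / 2)
    (fun n => by have := sg_le (d n).1; rw [abs_le]; constructor <;> linarith [this.1, this.2])
    (fun n => by have := hst n 4; simpa [lamb, bB] using this) B (fun n => hBc n 4) n
  have h3n := h3 n
  have h3n' := h3 (n + 1)
  have h5 : |X (n + 1) 3 - 100 * (X n 3 - qd (d n) / 8)| ≤ 1 / 100 := by
    have := hst n 3; simpa [lamb, bB] using this
  norm_num at h3n h3n' h4
  refine ⟨by linarith, by linarith, ?_⟩
  rw [abs_le] at h3n' h5 ⊢
  constructor <;> linarith [h3n'.1, h3n'.2, h5.1, h5.2]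

theorem zorbit (g : Equiv.Perm E) (X : ℤ → E) (h : ∀ n, X (n + 1) = g.symm (X n)) (n : ℤ) :
    (g ^ (-n)) (X 0) = X n := by
  induction n using Int.induction_on with
  | zero => simp
  | succ n ih =>
    rw [h, ← ih]
    have : (g ^ (-((n : ℤ) + 1))) = g⁻¹ * g ^ (-(n : ℤ)) := by
      rw [← zpow_neg_one, ← zpow_add]; congr 1; ring
    rw [this]; rfl
  | pred n ih =>
    have h1 := h (-(n : ℤ) - 1)
    have e1 : -(n : ℤ) - 1 + 1 = -(n : ℤ) := by ring
    rw [e1] at h1
    have h2 : X (-(n : ℤ) - 1) = g (X (-(n : ℤ))) := by rw [h1]; simp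
    rw [h2, ← ih]
    have : (g ^ (-(-(n : ℤ) - 1))) = g * g ^ (-(-(n : ℤ))) := by
      rw [← zpow_one_add]; congr 1; ring
    rw [this]; rfl

/-- a point of the box `Vd d'` which is mapped by `g⁻¹` to the box of the digit `d` lies in `Rd d` -/
theorem mem_Rd_of (hs : Side g e) {d d' : Dg} {x : E} (hx : x ∈ Vd d') (hy : g.symm x ∈ Vd d) :
    x ∈ Rd d := by
  have h := hs.hv d _ hy
  rw [Equiv.apply_symm_apply] at h
  have h3 : |x 3 - Fd d (g.symm x) 3| ≤ e := by
    have := (norm_le_pi_norm (x - Fd d (g.symm x)) 3).trans h; simpa using this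
  have hq := qd_abs d'
  have he := hs.e1
  obtain ⟨a0, a1, a2, a3, a4⟩ := hx
  obtain ⟨b0, b1, b2, b3, b4⟩ := hy
  have hF : Fd d (g.symm x) 3 = (g.symm x) 3 / 100 + qd d / 8 := by simp [Fd]
  rw [hF] at h3
  refine ⟨?_, by linarith, by linarith, ?_, by linarith⟩
  · rw [abs_le] at *; constructor <;> linarith [a0.1, a0.2, hq.1, hq.2]
  · rw [abs_le] at *; constructor <;> linarith [h3.1, h3.2, b3.1, b3.2]

/-- existence of a point with a given itinerary -/
theorem coding_exists (hs : Side g e) (d : ℤ → Dg) : ∃ x, ∀ n : ℤ, (g ^ (-n)) x ∈ Vd (d n) := by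
  obtain ⟨X, hX, B, hB⟩ := perronZ_exists rates_b (fun n : ℤ => Kb g.symm (d (n + 1)))
    (fun n => (Kb_spec (hs.hk _) hs.e1).1) 3000 (fun n c => Kb_zero hs _ c)
  have hst : ∀ n c, |X (n + 1) c - lamb c * (X n c - bB (d (n + 1)) c)| ≤ 1 / 100 := by
    intro n c; rw [hX n]; exact (Kb_spec (hs.hk _) hs.e1).2.1 (X n) c
  have hBc : ∀ n c, |X n c| ≤ B := fun n c => (norm_le_pi_norm (X n) c).trans (hB n)
  have hb : ∀ n : ℤ, |X n 3| ≤ 9 / 10 ∧ |X n 4| ≤ 52 / 10 ∧
      |X n 3 - qd (d (n + 1)) / 8| ≤ 1 / 100 := by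
    intro n
    have := bound3 hs (fun m : ℕ => d (n + m + 1)) (fun m : ℕ => X (n + m))
      (fun m => by have := hX (n + m); push_cast; rw [← add_assoc]; exact this) B
      (fun m => hB _) 0
    simpa using this
  have h0 : ∀ n, |X n 0| ≤ 3 / 10 := by
    intro n
    have := con_boundZ (lam := 1 / 100) (β := 28) (η := 1 / 100) (by norm_num) (by norm_num)
      (fun n => X n 0) (fun n => bB (d (n + 1)) 0) (fun n => bB_abs _ _)
      (fun n => by have := hst n 0; simpa [lamb] using this) B (fun n => hBc n 0) n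
    norm_num at this
    linarith
  have h1 : ∀ n, |X n 1| ≤ 1 / 10 := by
    intro n
    have := con_boundZ (lam := 5 / 6) (β := 0) (η := 1 / 100) (by norm_num) (by norm_num)
      (fun n => X n 1) (fun n => bB (d (n + 1)) 1) (fun n => by simp [bB])
      (fun n => by have := hst n 1; simpa [lamb] using this) B (fun n => hBc n 1) n
    norm_num at this
    linarith
  have h2 : ∀ n, |X n 2| ≤ 1 / 10 := by
    intro n
    have := con_boundZ (lam := 5 / 6) (β := 0) (η := 1 / 100) (by norm_num) (by norm_num)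
      (fun n => X n 2) (fun n => bB (d (n + 1)) 2) (fun n => by simp [bB])
      (fun n => by have := hst n 2; simpa [lamb] using this) B (fun n => hBc n 2) n
    norm_num at this
    linarith
  have hR : ∀ n, X n ∈ Rd (d (n + 1)) := by
    intro n
    have := hb n
    exact ⟨(h0 n).trans (by norm_num), (h1 n).trans (by norm_num), (h2 n).trans (by norm_num),
      this.2.2.trans (by norm_num), this.2.1.trans (by norm_num)⟩
  have hk : ∀ n, X (n + 1) = g.symm (X n) := by
    intro n; rw [hX n]; exact (Kb_spec (hs.hk _) hs.e1).2.2 _ (hR n)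
  have hV : ∀ n, X (n + 1) ∈ Vd (d (n + 1)) := by
    intro n
    have hv := (hs.hk (d (n + 1))).val _ (hR n)
    rw [← hk n] at hv
    have hv0 : |X (n + 1) 0 - kap (d (n + 1)) (X n) 0| ≤ e := by
      have := (norm_le_pi_norm (X (n + 1) - kap (d (n + 1)) (X n)) 0).trans hv; simpa using this
    have hF : kap (d (n + 1)) (X n) 0 = (X n 0 + 4 * qd (d (n + 1))) / 100 := by simp [kap]
    rw [hF] at hv0
    have he := hs.e1
    refine ⟨?_, (h1 _).trans (by norm_num), (h2 _).trans (by norm_num),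
      (hb _).1.trans (by norm_num), (hb _).2.1.trans (by norm_num)⟩
    have := h0 n
    rw [abs_le] at hv0 this ⊢
    constructor <;> linarith [hv0.1, hv0.2, this.1, this.2]
  refine ⟨X 0, fun n => ?_⟩
  rw [zorbit g X hk n]
  have := hV (n - 1)
  simpa using this

theorem Vd_norm {d : Dg} {x : E} (hx : x ∈ Vd d) : ‖x‖ ≤ 8 := by
  obtain ⟨a0, a1, a2, a3, a4⟩ := hx
  have hq := qd_abs d
  rw [pi_norm_le_iff_of_nonneg (by norm_num)]
  intro i
  rw [Real.norm_eq_abs]
  fin_cases i
  · simp only [Fin.zero_eta]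
    rw [abs_le] at *; constructor <;> linarith [a0.1, a0.2, hq.1, hq.2]
  · exact a1.trans (by norm_num)
  · exact a2.trans (by norm_num)
  · exact a3.trans (by norm_num)
  · exact a4

theorem zpow_symm_apply (g : Equiv.Perm E) (n : ℤ) (x : E) :
    (g ^ (-(n + 1))) x = g.symm ((g ^ (-n)) x) := by
  have : (g ^ (-(n + 1))) = g⁻¹ * g ^ (-n) := by
    rw [← zpow_neg_one, ← zpow_add]; congr 1; ring
  rw [this]; rfl

/-- closeness of points with close itineraries -/
theorem coding_close (hs : Side g e) (N : ℕ) (d d' : ℤ → Dg) (x x' : E)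
    (hx : ∀ n : ℤ, (g ^ (-n)) x ∈ Vd (d n)) (hx' : ∀ n : ℤ, (g ^ (-n)) x' ∈ Vd (d' n))
    (hd : ∀ n : ℤ, |n| ≤ N + 1 → d n = d' n) : ‖x - x'‖ ≤ 16 * (91 / 100) ^ N := by
  have key : ∀ (d : ℤ → Dg) (x : E), (∀ n : ℤ, (g ^ (-n)) x ∈ Vd (d n)) → ∀ n : ℤ,
      (g ^ (-(n + 1))) x = Kb g.symm (d (n + 1)) ((g ^ (-n)) x) := by
    intro d x hx n
    have h1 := hx (n + 1)
    rw [zpow_symm_apply] at h1
    rw [(Kb_spec (hs.hk _) hs.e1).2.2 _ (mem_Rd_of hs (hx n) h1), zpow_symm_apply]
  have := perronZ_window rates_b N (fun n : ℤ => Kb g.symm (d (n + 1)))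
    (fun n => (Kb_spec (hs.hk _) hs.e1).1) (fun n => (g ^ (-n)) x) (fun n => (g ^ (-n)) x')
    (fun n _ _ => key d x hx n)
    (fun n h1 h2 => by
      have h3 : d (n + 1) = d' (n + 1) := hd _ (by rw [abs_le]; constructor <;> omega)
      rw [h3]; exact key d' x' hx' n)
    8 (fun n => Vd_norm (hx n)) (fun n => Vd_norm (hx' n))
  simp only [neg_zero, zpow_zero] at this
  calc ‖x - x'‖ ≤ 2 * 8 * (91 / 100) ^ N := this
    _ = _ := by ring

theorem isCompact_Vd (d : Dg) : IsCompact (Vd d) := by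
  refine (isCompact_closedBall (0 : E) 8).of_isClosed_subset ?_ ?_
  · unfold Vd
    simp only [Set.setOf_and]
    refine IsClosed.inter ?_ (IsClosed.inter ?_ (IsClosed.inter ?_ (IsClosed.inter ?_ ?_))) <;>
      exact isClosed_le (by fun_prop) continuous_const
  · intro x hx
    rw [mem_closedBall_zero_iff]; exact Vd_norm hx

theorem isCompact_VV : IsCompact VV := isCompact_iUnion isCompact_Vd

theorem maxInv_symm {g : Equiv.Perm E} {V : Set E} {x : E} (hx : x ∈ maxInv g V) :
    g.symm x ∈ maxInv g V := by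
  intro n
  have := hx (n - 1)
  have e1 : (g ^ n) (g.symm x) = (g ^ (n - 1)) x := by
    have : g ^ (n - 1) = g ^ n * g⁻¹ := by rw [zpow_sub_one]
    rw [this]; rfl
  rw [e1]; exact this

theorem maxInv_apply {g : Equiv.Perm E} {V : Set E} {x : E} (hx : x ∈ maxInv g V) :
    g x ∈ maxInv g V := by
  intro n
  have := hx (n + 1)
  have e1 : (g ^ n) (g x) = (g ^ (n + 1)) x := by
    rw [zpow_add_one]; rfl
  rw [e1]; exact this

theorem maxInv_sub {g : Equiv.Perm E} {V : Set E} : maxInv g V ⊆ V := fun x hx => by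
  simpa using hx 0

theorem continuous_zpow {g : Equiv.Perm E} (hg : Continuous g) (hg' : Continuous g.symm) (n : ℤ) :
    Continuous (⇑(g ^ n)) := by
  induction n using Int.induction_on with
  | zero => simpa using continuous_id
  | succ n ih =>
    have : ⇑(g ^ ((n : ℤ) + 1)) = ⇑(g ^ (n : ℤ)) ∘ g := by rw [zpow_add_one]; rfl
    rw [this]; exact ih.comp hg
  | pred n ih =>
    have : ⇑(g ^ (-(n : ℤ) - 1)) = ⇑(g ^ (-(n : ℤ))) ∘ g.symm := by rw [zpow_sub_one]; rfl
    rw [this]; exact ih.comp hg'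

theorem isClosed_maxInv {g : Equiv.Perm E} (hg : Continuous g) (hg' : Continuous g.symm) {V : Set E}
    (hV : IsClosed V) : IsClosed (maxInv g V) := by
  have : maxInv g V = ⋂ n : ℤ, (⇑(g ^ n)) ⁻¹' V := by
    ext x; simp [maxInv]
  rw [this]
  exact isClosed_iInter fun n => hV.preimage (continuous_zpow hg hg' n)

theorem isBasic_VV (hs : Side g e) : IsBasic g VV 2 := by
  have hgc : Continuous g := hs.hg.continuous
  have hgc' : Continuous g.symm := hs.hg'.continuous
  refine ⟨?_, ?_, ?_, ?_, ?_⟩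
  · obtain ⟨x, hx⟩ := coding_exists hs (fun _ => (true, true, true))
    refine ⟨x, fun n => ?_⟩
    have := hx (-n)
    rw [neg_neg] at this
    exact Set.mem_iUnion.2 ⟨_, this⟩
  · exact isCompact_VV.of_isClosed_subset (isClosed_maxInv hgc hgc' isCompact_VV.isClosed) maxInv_sub
  · intro x hx
    -- `x` is the image of a point of the set and its preimage too
    obtain ⟨d, hd⟩ := Set.mem_iUnion.1 (maxInv_sub hx)
    obtain ⟨d1, hd1⟩ := Set.mem_iUnion.1 (maxInv_sub (maxInv_symm hx))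
    obtain ⟨d2, hd2⟩ := Set.mem_iUnion.1 (maxInv_sub (maxInv_apply hx))
    have he := hs.e1
    -- forward estimate
    have hF := hs.hv d x hd
    have f0 : |g x 0 - Fd d x 0| ≤ e := by
      have := (norm_le_pi_norm (g x - Fd d x) 0).trans hF; simpa using this
    have f1 : |g x 1 - Fd d x 1| ≤ e := by
      have := (norm_le_pi_norm (g x - Fd d x) 1).trans hF; simpa using this
    have f2 : |g x 2 - Fd d x 2| ≤ e := by
      have := (norm_le_pi_norm (g x - Fd d x) 2).trans hF; simpa using this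
    -- backward estimate
    have hF' := hs.hv d1 _ hd1
    rw [Equiv.apply_symm_apply] at hF'
    have f3 : |x 3 - Fd d1 (g.symm x) 3| ≤ e := by
      have := (norm_le_pi_norm (x - Fd d1 (g.symm x)) 3).trans hF'; simpa using this
    have f4 : |x 4 - Fd d1 (g.symm x) 4| ≤ e := by
      have := (norm_le_pi_norm (x - Fd d1 (g.symm x)) 4).trans hF'; simpa using this
    have e0 : Fd d x 0 = 100 * x 0 - 4 * qd d := by simp [Fd]
    have e1 : Fd d x 1 = 6 / 5 * x 1 := by simp [Fd]
    have e2 : Fd d x 2 = 6 / 5 * x 2 := by simp [Fd]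
    have e3 : Fd d1 (g.symm x) 3 = g.symm x 3 / 100 + qd d1 / 8 := by simp [Fd]
    have e4 : Fd d1 (g.symm x) 4 = 9 / 10 * g.symm x 4 + sg d1.1 / 2 +
        tau / 2 * (sg d1.2.1 * (6 / 5 * g.symm x 1) + sg d1.2.2 * (6 / 5 * g.symm x 2)) := by simp [Fd]
    rw [e0] at f0; rw [e1] at f1; rw [e2] at f2; rw [e3] at f3; rw [e4] at f4
    obtain ⟨a0, a1, a2, a3, a4⟩ := hd2
    obtain ⟨b0, b1, b2, b3, b4⟩ := hd1
    have q2 := qd_abs d2
    have q1 := qd_abs d1
    have s1 := sg_le d1.1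
    have c1 := sg_mul_abs d1.2.1 (6 / 5 * g.symm x 1)
    have c2 := sg_mul_abs d1.2.2 (6 / 5 * g.symm x 2)
    have c1' : |sg d1.2.1 * (6 / 5 * g.symm x 1)| ≤ 6 / 5 := by
      rw [c1, abs_mul]; norm_num; linarith
    have c2' : |sg d1.2.2 * (6 / 5 * g.symm x 2)| ≤ 6 / 5 := by
      rw [c2, abs_mul]; norm_num; linarith
    have hopen : IsOpen {y : E | |100 * y 0 - 4 * qd d| < 1 ∧ |y 1| < 1 ∧ |y 2| < 1 ∧ |y 3| < 1 ∧
        |y 4| < 8} := by
      simp only [Set.setOf_and]
      refine IsOpen.inter ?_ (IsOpen.inter ?_ (IsOpen.inter ?_ (IsOpen.inter ?_ ?_))) <;>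
        exact isOpen_lt (by fun_prop) continuous_const
    rw [mem_interior]
    refine ⟨_, ?_, hopen, ?_⟩
    · rintro y ⟨y0, y1, y2, y3, y4⟩
      exact Set.mem_iUnion.2 ⟨d, y0.le, y1.le, y2.le, y3.le, y4.le⟩
    · have ht : tau = 1 / 1000 := rfl
      refine ⟨?_, ?_, ?_, ?_, ?_⟩
      · rw [abs_lt]; rw [abs_le] at f0 a0 q2; constructor <;> linarith [f0.1, f0.2, a0.1, a0.2, q2.1, q2.2]
      · rw [abs_lt]; rw [abs_le] at f1 a1; constructor <;> linarith [f1.1, f1.2, a1.1, a1.2]
      · rw [abs_lt]; rw [abs_le] at f2 a2; constructor <;> linarith [f2.1, f2.2, a2.1, a2.2]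
      · rw [abs_lt]; rw [abs_le] at f3 b3 q1; constructor <;> linarith [f3.1, f3.2, b3.1, b3.2, q1.1, q1.2]
      · rw [ht] at f4
        rw [abs_lt]; rw [abs_le] at f4 b4 c1' c2'
        constructor <;> linarith [f4.1, f4.2, b4.1, b4.2, s1.1, s1.2, c1'.1, c1'.2, c2'.1, c2'.2]
  · exact transitive_of_coding g Vd 16 (coding_exists hs) (coding_close hs)
  · refine hyperbolic_of_nearDiag g (hs.hg.of_le (by norm_num)) (hs.hg'.of_le (by norm_num)) _
      (fun x hx => maxInv_apply hx) (fun x hx => maxInv_symm hx) ?_ ?_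
    · intro x hx
      obtain ⟨d, hd⟩ := Set.mem_iUnion.1 (maxInv_sub hx)
      exact hs.hdf d x hd
    · intro x hx
      obtain ⟨d, hd⟩ := Set.mem_iUnion.1 (maxInv_sub hx)
      obtain ⟨d1, hd1⟩ := Set.mem_iUnion.1 (maxInv_sub (maxInv_symm hx))
      have hR := mem_Rd_of hs hd hd1
      intro v w c
      rw [← Pi.sub_apply, ← map_sub]
      have h1 := (hs.hk d1).der x hR (v - w)
      have h2 : |fderiv ℝ g.symm x (v - w) c - M0 (Cd d1) (v - w) c| ≤ e * ‖v - w‖ := by
        have := (norm_le_pi_norm (fderiv ℝ g.symm x (v - w) - M0 (Cd d1) (v - w)) c).trans h1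
        simpa using this
      have h3 : |M0 (Cd d1) (v - w) c - lamb c * (v c - w c)| ≤ 1 / 500 * ‖v - w‖ := by
        have := kap_sub_lip d1 v w c
        have e5 : (kap d1 v c - lamb c * (v c - bB d1 c)) - (kap d1 w c - lamb c * (w c - bB d1 c)) =
            M0 (Cd d1) (v - w) c - lamb c * (v c - w c) := by
          fin_cases c <;> simp [kap, M0, Cd, lamb, bB] <;> ring
        rw [e5] at this
        exact this
      calc |fderiv ℝ g.symm x (v - w) c - lamb c * (v c - w c)|
          = |(fderiv ℝ g.symm x (v - w) c - M0 (Cd d1) (v - w) c) +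
              (M0 (Cd d1) (v - w) c - lamb c * (v c - w c))| := by ring_nf
        _ ≤ _ := (abs_add_le _ _).trans (by
            have := hs.e1
            have hn := norm_nonneg (v - w)
            nlinarith)

end Pool.Agent.Helper21.RT
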