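import Pool.Agent.Helper21.RT.Coding

/-!
RT-11: the invariant sets of two diffeomorphisms close to the model are conjugate by a
homeomorphism close to the identity.
-/

open Set Filter Topology
open scoped ContDiff

noncomputable section

namespace Pool.Agent.Helper21.RT

/-- the boxes of different digits are disjoint -/
theorem Vd_unique {d d' : Dg} {x : E} (h : x ∈ Vd d) (h' : x ∈ Vd d') : d = d' := by
  have h0 := h.1
  have h0' := h'.1
  rw [abs_le] at h0 h0'
  obtain ⟨a, b, c⟩ := d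
  obtain ⟨a', b', c'⟩ := d'
  cases a <;> cases b <;> cases c <;> cases a' <;> cases b' <;> cases c' <;>
    first
      | rfl
      | (exfalso
         simp only [qd, sg, if_true, Bool.false_eq_true, if_false] at h0 h0'
         linarith [h0.1, h0.2, h0'.1, h0'.2])

theorem isClosed_Vd (d : Dg) : IsClosed (Vd d) := (isCompact_Vd d).isClosed

open Classical in
/-- the itinerary of a point -/
def dig (f : Equiv.Perm E) (x : E) (n : ℤ) : Dg :=
  if h : ∃ d, (f ^ (-n)) x ∈ Vd d then h.choose else (true, true, true)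

theorem dig_spec {f : Equiv.Perm E} {x : E} (hx : x ∈ maxInv f VV) (n : ℤ) :
    (f ^ (-n)) x ∈ Vd (dig f x n) := by
  have h : ∃ d, (f ^ (-n)) x ∈ Vd d := Set.mem_iUnion.1 (hx (-n))
  unfold dig
  rw [dif_pos h]
  exact h.choose_spec

theorem maxInv_of {f : Equiv.Perm E} {x : E} {d : ℤ → Dg} (h : ∀ n : ℤ, (f ^ (-n)) x ∈ Vd (d n)) :
    x ∈ maxInv f VV := by
  intro n
  have := h (-n)
  rw [neg_neg] at this
  exact Set.mem_iUnion.2 ⟨_, this⟩

theorem dig_eq {f : Equiv.Perm E} {x : E} {d : ℤ → Dg} (h : ∀ n : ℤ, (f ^ (-n)) x ∈ Vd (d n)) :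
    dig f x = d := by
  funext n
  exact Vd_unique (dig_spec (maxInv_of h) n) (h n)

theorem coding_unique {f : Equiv.Perm E} {e : ℝ} (hf : Side f e) {d : ℤ → Dg} {x x' : E}
    (hx : ∀ n : ℤ, (f ^ (-n)) x ∈ Vd (d n)) (hx' : ∀ n : ℤ, (f ^ (-n)) x' ∈ Vd (d n)) : x = x' := by
  have h1 : ∀ N : ℕ, ‖x - x'‖ ≤ 16 * (91 / 100) ^ N := fun N =>
    coding_close hf N d d x x' hx hx' (fun _ _ => rfl)
  have h2 : Tendsto (fun N : ℕ => (16 : ℝ) * (91 / 100) ^ N) atTop (𝓝 0) := by
    have := (tendsto_pow_atTop_nhds_zero_of_lt_one (r := (91 / 100 : ℝ)) (by norm_num)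
      (by norm_num)).const_mul 16
    simpa using this
  have h3 : ‖x - x'‖ ≤ 0 := ge_of_tendsto' h2 h1
  exact sub_eq_zero.1 (norm_le_zero_iff.1 h3)

theorem zpow_apply_shift (g : Equiv.Perm E) (n : ℤ) (x : E) :
    (g ^ (-n)) (g x) = (g ^ (-(n - 1))) x := by
  have : g ^ (-(n - 1)) = g ^ (-n) * g := by
    rw [← zpow_add_one]; congr 1; ring
  rw [this]; rfl

/-- the itineraries are locally constant -/
theorem dig_eventually {f : Equiv.Perm E} (hf : Continuous f) (hf' : Continuous f.symm) {x : E}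
    (hx : x ∈ maxInv f VV) (n : ℤ) :
    ∀ᶠ y in 𝓝[maxInv f VV] x, dig f y n = dig f x n := by
  have hc : IsClosed (⋃ d' ∈ {d' : Dg | d' ≠ dig f x n}, Vd d') :=
    Set.Finite.isClosed_biUnion (Set.toFinite _) (fun d _ => isClosed_Vd d)
  have hopen : IsOpen ((⇑(f ^ (-n))) ⁻¹' (⋃ d' ∈ {d' : Dg | d' ≠ dig f x n}, Vd d')ᶜ) :=
    hc.isOpen_compl.preimage (continuous_zpow hf hf' (-n))
  have hmem : x ∈ (⇑(f ^ (-n))) ⁻¹' (⋃ d' ∈ {d' : Dg | d' ≠ dig f x n}, Vd d')ᶜ := by
    intro h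
    obtain ⟨d', hd', h2⟩ := Set.mem_iUnion₂.1 h
    exact hd' (Vd_unique h2 (dig_spec hx n))
  have h1 : ∀ᶠ y in 𝓝[maxInv f VV] x,
      y ∈ (⇑(f ^ (-n))) ⁻¹' (⋃ d' ∈ {d' : Dg | d' ≠ dig f x n}, Vd d')ᶜ :=
    mem_nhdsWithin_of_mem_nhds (hopen.mem_nhds hmem)
  have h2 : ∀ᶠ y in 𝓝[maxInv f VV] x, y ∈ maxInv f VV := self_mem_nhdsWithin
  filter_upwards [h1, h2] with y hy hy2
  by_contra hne
  exact hy (Set.mem_iUnion₂.2 ⟨dig f y n, hne, dig_spec hy2 n⟩)

/-- points with the same itinerary are close -/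
theorem conj_close {f g : Equiv.Perm E} {e : ℝ} (hf : Side f e) (hg : Side g e) {d : ℤ → Dg}
    {x y : E} (hx : ∀ n : ℤ, (f ^ (-n)) x ∈ Vd (d n)) (hy : ∀ n : ℤ, (g ^ (-n)) y ∈ Vd (d n)) :
    ‖y - x‖ ≤ 50 * e := by
  have he0 := hf.e0
  set D : ℤ → E := fun n => (g ^ (-n)) y - (f ^ (-n)) x with hD
  have hstep : ∀ n c, |D (n + 1) c - lamb c * D n c| ≤ 1 / 500 * ‖D n‖ + 2 * e := by
    intro n c
    have hx1 := hx (n + 1)
    have hy1 := hy (n + 1)
    rw [zpow_symm_apply] at hx1 hy1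
    have hxR := mem_Rd_of hf (hx n) hx1
    have hyR := mem_Rd_of hg (hy n) hy1
    have hxv := (hf.hk (d (n + 1))).val _ hxR
    have hyv := (hg.hk (d (n + 1))).val _ hyR
    have h1 : |f.symm ((f ^ (-n)) x) c - kap (d (n + 1)) ((f ^ (-n)) x) c| ≤ e := by
      have := (norm_le_pi_norm (f.symm ((f ^ (-n)) x) - kap (d (n + 1)) ((f ^ (-n)) x)) c).trans hxv
      simpa using this
    have h2 : |g.symm ((g ^ (-n)) y) c - kap (d (n + 1)) ((g ^ (-n)) y) c| ≤ e := by
      have := (norm_le_pi_norm (g.symm ((g ^ (-n)) y) - kap (d (n + 1)) ((g ^ (-n)) y)) c).trans hyv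
      simpa using this
    have h3 := kap_sub_lip (d (n + 1)) ((g ^ (-n)) y) ((f ^ (-n)) x) c
    have h4 : D (n + 1) c - lamb c * D n c =
        (g.symm ((g ^ (-n)) y) c - kap (d (n + 1)) ((g ^ (-n)) y) c) -
        (f.symm ((f ^ (-n)) x) c - kap (d (n + 1)) ((f ^ (-n)) x) c) +
        ((kap (d (n + 1)) ((g ^ (-n)) y) c - lamb c * (((g ^ (-n)) y) c - bB (d (n + 1)) c)) -
          (kap (d (n + 1)) ((f ^ (-n)) x) c - lamb c * (((f ^ (-n)) x) c - bB (d (n + 1)) c))) := by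
      simp only [hD, zpow_symm_apply, Pi.sub_apply]
      ring
    rw [h4]
    refine (abs_add_le _ _).trans ?_
    have h5 := abs_sub (g.symm ((g ^ (-n)) y) c - kap (d (n + 1)) ((g ^ (-n)) y) c)
      (f.symm ((f ^ (-n)) x) c - kap (d (n + 1)) ((f ^ (-n)) x) c)
    linarith
  have hbd : ∀ n, ‖D n‖ ≤ 16 := fun n =>
    (norm_sub_le _ _).trans (by linarith [Vd_norm (hx n), Vd_norm (hy n)])
  have hB : BddAbove (Set.range fun n => ‖D n‖) := ⟨16, by rintro _ ⟨n, rfl⟩; exact hbd n⟩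
  set S : ℝ := ⨆ n, ‖D n‖ with hS
  have hle : ∀ n, ‖D n‖ ≤ S := fun n => le_ciSup hB n
  have hS0 : 0 ≤ S := (norm_nonneg _).trans (hle 0)
  have hcoord : ∀ n c, |D n c| ≤ S := fun n c => (norm_le_pi_norm (D n) c).trans (hle n)
  have hcon : ∀ (n : ℤ) (c : Fin 5) (l : ℝ), lamb c = l → 0 ≤ l → l ≤ 5 / 6 →
      |D n c| ≤ 91 / 100 * S + 2 * e := by
    intro n c l hl h0 h1
    have h := hstep (n - 1) c
    rw [sub_add_cancel, hl] at h
    have h2 := hle (n - 1)
    have h3 := hcoord (n - 1) c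
    have h4 : |l * D (n - 1) c| ≤ 5 / 6 * S := by
      rw [abs_mul, abs_of_nonneg h0]
      exact mul_le_mul h1 h3 (abs_nonneg _) (by norm_num)
    have h5 := abs_sub_abs_le_abs_sub (D n c) (l * D (n - 1) c)
    linarith
  have hexp : ∀ (n : ℤ) (c : Fin 5) (l : ℝ), lamb c = l → 10 / 9 ≤ l →
      |D n c| ≤ 91 / 100 * S + 2 * e := by
    intro n c l hl h1
    have h := hstep n c
    rw [hl] at h
    have h2 := hle n
    have h3 := hcoord (n + 1) c
    have h4 : l * |D n c| = |l * D n c| := by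
      rw [abs_mul, abs_of_nonneg (by linarith : (0 : ℝ) ≤ l)]
    have h5 := abs_sub_abs_le_abs_sub (l * D n c) (D (n + 1) c)
    rw [abs_sub_comm] at h5
    have h6 : 10 / 9 * |D n c| ≤ l * |D n c| := mul_le_mul_of_nonneg_right h1 (abs_nonneg _)
    linarith
  have hall : ∀ n, ‖D n‖ ≤ 91 / 100 * S + 2 * e := by
    intro n
    rw [pi_norm_le_iff_of_nonneg (by positivity)]
    intro c
    rw [Real.norm_eq_abs]
    fin_cases c
    · exact hcon n 0 (1 / 100) (by simp [lamb]) (by norm_num) (by norm_num)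
    · exact hcon n 1 (5 / 6) (by simp [lamb]) (by norm_num) (by norm_num)
    · exact hcon n 2 (5 / 6) (by simp [lamb]) (by norm_num) (by norm_num)
    · exact hexp n 3 100 (by simp [lamb]) (by norm_num)
    · exact hexp n 4 (10 / 9) (by simp [lamb]) (by norm_num)
  have hfin : S ≤ 91 / 100 * S + 2 * e := ciSup_le hall
  have h0 := hle 0
  have hD0 : D 0 = y - x := by
    simp only [hD, neg_zero, zpow_zero, Equiv.Perm.one_apply]
  rw [hD0] at h0
  linarith

/-- RT-11. The invariant sets of two diffeomorphisms close to the model are conjugate by a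
homeomorphism close to the identity. -/
theorem conj_exists {f g : Equiv.Perm E} {e : ℝ} (hf : Side f e) (hg : Side g e) :
    IsConjClose f g (maxInv f VV) (maxInv g VV) (50 * e) := by
  have hex : ∀ x, ∃ y, ∀ n : ℤ, (g ^ (-n)) y ∈ Vd (dig f x n) := fun x => coding_exists hg (dig f x)
  choose h hh using hex
  refine ⟨h, ?_, ⟨?_, ?_, ?_⟩, ?_⟩
  · -- continuity
    intro x hx
    rw [ContinuousWithinAt, Metric.tendsto_nhds]
    intro ε hε
    obtain ⟨N, hN⟩ := exists_pow_lt_of_lt_one (show 0 < ε / 16 by positivity)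
      (show (91 / 100 : ℝ) < 1 by norm_num)
    have h1 : ∀ᶠ y in 𝓝[maxInv f VV] x,
        ∀ n ∈ Set.Icc (-((N : ℤ) + 1)) ((N : ℤ) + 1), dig f y n = dig f x n := by
      rw [Filter.eventually_all_finite (Set.finite_Icc _ _)]
      intro n _
      exact dig_eventually hf.hg.continuous hf.hg'.continuous hx n
    filter_upwards [h1] with y hy
    rw [dist_eq_norm]
    have h2 := coding_close hg N (dig f y) (dig f x) (h y) (h x) (hh y) (hh x) (fun n hn => by
      rw [abs_le] at hn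
      exact hy n ⟨hn.1, hn.2⟩)
    refine h2.trans_lt ?_
    have : (16 : ℝ) * (91 / 100) ^ N < 16 * (ε / 16) := by linarith
    linarith
  · -- maps to
    intro x _
    exact maxInv_of (hh x)
  · -- injective
    intro x hx x' hx' hxx
    have h1 : dig f x = dig f x' := by
      rw [← dig_eq (hh x), ← dig_eq (hh x'), hxx]
    exact coding_unique hf (dig_spec hx) (by rw [h1]; exact dig_spec hx')
  · -- surjective
    intro y hy
    obtain ⟨x, hx⟩ := coding_exists hf (dig g y)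
    refine ⟨x, maxInv_of hx, ?_⟩
    refine coding_unique hg (hh x) ?_
    rw [dig_eq hx]
    exact dig_spec hy
  · intro x hx
    refine ⟨?_, conj_close hf hg (dig_spec hx) (hh x)⟩
    refine coding_unique hg (hh (f x)) ?_
    intro n
    rw [zpow_apply_shift]
    have h1 : dig f (f x) n = dig f x (n - 1) := by
      have h2 : ∀ n : ℤ, (f ^ (-n)) (f x) ∈ Vd (dig f x (n - 1)) := by
        intro n
        rw [zpow_apply_shift]
        exact dig_spec hx (n - 1)
      exact congrFun (dig_eq h2) n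
    rw [h1]
    exact hh x (n - 1)

end Pool.Agent.Helper21.RT
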