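import Pool.Agent.Helper21.RT.Transport

/-!
Transport of the conjugacy under the involution.
-/

open Set Filter Topology
open scoped ContDiff

noncomputable section

namespace Pool.Agent.Helper21.RT

theorem conj_transport {f g g2 : Equiv.Perm E} (hf : ∀ x, f x = Tm (f.symm (Tm x)))
    (h2 : ∀ x, g2 x = Tm (g.symm (Tm x))) {V : Set E} {δ : ℝ}
    (h : IsConjClose f g2 (maxInv f V) (maxInv g2 V) δ) :
    IsConjClose f g (maxInv f (Tm '' V)) (maxInv g (Tm '' V)) δ := by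
  obtain ⟨h, hc, hb, hx⟩ := h
  rw [maxInv_transport f f hf, maxInv_transport g g2 h2]
  refine ⟨fun x => Tm (h (Tm x)), ?_, ?_, ?_⟩
  · refine tp_continuous.comp_continuousOn (hc.comp tp_continuous.continuousOn ?_)
    rintro _ ⟨y, hy, rfl⟩
    rw [tp_Tm_Tm]; exact hy
  · refine ⟨?_, ?_, ?_⟩
    · rintro _ ⟨y, hy, rfl⟩
      refine ⟨h y, hb.mapsTo hy, ?_⟩
      simp only [tp_Tm_Tm]
    · rintro _ ⟨y, hy, rfl⟩ _ ⟨z, hz, rfl⟩ hyz
      simp only [tp_Tm_Tm] at hyz
      have := congrArg Tm hyz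
      rw [tp_Tm_Tm, tp_Tm_Tm] at this
      rw [hb.injOn hy hz this]
    · rintro _ ⟨y, hy, rfl⟩
      obtain ⟨z, hz, rfl⟩ := hb.surjOn hy
      exact ⟨Tm z, ⟨z, hz, rfl⟩, by simp only [tp_Tm_Tm]⟩
  · rintro _ ⟨y, hy, rfl⟩
    constructor
    · -- `f (Tm y) = Tm (f.symm y)`
      have e1 : f (Tm y) = Tm (f.symm y) := by rw [hf, tp_Tm_Tm]
      have hfy : f.symm y ∈ maxInv f V := by
        have := tp_maxInv_step hy (-1)
        simpa using this
      have e2 := (hx _ hfy).1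
      rw [Equiv.apply_symm_apply] at e2
      simp only [tp_Tm_Tm, e1]
      rw [e2]
      have e3 := h2 (h (f.symm y))
      rw [e3, tp_Tm_Tm, Equiv.apply_symm_apply]
    · simp only [tp_Tm_Tm]
      rw [tp_Tm_sub, tp_norm_TmL]
      exact (hx y hy).2

end Pool.Agent.Helper21.RT
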