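import Pool.Agent.Helper21.RT.Defs

/-!
Constants and model formulas (MP_b79ae6_an).
-/

open Set Filter Topology
open scoped ContDiff

noncomputable section

namespace Pool.Agent.Helper21.RT

/-- digits -/
abbrev Dg := Bool × Bool × Bool

/-- sign of a bit -/
def sg (a : Bool) : ℝ := if a then 1 else -1

/-- odd integer between -7 and 7 attached to a digit -/
def qd (d : Dg) : ℝ := 4 * sg d.1 + 2 * sg d.2.1 + sg d.2.2

/-- the small scale of slopes -/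
def tau : ℝ := 1 / 1000

/-- the involution -/
def Tm (x : E) : E := ![x 2, x 1, x 0, 100 - x 4, 100 - x 3]

/-- the branch of the model map with digit `d` -/
def Fd (d : Dg) (x : E) : E :=
  ![100 * x 0 - 4 * qd d, 6 / 5 * x 1, 6 / 5 * x 2, x 3 / 100 + qd d / 8,
    9 / 10 * x 4 + sg d.1 / 2 + tau / 2 * (sg d.2.1 * (6 / 5 * x 1) + sg d.2.2 * (6 / 5 * x 2))]

/-- its inverse -/
def kap (d : Dg) (y : E) : E :=
  ![(y 0 + 4 * qd d) / 100, 5 / 6 * y 1, 5 / 6 * y 2, 100 * (y 3 - qd d / 8),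
    10 / 9 * (y 4 - sg d.1 / 2 - tau / 2 * (sg d.2.1 * y 1 + sg d.2.2 * y 2))]

/-- inverse of the exit branch -/
def kap0 (y : E) : E :=
  ![y 0 / 100, 5 / 6 * y 1, 5 / 6 * y 2, 100 * (y 3 - 50 - (y 2) ^ 2 / 2), 10 / 9 * (y 4 - 50)]

/-- open neighbourhood of the domain box of the branch `d` -/
def Vp (d : Dg) : Set E :=
  {x | |100 * x 0 - 4 * qd d| < 7 / 5 ∧ |x 1| < 6 / 5 ∧ |x 2| < 6 / 5 ∧ |x 3| < 11 / 5 ∧ |x 4| < 10}

/-- open neighbourhood of the image box of the branch `d` -/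
def Rp (d : Dg) : Set E :=
  {y | |y 0| < 4 / 3 ∧ |y 1| < 4 / 3 ∧ |y 2| < 4 / 3 ∧ |y 3 - qd d / 8| < 21 / 1000 ∧ |y 4| < 42 / 5}

/-- open neighbourhood of the exit region -/
def Rp0 : Set E :=
  {y | |y 0| < 1 / 500 ∧ |y 1| < 1 / 500 ∧ |y 2| < 1 / 500 ∧ |y 3 - 50| < 21 / 1000 ∧
    |y 4 - 50| < 21 / 1000}

/-- the box of the branch `d` -/
def Vd (d : Dg) : Set E :=
  {x | |100 * x 0 - 4 * qd d| ≤ 1 ∧ |x 1| ≤ 1 ∧ |x 2| ≤ 1 ∧ |x 3| ≤ 1 ∧ |x 4| ≤ 8}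

/-- the isolating neighbourhood -/
def VV : Set E := ⋃ d : Dg, Vd d

/-- the closed image box of the branch `d` -/
def Rd (d : Dg) : Set E :=
  {y | |y 0| ≤ 13 / 10 ∧ |y 1| ≤ 13 / 10 ∧ |y 2| ≤ 13 / 10 ∧ |y 3 - qd d / 8| ≤ 1 / 50 ∧
    |y 4| ≤ 41 / 5}

/-- the closed exit region -/
def R0 : Set E :=
  {y | |y 0| ≤ 1 / 1000 ∧ |y 1| ≤ 1 / 1000 ∧ |y 2| ≤ 1 / 1000 ∧ |y 3 - 50| ≤ 1 / 50 ∧
    |y 4 - 50| ≤ 1 / 50}

/-- a map is `η`-Lipschitz close to the diagonal linear map with entries `lam` -/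
def NearDiag {ι : Type*} [Fintype ι] (lam : ι → ℝ) (η : ℝ) (G : (ι → ℝ) → (ι → ℝ)) : Prop :=
  ∀ X X' c, |G X c - G X' c - lam c * (X c - X' c)| ≤ η * ‖X - X'‖

/-- rates of the backward map -/
def lamb : Fin 5 → ℝ := ![1 / 100, 5 / 6, 5 / 6, 100, 10 / 9]

/-- rates of the forward map -/
def lamf : Fin 5 → ℝ := ![100, 6 / 5, 6 / 5, 1 / 100, 9 / 10]

/-- rates of the backward map on slopes -/
def lamT : Fin 2 → Fin 3 → ℝ := ![![10000, 120, 120], ![1000 / 9, 4 / 3, 4 / 3]]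

/-- slopes: `2 × 3` matrices -/
abbrev Sl := Fin 2 → Fin 3 → ℝ

/-- membership of a vector in the graph of the slope `T` -/
def Graph (T : Sl) (v : E) : Prop :=
  v 3 = T 0 0 * v 0 + T 0 1 * v 1 + T 0 2 * v 2 ∧ v 4 = T 1 0 * v 0 + T 1 1 * v 1 + T 1 2 * v 2

/-- the linear model `(w, s) ↦ (A⁻¹ w, D⁻¹ (s - C w))` -/
def M0 (C : Sl) (v : E) : E :=
  ![v 0 / 100, 5 / 6 * v 1, 5 / 6 * v 2,
    100 * (v 3 - (C 0 0 * v 0 + C 0 1 * v 1 + C 0 2 * v 2)),
    10 / 9 * (v 4 - (C 1 0 * v 0 + C 1 1 * v 1 + C 1 2 * v 2))]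

/-- index set of lifted coordinates -/
abbrev IL := Fin 5 ⊕ (Fin 2 × Fin 3)

/-- rates on lifted coordinates -/
def lamL : IL → ℝ := Sum.elim lamb (fun p => lamT p.1 p.2)

/-- strong lifted coordinates -/
def stL : IL → Prop
  | Sum.inl c => c = 3
  | Sum.inr p => p.1 = 0 ∨ p.2 = 0

/-- weak lifted coordinates -/
def wkL : IL → Prop
  | Sum.inl c => c = 4
  | Sum.inr p => p.1 = 1 ∧ p.2 ≠ 0

instance : DecidablePred stL := fun c => by
  cases c <;> unfold stL <;> infer_instance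

instance : DecidablePred wkL := fun c => by
  cases c <;> unfold wkL <;> infer_instance

/-- offsets of the digit `d` in lifted coordinates -/
def bL (d : Dg) : IL → ℝ :=
  Sum.elim ![-(4 * qd d), 0, 0, qd d / 8, sg d.1 / 2]
    (fun p => (![![0, 0, 0], ![0, sg d.2.1 / 2, sg d.2.2 / 2]] : Fin 2 → Fin 3 → ℝ) p.1 p.2)

/-- rates: contracting coordinates at most 9/10, expanding ones at least 10/9 -/
structure Rates {ι : Type*} (lam : ι → ℝ) (ex : ι → Prop) : Prop where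
  con : ∀ c, ¬ ex c → 0 ≤ lam c ∧ lam c ≤ 9 / 10
  exp : ∀ c, ex c → 10 / 9 ≤ lam c

/-- systems to which the adaptive choice of digits applies -/
structure AdaptSys {ι D : Type*} [Fintype ι] (lam : ι → ℝ) (st wk : ι → Prop) (b : D → ι → ℝ)
    (G : D → (ι → ℝ) → (ι → ℝ)) : Prop where
  near : ∀ d, NearDiag lam (1 / 100) (G d)
  off : ∀ d X c, |G d X c - lam c * (X c - b d c)| ≤ 1 / 100
  lam_st : ∀ c, st c → 100 ≤ lam c
  lam_not : ∀ c, ¬ st c → 0 ≤ lam c ∧ lam c ≤ 4 / 3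
  b_st : ∀ d c, st c → |b d c| ≤ 7 / 8
  con : ∀ d c, ¬ st c → ¬ wk c → lam c * (1 + |b d c|) + 1 / 100 ≤ 1
  sgn : ∀ s : ι → Bool, ∃ d, ∀ c, wk c → b d c = sg (s c) / 2
  disj : ∀ c, ¬ (st c ∧ wk c)

/-- index set of the joint exit data: `inl 0 = u₀/τ`, `inl 1 = u₂/τ`, `inl 2 = x₃ - 50`,
`inl 3 = x₄ - 50`, `inr (r,c)` = slopes divided by `τ` -/
abbrev IZ := Fin 4 ⊕ (Fin 2 × Fin 3)

/-- linear model of the lifted exit map -/
def Ylin (z : IZ → ℝ) : IL → ℝ :=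
  Sum.elim ![tau * z (Sum.inl 0) / 100, 0, 5 / 6 * (tau * z (Sum.inl 1)), 100 * z (Sum.inl 2),
      10 / 9 * z (Sum.inl 3)]
    (fun p => lamT p.1 p.2 * (z (Sum.inr p) - if p = (0, 2) then z (Sum.inl 1) else 0))

/-- the exit data seen from the other side -/
def Jz (z : IZ → ℝ) : IZ → ℝ :=
  Sum.elim ![z (Sum.inl 1), z (Sum.inl 0), - z (Sum.inl 3), - z (Sum.inl 2)]
    (fun p => - z (Sum.inr (Fin.rev p.1, Fin.rev p.2)))

/-- strong coordinates on both sides -/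
def st2 : IL ⊕ IL → Prop := Sum.elim stL stL
/-- weak coordinates on both sides -/
def wk2 : IL ⊕ IL → Prop := Sum.elim wkL wkL

instance : DecidablePred st2 := fun c => by
  cases c <;> unfold st2 <;> simp only [Sum.elim_inl, Sum.elim_inr] <;> infer_instance

instance : DecidablePred wk2 := fun c => by
  cases c <;> unfold wk2 <;> simp only [Sum.elim_inl, Sum.elim_inr] <;> infer_instance

/-- the derivative of the involution -/
def TmL : E →ₗ[ℝ] E where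
  toFun v := ![v 2, v 1, v 0, - v 4, - v 3]
  map_add' v w := by ext i; fin_cases i <;> simp <;> ring
  map_smul' a v := by ext i; fin_cases i <;> simp

end Pool.Agent.Helper21.RT
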