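import Mathlib

/-!
Robust heterodimensional tangencies: definitions (MP_b79ae6_an, Q1).
-/

open Set Filter Topology
open scoped ContDiff

namespace Pool.Agent.Helper21.RT

/-- Euclidean five-space (all norms are equivalent, we use the sup norm). -/
abbrev E := Fin 5 → ℝ

/-- the maximal invariant set of the bijection `g` in `V` -/
def maxInv (g : Equiv.Perm E) (V : Set E) : Set E := {x | ∀ n : ℤ, (g ^ n) x ∈ V}

/-- topological transitivity of `g` on the invariant set `L` -/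
def IsTransitiveOn (g : Equiv.Perm E) (L : Set E) : Prop :=
  ∀ O O' : Set E, IsOpen O → IsOpen O' → (L ∩ O).Nonempty → (L ∩ O').Nonempty →
    ∃ n : ℕ, 0 < n ∧ ∃ x ∈ L ∩ O, (g ^ n) x ∈ O'

/-- `L` is a hyperbolic set of the diffeomorphism `g` whose stable bundle has dimension `m`. -/
def IsHyperbolicSet (g : Equiv.Perm E) (L : Set E) (m : ℕ) : Prop :=
  ∃ (Es Eu : E → Submodule ℝ E) (C θ : ℝ), 0 < C ∧ 0 ≤ θ ∧ θ < 1 ∧ ∀ x ∈ L,
    IsCompl (Es x) (Eu x) ∧ Module.finrank ℝ (Es x) = m ∧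
    (Es x).map (fderiv ℝ g x).toLinearMap = Es (g x) ∧
    (Eu x).map (fderiv ℝ g x).toLinearMap = Eu (g x) ∧
    (∀ v ∈ Es x, ∀ n : ℕ, ‖fderiv ℝ (⇑(g ^ n)) x v‖ ≤ C * θ ^ n * ‖v‖) ∧
    (∀ v ∈ Eu x, ∀ n : ℕ, ‖fderiv ℝ (⇑(g.symm ^ n)) x v‖ ≤ C * θ ^ n * ‖v‖)

/-- `V` isolates a transitive hyperbolic set of `g` of stable index `m` -/
def IsBasic (g : Equiv.Perm E) (V : Set E) (m : ℕ) : Prop :=
  (maxInv g V).Nonempty ∧ IsCompact (maxInv g V) ∧ maxInv g V ⊆ interior V ∧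
    IsTransitiveOn g (maxInv g V) ∧ IsHyperbolicSet g (maxInv g V) m

/-- `ψ` (defined near `0`) parametrises an immersed disc of class C¹ through `ψ 0 = Y`, of dimension `m`,
in the unstable manifold of `P`: the backward iterates of its points converge to those of `P`,
uniformly on the disc.  Its tangent space at `Y` is `A`. -/
def IsUnstableDisc (g : Equiv.Perm E) (P Y : E) {m : ℕ} (ψ : (Fin m → ℝ) → E) (A : Submodule ℝ E) :
    Prop :=
  ψ 0 = Y ∧ ∃ r : ℝ, 0 < r ∧ ContDiffOn ℝ 1 ψ (Metric.ball 0 r) ∧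
    Function.Injective (fderiv ℝ ψ 0) ∧ LinearMap.range (fderiv ℝ ψ 0).toLinearMap = A ∧
    TendstoUniformlyOn (fun (n : ℕ) v => dist ((g.symm ^ n) (ψ v)) ((g.symm ^ n) P)) 0 atTop
      (Metric.ball 0 r)

/-- the same for stable manifolds -/
def IsStableDisc (g : Equiv.Perm E) (P Y : E) {m : ℕ} (ψ : (Fin m → ℝ) → E) (A : Submodule ℝ E) :
    Prop := IsUnstableDisc g.symm P Y ψ A

/-- closeness of order two on the compact set `K` -/
def C2Close (K : Set E) (ε : ℝ) (g f : E → E) : Prop :=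
  ∀ j : ℕ, j ≤ 2 → ∀ x ∈ K, ‖iteratedFDeriv ℝ j (fun y => g y - f y) x‖ < ε

/-- there is a homeomorphism from the compact set `L` onto `L'` which conjugates `f` to `g` and moves
the points of `L` by at most `δ` -/
def IsConjClose (f g : Equiv.Perm E) (L L' : Set E) (δ : ℝ) : Prop :=
  ∃ h : E → E, ContinuousOn h L ∧ Set.BijOn h L L' ∧ ∀ x ∈ L, h (f x) = g (h x) ∧ ‖h x - x‖ ≤ δ

end Pool.Agent.Helper21.RT
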