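import Pool.Agent.Helper21.RT.Consts

/-!
RT-5 (MP_b79ae6_an): action of linear maps close to `M0 C` on graphs of slopes.
-/

open Set Filter Topology
open scoped ContDiff

noncomputable section

namespace Pool.Agent.Helper21.RT

namespace Lift

/-- the first three coordinates -/
def iU : Fin 3 → Fin 5 := ![0, 1, 2]

/-- the last two coordinates -/
def iS : Fin 2 → Fin 5 := ![3, 4]

/-- entries of `A⁻¹` -/
def aI : Fin 3 → ℝ := ![1 / 100, 5 / 6, 5 / 6]

/-- entries of `D⁻¹` -/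
def dI : Fin 2 → ℝ := ![100, 10 / 9]

/-- basis vectors of the graph of `T` -/
def gv (T : Sl) (j : Fin 3) : E :=
  ![if j = 0 then 1 else 0, if j = 1 then 1 else 0, if j = 2 then 1 else 0, T 0 j, T 1 j]

/-- the `u`-part of the image of the graph -/
def matP (N : E →L[ℝ] E) (T : Sl) : Matrix (Fin 3) (Fin 3) ℝ := fun i j => N (gv T j) (iU i)

/-- the `s`-part of the image of the graph -/
def matR (N : E →L[ℝ] E) (T : Sl) : Matrix (Fin 2) (Fin 3) ℝ := fun r j => N (gv T j) (iS r)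

/-- the image slope -/
def lift (N : E →L[ℝ] E) (T : Sl) : Sl := fun r c => (matR N T * (matP N T)⁻¹) r c

/-- the error of `N` on the graph -/
def err (N : E →L[ℝ] E) (C T : Sl) (k : Fin 5) (j : Fin 3) : ℝ :=
  N (gv T j) k - M0 C (gv T j) k

/-- the main term -/
def Lm (C T : Sl) (r : Fin 2) (c : Fin 3) : ℝ := lamT r c * (T r c - C r c)

theorem M0_gv_u (C T : Sl) (i j : Fin 3) :
    M0 C (gv T j) (iU i) = if i = j then aI j else 0 := by
  fin_cases i <;> fin_cases j <;> simp [M0, gv, iU, aI]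

theorem M0_gv_s (C T : Sl) (r : Fin 2) (j : Fin 3) :
    M0 C (gv T j) (iS r) = dI r * (T r j - C r j) := by
  fin_cases r <;> fin_cases j <;> simp [M0, gv, iS, dI]

theorem lamT_aI (r : Fin 2) (j : Fin 3) : lamT r j * aI j = dI r := by
  fin_cases r <;> fin_cases j <;> norm_num [lamT, aI, dI]

theorem norm_gv (T : Sl) (hT : ∀ r c, |T r c| ≤ 1) (j : Fin 3) : ‖gv T j‖ ≤ 1 := by
  rw [pi_norm_le_iff_of_nonneg zero_le_one]
  intro i
  fin_cases i
  · by_cases h : j = 0 <;> simp [gv, h]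
  · by_cases h : j = 1 <;> simp [gv, h]
  · by_cases h : j = 2 <;> simp [gv, h]
  · simpa [gv] using hT 0 j
  · simpa [gv] using hT 1 j

theorem norm_gv_sub (T T' : Sl) {δ : ℝ} (h0 : 0 ≤ δ) (hT : ∀ r c, |T r c - T' r c| ≤ δ)
    (j : Fin 3) : ‖gv T j - gv T' j‖ ≤ δ := by
  rw [pi_norm_le_iff_of_nonneg h0]
  intro i
  fin_cases i
  · simpa [gv] using h0
  · simpa [gv] using h0
  · simpa [gv] using h0
  · simpa [gv] using hT 0 j
  · simpa [gv] using hT 1 j

theorem M0_sub (C : Sl) (v w : E) : M0 C v - M0 C w = M0 C (v - w) := by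
  ext i
  fin_cases i <;> simp [M0] <;> ring

theorem abs_err_le {N : E →L[ℝ] E} {C T : Sl} {ε : ℝ} (h0 : 0 ≤ ε) (hT : ∀ r c, |T r c| ≤ 1)
    (hN : ∀ v, ‖N v - M0 C v‖ ≤ ε * ‖v‖) (k : Fin 5) (j : Fin 3) : |err N C T k j| ≤ ε := by
  have h1 : |err N C T k j| ≤ ‖N (gv T j) - M0 C (gv T j)‖ := by
    have := norm_le_pi_norm (N (gv T j) - M0 C (gv T j)) k
    simpa [err] using this
  have h2 := hN (gv T j)
  have h3 := norm_gv T hT j
  nlinarith

theorem abs_err_sub_le {N N' : E →L[ℝ] E} {C C' T T' : Sl} {ε δ : ℝ} (h0 : 0 ≤ ε) (hδ : 0 ≤ δ)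
    (hT : ∀ r c, |T r c| ≤ 1) (hTT : ∀ r c, |T r c - T' r c| ≤ δ)
    (hN' : ∀ v, ‖N' v - M0 C' v‖ ≤ ε * ‖v‖)
    (hNN : ∀ v, ‖(N v - M0 C v) - (N' v - M0 C' v)‖ ≤ ε * δ * ‖v‖) (k : Fin 5) (j : Fin 3) :
    |err N C T k j - err N' C' T' k j| ≤ 2 * ε * δ := by
  have h1 : |err N C T k j - err N' C' T' k j| ≤
      ‖(N (gv T j) - M0 C (gv T j)) - (N' (gv T' j) - M0 C' (gv T' j))‖ := by
    have := norm_le_pi_norm ((N (gv T j) - M0 C (gv T j)) - (N' (gv T' j) - M0 C' (gv T' j))) k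
    simpa [err] using this
  have h2 : (N (gv T j) - M0 C (gv T j)) - (N' (gv T' j) - M0 C' (gv T' j)) =
      ((N (gv T j) - M0 C (gv T j)) - (N' (gv T j) - M0 C' (gv T j))) +
        (N' (gv T j - gv T' j) - M0 C' (gv T j - gv T' j)) := by
    rw [← M0_sub, map_sub]
    abel
  have h3 := hNN (gv T j)
  have h4 := hN' (gv T j - gv T' j)
  have h5 := norm_gv T hT j
  have h6 := norm_gv_sub T T' hδ hTT j
  have h7 : ‖(N (gv T j) - M0 C (gv T j)) - (N' (gv T' j) - M0 C' (gv T' j))‖ ≤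
      ε * δ * ‖gv T j‖ + ε * ‖gv T j - gv T' j‖ := by
    rw [h2]
    exact (norm_add_le _ _).trans (add_le_add h3 h4)
  have h8 : ε * δ * ‖gv T j‖ ≤ ε * δ * 1 := mul_le_mul_of_nonneg_left h5 (mul_nonneg h0 hδ)
  have h9 : ε * ‖gv T j - gv T' j‖ ≤ ε * δ := mul_le_mul_of_nonneg_left h6 h0
  linarith

/-- solving `x P = y` for `P = diag aI + p`, `p` small -/
theorem row_solve {p : Fin 3 → Fin 3 → ℝ} {ε : ℝ} (hε0 : 0 ≤ ε) (hε : 600 * ε ≤ 1)
    (hp : ∀ i j, |p i j| ≤ ε) (x : Fin 3 → ℝ) {b : ℝ}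
    (hb : ∀ j, |x j * aI j + ∑ i, x i * p i j| ≤ b) : ∀ i, |x i| ≤ 200 * b := by
  have ha : ∀ j, 1 / 100 ≤ aI j := by
    intro j
    fin_cases j <;> norm_num [aI]
  have hx : ∀ i, |x i| ≤ ‖x‖ := fun i => by simpa using norm_le_pi_norm x i
  have hM : ‖x‖ ≤ 100 * (b + 3 * ε * ‖x‖) := by
    have hb0 : 0 ≤ b := (abs_nonneg _).trans (hb 0)
    rw [pi_norm_le_iff_of_nonneg (by positivity)]
    intro j
    have h1 : |∑ i, x i * p i j| ≤ 3 * ε * ‖x‖ := by
      calc |∑ i, x i * p i j| ≤ ∑ i, |x i * p i j| := Finset.abs_sum_le_sum_abs _ _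
        _ ≤ ∑ _i : Fin 3, ‖x‖ * ε := by
          refine Finset.sum_le_sum fun i _ => ?_
          rw [abs_mul]
          exact mul_le_mul (hx i) (hp i j) (abs_nonneg _) (norm_nonneg _)
        _ = 3 * ε * ‖x‖ := by
          rw [Finset.sum_const, Finset.card_univ, Fintype.card_fin]
          simp
          ring
    have h2 : |x j * aI j| ≤ b + 3 * ε * ‖x‖ := by
      have h3 := hb j
      have h4 : x j * aI j = (x j * aI j + ∑ i, x i * p i j) - ∑ i, x i * p i j := by ring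
      rw [h4]
      exact (abs_sub _ _).trans (add_le_add h3 h1)
    rw [abs_mul, abs_of_pos (lt_of_lt_of_le (by norm_num) (ha j))] at h2
    have h5 : |x j| * (1 / 100) ≤ |x j| * aI j := mul_le_mul_of_nonneg_left (ha j) (abs_nonneg _)
    rw [Real.norm_eq_abs]
    linarith
  intro i
  have h6 := hx i
  have h7 : 600 * ε * ‖x‖ ≤ 1 * ‖x‖ := mul_le_mul_of_nonneg_right hε (norm_nonneg _)
  nlinarith

theorem matP_eq (N : E →L[ℝ] E) (C T : Sl) (i j : Fin 3) :
    matP N T i j = (if i = j then aI j else 0) + err N C T (iU i) j := by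
  rw [err, M0_gv_u, matP]
  ring

theorem matR_eq (N : E →L[ℝ] E) (C T : Sl) (r : Fin 2) (j : Fin 3) :
    matR N T r j = dI r * (T r j - C r j) + err N C T (iS r) j := by
  rw [err, M0_gv_s, matR]
  ring

theorem vecMul_matP (N : E →L[ℝ] E) (C T : Sl) (x : Fin 3 → ℝ) (j : Fin 3) :
    ∑ i, x i * matP N T i j = x j * aI j + ∑ i, x i * err N C T (iU i) j := by
  have : ∀ i, x i * matP N T i j =
      (if i = j then x i * aI j else 0) + x i * err N C T (iU i) j := by
    intro i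
    rw [matP_eq N C T]
    split_ifs <;> ring
  simp_rw [this]
  rw [Finset.sum_add_distrib, Finset.sum_ite_eq' Finset.univ j]
  simp

theorem isUnit_matP {N : E →L[ℝ] E} {C T : Sl} {ε : ℝ} (hε0 : 0 ≤ ε) (hε : 600 * ε ≤ 1)
    (he : ∀ k j, |err N C T k j| ≤ ε) : IsUnit (matP N T).det := by
  rw [← Matrix.isUnit_iff_isUnit_det, ← Matrix.vecMul_injective_iff_isUnit]
  intro x y hxy
  have h1 : ∀ i, |(x - y) i| ≤ 200 * 0 := by
    refine row_solve (p := fun i j => err N C T (iU i) j) hε0 hε (fun i j => he _ _) (x - y) ?_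
    intro j
    rw [← vecMul_matP N C T (x - y) j]
    have h2 := congrFun hxy j
    simp only [Matrix.vecMul, dotProduct] at h2
    have h3 : ∑ i, (x - y) i * matP N T i j = 0 := by
      simp only [Pi.sub_apply, sub_mul, Finset.sum_sub_distrib]
      linarith
    rw [h3]
    simp
  ext i
  have h4 := h1 i
  simp only [Pi.sub_apply, mul_zero] at h4
  have h5 := abs_nonpos_iff.1 h4
  linarith

theorem lift_mul {N : E →L[ℝ] E} {T : Sl} (h : IsUnit (matP N T).det) (r : Fin 2) (j : Fin 3) :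
    ∑ i, lift N T r i * matP N T i j = matR N T r j := by
  have h1 : (matR N T * (matP N T)⁻¹) * matP N T = matR N T := by
    rw [Matrix.mul_assoc, Matrix.nonsing_inv_mul _ h, Matrix.mul_one]
  have h2 := congrFun (congrFun h1 r) j
  rw [Matrix.mul_apply] at h2
  exact h2

theorem W_eq {N : E →L[ℝ] E} {C T : Sl} (h : IsUnit (matP N T).det) (r : Fin 2) (j : Fin 3) :
    (lift N T r j - Lm C T r j) * aI j +
        ∑ i, (lift N T r i - Lm C T r i) * err N C T (iU i) j =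
      err N C T (iS r) j - ∑ i, Lm C T r i * err N C T (iU i) j := by
  have h1 := lift_mul h r j
  rw [vecMul_matP N C T, matR_eq N C T] at h1
  have h2 : Lm C T r j * aI j = dI r * (T r j - C r j) := by
    rw [Lm, ← lamT_aI r j]
    ring
  simp only [sub_mul, Finset.sum_sub_distrib]
  linarith

theorem abs_lamT_le (r : Fin 2) (c : Fin 3) : |lamT r c| ≤ 10000 := by
  fin_cases r <;> fin_cases c <;> norm_num [lamT, abs_of_pos]

theorem abs_Lm_le {C T : Sl} (hC : ∀ r c, |C r c| ≤ 1) (hT : ∀ r c, |T r c| ≤ 1) (r : Fin 2)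
    (c : Fin 3) : |Lm C T r c| ≤ 20000 := by
  rw [Lm, abs_mul]
  have h1 : |T r c - C r c| ≤ 2 := (abs_sub _ _).trans (by linarith [hC r c, hT r c])
  calc |lamT r c| * |T r c - C r c| ≤ 10000 * 2 :=
        mul_le_mul (abs_lamT_le r c) h1 (abs_nonneg _) (by norm_num)
    _ = 20000 := by norm_num

theorem abs_Lm_sub_le {C C' T T' : Sl} {δ : ℝ} (hC : ∀ r c, |C r c - C' r c| ≤ δ)
    (hT : ∀ r c, |T r c - T' r c| ≤ δ) (r : Fin 2) (c : Fin 3) :
    |Lm C T r c - Lm C' T' r c| ≤ 20000 * δ := by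
  have h1 : Lm C T r c - Lm C' T' r c = lamT r c * ((T r c - T' r c) - (C r c - C' r c)) := by
    rw [Lm, Lm]
    ring
  rw [h1, abs_mul]
  have h2 : |(T r c - T' r c) - (C r c - C' r c)| ≤ 2 * δ :=
    (abs_sub _ _).trans (by linarith [hC r c, hT r c])
  calc |lamT r c| * |(T r c - T' r c) - (C r c - C' r c)| ≤ 10000 * (2 * δ) :=
        mul_le_mul (abs_lamT_le r c) h2 (abs_nonneg _) (by norm_num)
    _ = 20000 * δ := by ring

theorem sum3_le {f : Fin 3 → ℝ} {b : ℝ} (h : ∀ i, |f i| ≤ b) : |∑ i, f i| ≤ 3 * b := by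
  calc |∑ i, f i| ≤ ∑ i, |f i| := Finset.abs_sum_le_sum_abs _ _
    _ ≤ ∑ _i : Fin 3, b := Finset.sum_le_sum fun i _ => h i
    _ = 3 * b := by
      rw [Finset.sum_const, Finset.card_univ, Fintype.card_fin]
      simp

/-- bound of the nonlinear part of the lift -/
theorem abs_W_le {N : E →L[ℝ] E} {C T : Sl} {ε : ℝ} (hε0 : 0 ≤ ε) (hε : 600 * ε ≤ 1)
    (hC : ∀ r c, |C r c| ≤ 1) (hT : ∀ r c, |T r c| ≤ 1)
    (hN : ∀ v, ‖N v - M0 C v‖ ≤ ε * ‖v‖) (r : Fin 2) (c : Fin 3) :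
    |lift N T r c - Lm C T r c| ≤ 20000000 * ε := by
  have he : ∀ k j, |err N C T k j| ≤ ε := abs_err_le hε0 hT hN
  have hu := isUnit_matP hε0 hε he
  have h1 := row_solve (p := fun i j => err N C T (iU i) j) hε0 hε (fun i j => he _ _)
    (fun i => lift N T r i - Lm C T r i) (b := 60001 * ε) (by
      intro j
      have h2 := W_eq (C := C) hu r j
      rw [h2]
      have h3 : |∑ i, Lm C T r i * err N C T (iU i) j| ≤ 3 * (20000 * ε) := by
        refine sum3_le fun i => ?_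
        rw [abs_mul]
        exact mul_le_mul (abs_Lm_le hC hT r i) (he _ _) (abs_nonneg _) (by norm_num)
      have h4 := he (iS r) j
      exact (abs_sub _ _).trans (by linarith)) c
  have h5 : |lift N T r c - Lm C T r c| ≤ 200 * (60001 * ε) := h1
  linarith

/-- Lipschitz bound of the nonlinear part of the lift -/
theorem abs_W_sub_le {N N' : E →L[ℝ] E} {C C' T T' : Sl} {ε δ : ℝ} (hε0 : 0 ≤ ε)
    (hε : 20000000 * ε ≤ 1) (hδ : 0 ≤ δ)
    (_hC : ∀ r c, |C r c| ≤ 1) (hT : ∀ r c, |T r c| ≤ 1)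
    (hC' : ∀ r c, |C' r c| ≤ 1) (hT' : ∀ r c, |T' r c| ≤ 1)
    (hN : ∀ v, ‖N v - M0 C v‖ ≤ ε * ‖v‖) (hN' : ∀ v, ‖N' v - M0 C' v‖ ≤ ε * ‖v‖)
    (hNN : ∀ v, ‖(N v - M0 C v) - (N' v - M0 C' v)‖ ≤ ε * δ * ‖v‖)
    (hCC : ∀ r c, |C r c - C' r c| ≤ δ) (hTT : ∀ r c, |T r c - T' r c| ≤ δ)
    (r : Fin 2) (c : Fin 3) :
    |(lift N T r c - Lm C T r c) - (lift N' T' r c - Lm C' T' r c)| ≤ 40000000 * ε * δ := by
  have hε2 : 600 * ε ≤ 1 := by linarith
  have he : ∀ k j, |err N C T k j| ≤ ε := abs_err_le hε0 hT hN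
  have he' : ∀ k j, |err N' C' T' k j| ≤ ε := abs_err_le hε0 hT' hN'
  have hee : ∀ k j, |err N C T k j - err N' C' T' k j| ≤ 2 * ε * δ :=
    abs_err_sub_le hε0 hδ hT hTT hN' hNN
  have hu := isUnit_matP hε0 hε2 he
  have hu' := isUnit_matP hε0 hε2 he'
  have hW' : ∀ c, |lift N' T' r c - Lm C' T' r c| ≤ 1 := fun c =>
    (abs_W_le hε0 hε2 hC' hT' hN' r c).trans hε
  have hεδ : 0 ≤ ε * δ := mul_nonneg hε0 hδ
  have h1 := row_solve (p := fun i j => err N C T (iU i) j) hε0 hε2 (fun i j => he _ _)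
    (fun i => (lift N T r i - Lm C T r i) - (lift N' T' r i - Lm C' T' r i))
    (b := 200000 * (ε * δ)) (by
      intro j
      have h2 := W_eq (C := C) hu r j
      have h2' := W_eq (C := C') hu' r j
      have h3 : ((lift N T r j - Lm C T r j) - (lift N' T' r j - Lm C' T' r j)) * aI j +
          ∑ i, ((lift N T r i - Lm C T r i) - (lift N' T' r i - Lm C' T' r i)) *
            err N C T (iU i) j =
          (err N C T (iS r) j - err N' C' T' (iS r) j) -
            ∑ i, (Lm C T r i - Lm C' T' r i) * err N C T (iU i) j -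
            ∑ i, Lm C' T' r i * (err N C T (iU i) j - err N' C' T' (iU i) j) -
            ∑ i, (lift N' T' r i - Lm C' T' r i) *
              (err N C T (iU i) j - err N' C' T' (iU i) j) := by
        simp only [sub_mul, mul_sub, Finset.sum_sub_distrib] at h2 h2' ⊢
        linarith
      rw [h3]
      have h4 : |∑ i, (Lm C T r i - Lm C' T' r i) * err N C T (iU i) j| ≤
          3 * (20000 * δ * ε) := by
        refine sum3_le fun i => ?_
        rw [abs_mul]
        exact mul_le_mul (abs_Lm_sub_le hCC hTT r i) (he _ _) (abs_nonneg _) (by positivity)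
      have h5 : |∑ i, Lm C' T' r i * (err N C T (iU i) j - err N' C' T' (iU i) j)| ≤
          3 * (20000 * (2 * ε * δ)) := by
        refine sum3_le fun i => ?_
        rw [abs_mul]
        exact mul_le_mul (abs_Lm_le hC' hT' r i) (hee _ _) (abs_nonneg _) (by norm_num)
      have h6 : |∑ i, (lift N' T' r i - Lm C' T' r i) *
          (err N C T (iU i) j - err N' C' T' (iU i) j)| ≤ 3 * (1 * (2 * ε * δ)) := by
        refine sum3_le fun i => ?_
        rw [abs_mul]
        exact mul_le_mul (hW' i) (hee _ _) (abs_nonneg _) (by norm_num)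
      have h7 := hee (iS r) j
      refine (abs_sub _ _).trans ?_
      refine (add_le_add_left ((abs_sub _ _).trans (add_le_add_left (abs_sub _ _) _)) _).trans ?_
      nlinarith) c
  have h8 : |(lift N T r c - Lm C T r c) - (lift N' T' r c - Lm C' T' r c)| ≤
      200 * (200000 * (ε * δ)) := h1
  linarith

/-- vectors of a graph are combinations of the basis vectors -/
theorem graph_eq_sum {T : Sl} {v : E} (h : Graph T v) :
    v = ∑ j, v (iU j) • gv T j := by
  obtain ⟨h3, h4⟩ := h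
  ext i
  rw [Fin.sum_univ_three]
  fin_cases i
  · simp [gv, iU]
  · simp [gv, iU]
  · simp [gv, iU]
  · simp [gv, iU, h3]
    ring
  · simp [gv, iU, h4]
    ring

theorem graph_lift {N : E →L[ℝ] E} {T : Sl} (h : IsUnit (matP N T).det) {v : E}
    (hv : Graph T v) : Graph (lift N T) (N v) := by
  have h1 : ∀ k, N v k = ∑ j, v (iU j) * N (gv T j) k := by
    intro k
    conv_lhs => rw [graph_eq_sum hv]
    rw [map_sum]
    simp
  have h2 : ∀ r : Fin 2, N v (iS r) = ∑ i, lift N T r i * N v (iU i) := by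
    intro r
    have h3 : N v (iS r) = ∑ j, v (iU j) * ∑ i, lift N T r i * matP N T i j := by
      rw [h1]
      refine Finset.sum_congr rfl fun j _ => ?_
      rw [lift_mul h r j, matR]
    rw [h3]
    simp_rw [Finset.mul_sum]
    rw [Finset.sum_comm]
    refine Finset.sum_congr rfl fun i _ => ?_
    rw [h1 (iU i), Finset.mul_sum]
    refine Finset.sum_congr rfl fun j _ => ?_
    rw [matP]
    ring
  constructor
  · have h4 := h2 0
    rw [Fin.sum_univ_three] at h4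
    simpa [iS, iU] using h4
  · have h4 := h2 1
    rw [Fin.sum_univ_three] at h4
    simpa [iS, iU] using h4

end Lift

open Lift

theorem lift_exists : ∃ Q : (E →L[ℝ] E) → Sl → Sl, ∀ η : ℝ, 0 < η → ∃ ε : ℝ, 0 < ε ∧
    (∀ (N : E →L[ℝ] E) (C T : Sl), (∀ r c, |C r c| ≤ 1) → (∀ r c, |T r c| ≤ 1) →
      (∀ v, ‖N v - M0 C v‖ ≤ ε * ‖v‖) →
      (∀ v, Graph T v → Graph (Q N T) (N v)) ∧
      ∀ r c, |Q N T r c - lamT r c * (T r c - C r c)| ≤ η) ∧
    (∀ (N N' : E →L[ℝ] E) (C C' T T' : Sl) (δ : ℝ), 0 ≤ δ →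
      (∀ r c, |C r c| ≤ 1) → (∀ r c, |T r c| ≤ 1) → (∀ r c, |C' r c| ≤ 1) → (∀ r c, |T' r c| ≤ 1) →
      (∀ v, ‖N v - M0 C v‖ ≤ ε * ‖v‖) → (∀ v, ‖N' v - M0 C' v‖ ≤ ε * ‖v‖) →
      (∀ v, ‖(N v - M0 C v) - (N' v - M0 C' v)‖ ≤ ε * δ * ‖v‖) →
      (∀ r c, |C r c - C' r c| ≤ δ) → (∀ r c, |T r c - T' r c| ≤ δ) →
      ∀ r c, |(Q N T r c - lamT r c * (T r c - C r c)) - (Q N' T' r c - lamT r c * (T' r c - C' r c))|
        ≤ η * δ) := by
  refine ⟨lift, fun η hη => ?_⟩
  refine ⟨min (1 / 20000000) (η / 40000000), lt_min (by norm_num) (by positivity), ?_, ?_⟩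
  · intro N C T hC hT hN
    set ε := min (1 / 20000000 : ℝ) (η / 40000000) with hεdef
    have hε0 : 0 ≤ ε := (lt_min (by norm_num) (by positivity)).le
    have hε1 : ε ≤ 1 / 20000000 := min_le_left _ _
    have hε2 : ε ≤ η / 40000000 := min_le_right _ _
    have hε3 : 600 * ε ≤ 1 := by linarith
    have he : ∀ k j, |err N C T k j| ≤ ε := abs_err_le hε0 hT hN
    have hu := isUnit_matP hε0 hε3 he
    refine ⟨fun v hv => graph_lift hu hv, fun r c => ?_⟩
    have h1 := abs_W_le hε0 hε3 hC hT hN r c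
    rw [Lm] at h1
    linarith
  · intro N N' C C' T T' δ hδ hC hT hC' hT' hN hN' hNN hCC hTT r c
    set ε := min (1 / 20000000 : ℝ) (η / 40000000) with hεdef
    have hε0 : 0 ≤ ε := (lt_min (by norm_num) (by positivity)).le
    have hε1 : ε ≤ 1 / 20000000 := min_le_left _ _
    have hε2 : ε ≤ η / 40000000 := min_le_right _ _
    have h1 := abs_W_sub_le hε0 (by linarith) hδ hC hT hC' hT' hN hN' hNN hCC hTT r c
    rw [Lm, Lm] at h1
    refine h1.trans ?_
    have h2 : 40000000 * ε ≤ η := by linarith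
    exact mul_le_mul_of_nonneg_right h2 hδ

end Pool.Agent.Helper21.RT
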