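import Pool.Agent.Helper21.RT.Consts

/-!
Quadratic estimate for the distance of a point to the invariant graph (MP_b79ae6_an, piece RT-6).
-/

open Set Filter Topology
open scoped ContDiff

noncomputable section

namespace Pool.Agent.Helper21.RT

/-- the defect of the vector `v` with respect to the graph of `T` -/
private def dfc (T : Sl) (r : Fin 2) (s : ℝ) (v : E) : ℝ :=
  s - (T r 0 * v 0 + T r 1 * v 1 + T r 2 * v 2)

private lemma dfc_le {T : Sl} (hT : ∀ r c, |T r c| ≤ 1 / 100) (r : Fin 2) (i : Fin 5) (v : E) (b : ℝ)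
    (hb : ∀ c, |v c| ≤ b) : |dfc T r (v i) v| ≤ 103 / 100 * b := by
  have hb0 : 0 ≤ b := le_trans (abs_nonneg _) (hb 0)
  have key : ∀ c : Fin 3, ∀ j : Fin 5, |T r c * v j| ≤ 1 / 100 * b := by
    intro c j
    rw [abs_mul]
    exact mul_le_mul (hT r c) (hb j) (abs_nonneg _) (by norm_num)
  have h0 := key 0 0
  have h1 := key 1 1
  have h2 := key 2 2
  have h3 := hb i
  unfold dfc
  rw [abs_le] at *
  constructor <;> linarith [h0.1, h0.2, h1.1, h1.2, h2.1, h2.2, h3.1, h3.2]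

private lemma sup_bound (a : ℕ → ℝ) (c B : ℝ) (hB : ∀ n, a n ≤ B)
    (h : ∀ n, a n ≤ 10 / 11 * (a (n + 1) + c)) (n : ℕ) : a n ≤ 10 * c := by
  have hbdd : BddAbove (Set.range a) := ⟨B, by rintro _ ⟨n, rfl⟩; exact hB n⟩
  have h1 : ∀ n, a n ≤ 10 / 11 * ((⨆ m, a m) + c) := by
    intro n
    have := le_ciSup hbdd (n + 1)
    linarith [h n]
  have h2 : (⨆ m, a m) ≤ 10 / 11 * ((⨆ m, a m) + c) := ciSup_le h1
  have h3 := le_ciSup hbdd n
  linarith

theorem quad_estimate (k' : ℕ → E →L[ℝ] E) (x y : ℕ → E) (T : ℕ → Sl) (L : ℝ) (hL : 0 ≤ L)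
    (hk : ∀ n, ‖(y (n + 1) - x (n + 1)) - k' n (y n - x n)‖ ≤ L * ‖y n - x n‖ ^ 2)
    (hN : ∀ n v c, |k' n v c - lamb c * v c| ≤ 1 / 100 * ‖v‖)
    (hT : ∀ n r c, |T n r c| ≤ 1 / 100)
    (hG : ∀ n v, Graph (T n) v → Graph (T (n + 1)) (k' n v))
    (hd : ∀ n, ‖y n - x n‖ ≤ ‖y 0 - x 0‖) (v : E) (hv : v = y 0 - x 0) :
    |v 3 - (T 0 0 0 * v 0 + T 0 0 1 * v 1 + T 0 0 2 * v 2)| ≤ 30 * L * ‖v‖ ^ 2 ∧
      |v 4 - (T 0 1 0 * v 0 + T 0 1 1 * v 1 + T 0 1 2 * v 2)| ≤ 30 * L * ‖v‖ ^ 2 := by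
  set δ : ℝ := ‖y 0 - x 0‖ with hδ
  have hδ0 : 0 ≤ δ := norm_nonneg _
  -- the defects
  set D : ℕ → E := fun n => y n - x n with hD
  set e3 : ℕ → ℝ := fun n => dfc (T n) 0 (D n 3) (D n) with he3
  set e4 : ℕ → ℝ := fun n => dfc (T n) 1 (D n 4) (D n) with he4
  have hcoord : ∀ (w : E) c, |w c| ≤ ‖w‖ := fun w c => by
    simpa [Real.norm_eq_abs] using norm_le_pi_norm w c
  have hDle : ∀ n, ‖D n‖ ≤ δ := hd
  have hbd : ∀ n, max |e3 n| |e4 n| ≤ 103 / 100 * δ := by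
    intro n
    refine max_le ?_ ?_
    · exact dfc_le (hT n) 0 3 (D n) δ (fun c => (hcoord _ c).trans (hDle n))
    · exact dfc_le (hT n) 1 4 (D n) δ (fun c => (hcoord _ c).trans (hDle n))
  have hstep : ∀ n, max |e3 n| |e4 n| ≤
      10 / 11 * (max |e3 (n + 1)| |e4 (n + 1)| + 103 / 100 * (L * δ ^ 2)) := by
    intro n
    set g : E := ![D n 0, D n 1, D n 2, T n 0 0 * D n 0 + T n 0 1 * D n 1 + T n 0 2 * D n 2,
      T n 1 0 * D n 0 + T n 1 1 * D n 1 + T n 1 2 * D n 2] with hg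
    set h : E := ![0, 0, 0, e3 n, e4 n] with hh
    have hsum : D n = g + h := by
      ext i
      fin_cases i <;> simp [hg, hh, he3, he4, dfc]
    have hgG : Graph (T n) g := by
      constructor <;> simp [hg]
    have hgG' := hG n g hgG
    set ρ : E := D (n + 1) - k' n (D n) with hρ
    have hρn : ∀ c, |ρ c| ≤ L * δ ^ 2 := by
      intro c
      refine (hcoord ρ c).trans ((hk n).trans ?_)
      have : ‖y n - x n‖ ^ 2 ≤ δ ^ 2 := pow_le_pow_left₀ (norm_nonneg _) (hd n) 2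
      exact mul_le_mul_of_nonneg_left this hL
    have hD1 : D (n + 1) = k' n g + k' n h + ρ := by
      have : k' n (D n) = k' n g + k' n h := by rw [← map_add, ← hsum]
      rw [← this, hρ]
      abel
    have hhn : ‖h‖ ≤ max |e3 n| |e4 n| := by
      rw [pi_norm_le_iff_of_nonneg (le_trans (abs_nonneg _) (le_max_left _ _))]
      intro i
      have hm : 0 ≤ max |e3 n| |e4 n| := le_trans (abs_nonneg _) (le_max_left _ _)
      fin_cases i
      · simpa [hh] using hm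
      · simpa [hh] using hm
      · simpa [hh] using hm
      · simp [hh]
      · simp [hh]
    set m : ℝ := max |e3 n| |e4 n| with hm
    have hm0 : 0 ≤ m := le_trans (abs_nonneg _) (le_max_left _ _)
    have hkh : ∀ c, |k' n h c - lamb c * h c| ≤ 1 / 100 * m := fun c =>
      (hN n h c).trans (mul_le_mul_of_nonneg_left hhn (by norm_num))
    -- the error vector
    set w : E := fun c => k' n h c - lamb c * h c with hw
    have e3' : e3 (n + 1) = 100 * e3 n + dfc (T (n + 1)) 0 (w 3) w +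
        dfc (T (n + 1)) 0 (ρ 3) ρ := by
      have h1 := hgG'.1
      simp only [he3, hD1, dfc, Pi.add_apply, hw] at *
      simp only [hh, lamb]
      simp
      linarith
    have e4' : e4 (n + 1) = 10 / 9 * e4 n + dfc (T (n + 1)) 1 (w 4) w +
        dfc (T (n + 1)) 1 (ρ 4) ρ := by
      have h1 := hgG'.2
      simp only [he4, hD1, dfc, Pi.add_apply, hw] at *
      simp only [hh, lamb]
      simp
      linarith
    have w3 := dfc_le (hT (n + 1)) 0 3 w (1 / 100 * m) hkh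
    have w4 := dfc_le (hT (n + 1)) 1 4 w (1 / 100 * m) hkh
    have r3 := dfc_le (hT (n + 1)) 0 3 ρ (L * δ ^ 2) hρn
    have r4 := dfc_le (hT (n + 1)) 1 4 ρ (L * δ ^ 2) hρn
    have t3 : 100 * |e3 n| ≤ |e3 (n + 1)| + 103 / 100 * (1 / 100 * m) + 103 / 100 * (L * δ ^ 2) := by
      have : 100 * e3 n = e3 (n + 1) - dfc (T (n + 1)) 0 (w 3) w - dfc (T (n + 1)) 0 (ρ 3) ρ := by
        linarith
      calc 100 * |e3 n| = |100 * e3 n| := by rw [abs_mul]; norm_num
        _ = |e3 (n + 1) - dfc (T (n + 1)) 0 (w 3) w - dfc (T (n + 1)) 0 (ρ 3) ρ| := by rw [this]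
        _ ≤ |e3 (n + 1) - dfc (T (n + 1)) 0 (w 3) w| + |dfc (T (n + 1)) 0 (ρ 3) ρ| := abs_sub _ _
        _ ≤ |e3 (n + 1)| + |dfc (T (n + 1)) 0 (w 3) w| + |dfc (T (n + 1)) 0 (ρ 3) ρ| := by
            linarith [abs_sub (e3 (n + 1)) (dfc (T (n + 1)) 0 (w 3) w)]
        _ ≤ _ := by linarith
    have t4 : 10 / 9 * |e4 n| ≤ |e4 (n + 1)| + 103 / 100 * (1 / 100 * m) +
        103 / 100 * (L * δ ^ 2) := by
      have : 10 / 9 * e4 n = e4 (n + 1) - dfc (T (n + 1)) 1 (w 4) w -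
          dfc (T (n + 1)) 1 (ρ 4) ρ := by
        linarith
      calc 10 / 9 * |e4 n| = |10 / 9 * e4 n| := by rw [abs_mul]; norm_num
        _ = |e4 (n + 1) - dfc (T (n + 1)) 1 (w 4) w - dfc (T (n + 1)) 1 (ρ 4) ρ| := by rw [this]
        _ ≤ |e4 (n + 1) - dfc (T (n + 1)) 1 (w 4) w| + |dfc (T (n + 1)) 1 (ρ 4) ρ| := abs_sub _ _
        _ ≤ |e4 (n + 1)| + |dfc (T (n + 1)) 1 (w 4) w| + |dfc (T (n + 1)) 1 (ρ 4) ρ| := by
            linarith [abs_sub (e4 (n + 1)) (dfc (T (n + 1)) 1 (w 4) w)]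
        _ ≤ _ := by linarith
    have m3 : |e3 (n + 1)| ≤ max |e3 (n + 1)| |e4 (n + 1)| := le_max_left _ _
    have m4 : |e4 (n + 1)| ≤ max |e3 (n + 1)| |e4 (n + 1)| := le_max_right _ _
    have hkey : 10 / 9 * m ≤ max |e3 (n + 1)| |e4 (n + 1)| + 103 / 100 * (1 / 100 * m) +
        103 / 100 * (L * δ ^ 2) := by
      rcases le_total |e3 n| |e4 n| with hle | hle
      · have hm' : m = |e4 n| := max_eq_right hle
        linarith
      · have hm' : m = |e3 n| := max_eq_left hle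
        have h0 := abs_nonneg (e3 n)
        linarith
    linarith
  have hfin := sup_bound (fun n => max |e3 n| |e4 n|) (103 / 100 * (L * δ ^ 2)) (103 / 100 * δ)
    hbd hstep 0
  have hLd : 0 ≤ L * δ ^ 2 := by positivity
  have hv' : ‖v‖ = δ := by rw [hv]
  have hvD : v = D 0 := hv
  rw [hv', hvD]
  have a3 : |e3 0| ≤ 30 * L * δ ^ 2 := by
    have := (le_max_left |e3 0| |e4 0|).trans hfin
    linarith
  have a4 : |e4 0| ≤ 30 * L * δ ^ 2 := by
    have := (le_max_right |e3 0| |e4 0|).trans hfin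
    linarith
  exact ⟨a3, a4⟩

end Pool.Agent.Helper21.RT
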