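import Pool.Agent.Helper21.RT.Coding
import Pool.Agent.Helper21.RT.Quad
import Pool.Agent.Helper21.RT.Lift

/-!
Unstable discs with prescribed digits.
-/

open Set Filter Topology
open scoped ContDiff

noncomputable section

namespace Pool.Agent.Helper21.RT

/-- parametrisation of the graph of a slope -/
def gm (T : Sl) : (Fin 3 → ℝ) →L[ℝ] E :=
  LinearMap.toContinuousLinearMap
    { toFun := fun w => ![w 0, w 1, w 2, T 0 0 * w 0 + T 0 1 * w 1 + T 0 2 * w 2,
        T 1 0 * w 0 + T 1 1 * w 1 + T 1 2 * w 2]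
      map_add' := by intro v w; ext i; fin_cases i <;> simp <;> ring
      map_smul' := by intro a v; ext i; fin_cases i <;> simp <;> ring }

theorem gm_apply (T : Sl) (w : Fin 3 → ℝ) : gm T w =
    ![w 0, w 1, w 2, T 0 0 * w 0 + T 0 1 * w 1 + T 0 2 * w 2,
        T 1 0 * w 0 + T 1 1 * w 1 + T 1 2 * w 2] := rfl

theorem gm_injective (T : Sl) : Function.Injective (gm T) := by
  intro v w h
  rw [gm_apply, gm_apply] at h
  have h0 := congrFun h 0
  have h1 := congrFun h 1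
  have h2 := congrFun h 2
  simp at h0 h1 h2
  ext i; fin_cases i
  · exact h0
  · exact h1
  · exact h2

theorem graph_gm (T : Sl) (w : Fin 3 → ℝ) : Graph T (gm T w) := by
  rw [gm_apply]; unfold Graph; constructor <;> simp

theorem graph_iff (T : Sl) (v : E) : Graph T v ↔ gm T (fun i => v ⟨i, by omega⟩) = v := by
  rw [gm_apply]
  unfold Graph
  constructor
  · rintro ⟨h3, h4⟩
    ext i; fin_cases i
    · simp
    · simp
    · simp
    · simp only [show (⟨3, by norm_num⟩ : Fin 5) = 3 from rfl]; rw [h3]; simp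
    · simp only [show (⟨4, by norm_num⟩ : Fin 5) = 4 from rfl]; rw [h4]; simp
  · intro h
    have h3 := congrFun h 3
    have h4 := congrFun h 4
    simp at h3 h4
    exact ⟨h3.symm, h4.symm⟩

/-- expanding lifted coordinates -/
def exL : IL → Prop := Sum.elim exB (fun _ => True)

theorem lamT_ge (r : Fin 2) (c : Fin 3) : 4 / 3 ≤ lamT r c := by
  fin_cases r <;> fin_cases c <;> simp [lamT] <;> norm_num

theorem rates_L : Rates lamL exL := by
  constructor
  · intro c hc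
    cases c with
    | inl c => exact rates_b.con c hc
    | inr p => exact absurd trivial hc
  · intro c hc
    cases c with
    | inl c => exact rates_b.exp c hc
    | inr p => have := lamT_ge p.1 p.2; simp only [lamL, Sum.elim_inr]; linarith

theorem bL_inr_abs (d : Dg) (p : Fin 2 × Fin 3) : |bL d (Sum.inr p)| ≤ 1 / 2 := by
  obtain ⟨r, c⟩ := p
  have h1 := sg_abs d.2.1
  have h2 := sg_abs d.2.2
  fin_cases r <;> fin_cases c <;> simp [bL, abs_div, h1, h2]

variable {g : Equiv.Perm E} {e : ℝ}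

theorem orbit_mem (hs : Side g e) (d : ℕ → Dg) (X : ℕ → E)
    (hX : ∀ n, X (n + 1) = Kb g.symm (d n) (X n)) (B : ℝ) (hB : ∀ n, ‖X n‖ ≤ B)
    (h0 : |X 0 0| ≤ 1) (h1 : |X 0 1| ≤ 1) (h2 : |X 0 2| ≤ 1) (n : ℕ) :
    X n ∈ Rd (d n) ∧ X (n + 1) = g.symm (X n) ∧ ‖X n‖ ≤ 8 := by
  have hst : ∀ n c, |X (n + 1) c - lamb c * (X n c - bB (d n) c)| ≤ 1 / 100 := by
    intro n c; rw [hX n]; exact (Kb_spec (hs.hk (d n)) hs.e1).2.1 (X n) c
  have hc : ∀ n, |X n 0| ≤ 1 ∧ |X n 1| ≤ 1 ∧ |X n 2| ≤ 1 := by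
    intro n
    induction n with
    | zero => exact ⟨h0, h1, h2⟩
    | succ n ih =>
      obtain ⟨i0, i1, i2⟩ := ih
      have q := qd_abs (d n)
      have s0 : |X (n + 1) 0 - 1 / 100 * (X n 0 + 4 * qd (d n))| ≤ 1 / 100 := by
        have := hst n 0; simpa [lamb, bB] using this
      have s1 : |X (n + 1) 1 - 5 / 6 * X n 1| ≤ 1 / 100 := by
        have := hst n 1; simpa [lamb, bB] using this
      have s2 : |X (n + 1) 2 - 5 / 6 * X n 2| ≤ 1 / 100 := by
        have := hst n 2; simpa [lamb, bB] using this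
      rw [abs_le] at *
      refine ⟨?_, ?_, ?_⟩
      · constructor <;> linarith [s0.1, s0.2, i0.1, i0.2, q.1, q.2]
      · rw [abs_le]; constructor <;> linarith [s1.1, s1.2, i1.1, i1.2]
      · rw [abs_le]; constructor <;> linarith [s2.1, s2.2, i2.1, i2.2]
  have hb := bound3 hs d X hX B hB
  have hR : X n ∈ Rd (d n) := ⟨(hc n).1.trans (by norm_num), (hc n).2.1.trans (by norm_num),
    (hc n).2.2.trans (by norm_num), (hb n).2.2.trans (by norm_num), (hb n).2.1.trans (by norm_num)⟩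
  refine ⟨hR, ?_, ?_⟩
  · rw [hX n]; exact (Kb_spec (hs.hk _) hs.e1).2.2 _ hR
  · rw [pi_norm_le_iff_of_nonneg (by norm_num)]
    intro i
    rw [Real.norm_eq_abs]
    fin_cases i
    · exact (hc n).1.trans (by norm_num)
    · exact (hc n).2.1.trans (by norm_num)
    · exact (hc n).2.2.trans (by norm_num)
    · exact (hb n).1.trans (by norm_num)
    · exact (hb n).2.1.trans (by norm_num)

variable {Q : (E →L[ℝ] E) → Sl → Sl} {ε : ℝ}

/-- base part of a lifted point -/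
def bs (X : IL → ℝ) : E := fun i => X (Sum.inl i)
/-- slope of a lifted point -/
def slp (X : IL → ℝ) : Sl := fun r c => tau * X (Sum.inr (r, c))

theorem bs_norm (X : IL → ℝ) : ‖bs X‖ ≤ ‖X‖ := by
  rw [pi_norm_le_iff_of_nonneg (norm_nonneg _)]
  intro i
  exact norm_le_pi_norm X (Sum.inl i)

theorem bs_orbit {d : ℕ → Dg} {X : ℕ → IL → ℝ} (hX : ∀ n, X (n + 1) = Kl Q g.symm (d n) (X n))
    (n : ℕ) : bs (X (n + 1)) = Kb g.symm (d n) (bs (X n)) := by
  rw [hX n]; exact Kl_inl Q g.symm (d n) (X n)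

theorem lifted_mem (hs : Side g e) (hQ : LiftQ Q ε) (he : e ≤ ε) (d : ℕ → Dg) (X : ℕ → IL → ℝ)
    (hX : ∀ n, X (n + 1) = Kl Q g.symm (d n) (X n)) (B : ℝ) (hB : ∀ n, ‖X n‖ ≤ B)
    (h0 : |X 0 (Sum.inl 0)| ≤ 1) (h1 : |X 0 (Sum.inl 1)| ≤ 1) (h2 : |X 0 (Sum.inl 2)| ≤ 1) (n : ℕ) :
    bs (X n) ∈ Rd (d n) ∧ bs (X (n + 1)) = g.symm (bs (X n)) ∧ ‖bs (X n)‖ ≤ 8 ∧
      (∀ r c, |slp (X n) r c| ≤ 1 / 100) ∧
      (∀ r c, slp (X (n + 1)) r c = Q (fderiv ℝ g.symm (bs (X n))) (slp (X n)) r c) := by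
  have hb := orbit_mem hs d (fun n => bs (X n)) (bs_orbit hX) B
    (fun n => (bs_norm (X n)).trans (hB n)) h0 h1 h2 n
  have hst : ∀ n c, |X (n + 1) c - lamL c * (X n c - bL (d n) c)| ≤ 1 / 100 := by
    intro n c; rw [hX n]; exact (Kl_spec hQ he hs.e0 hs.e1 (hs.hk (d n))).2.1 (X n) c
  have hsl : ∀ p, |X n (Sum.inr p)| ≤ 5 / 2 := by
    intro p
    have hl := lamT_ge p.1 p.2
    have := exp_bound (lam := lamT p.1 p.2) (β := 1 / 2) (η := 1 / 100) (by linarith)
      (fun n => X n (Sum.inr p)) (fun n => bL (d n) (Sum.inr p)) (fun n => bL_inr_abs _ _)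
      (fun n => hst n (Sum.inr p)) B (fun n => (norm_le_pi_norm (X n) _).trans (hB n)) n
    refine this.trans ?_
    rw [div_le_iff₀ (by linarith)]
    linarith
  have hbox : X n ∈ boxF (cL (d n)) rL := by
    intro i
    cases i with
    | inl i => have := hb.1; rw [Rd_eq] at this; exact this i
    | inr p =>
      have := hsl p
      simp only [cL, rL, Sum.elim_inr, sub_zero]; linarith
  refine ⟨hb.1, hb.2.1, hb.2.2, ?_, ?_⟩
  · intro r c
    unfold slp
    rw [abs_mul, abs_of_pos tau_pos]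
    have := hsl (r, c)
    unfold tau; linarith
  · intro r c
    unfold slp
    rw [hX n, (Kl_spec hQ he hs.e0 hs.e1 (hs.hk (d n))).2.2 _ hbox]
    simp only [Phi, Sum.elim_inr]
    have := tau_ne
    field_simp
    rfl

theorem quad_of_close {R : Set E} {m : E → E} {C : Sl} {k : E → E} (hR : Convex ℝ R)
    (hk : CloseOn R m (fun _ => C) k e) (he : 0 ≤ e) {x y : E} (hx : x ∈ R) (hy : y ∈ R) :
    ‖(k y - k x) - fderiv ℝ k x (y - x)‖ ≤ e * ‖y - x‖ ^ 2 := by
  have hconv : Convex ℝ (R ∩ Metric.closedBall x ‖y - x‖) := hR.inter (convex_closedBall _ _)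
  have := hconv.norm_image_sub_le_of_norm_hasFDerivWithin_le' (f := k) (f' := fun z => fderiv ℝ k z)
    (φ := fderiv ℝ k x) (C := e * ‖y - x‖) (x := x) (y := y)
    (fun z hz => (hk.dif z hz.1).hasFDerivWithinAt) ?_
    ⟨hx, Metric.mem_closedBall_self (norm_nonneg _)⟩ ⟨hy, by rw [mem_closedBall_iff_norm]⟩
  · calc _ ≤ e * ‖y - x‖ * ‖y - x‖ := this
      _ = _ := by ring
  · intro z hz
    refine ContinuousLinearMap.opNorm_le_bound _ (by positivity) fun v => ?_
    have h1 := hk.der2 z hz.1 x hx v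
    have e1 : fderiv ℝ k z v - M0 C v - (fderiv ℝ k x v - M0 C v) =
        (fderiv ℝ k z - fderiv ℝ k x) v := by
      rw [ContinuousLinearMap.sub_apply]; abel
    rw [e1] at h1
    refine h1.trans ?_
    have h2 : ‖z - x‖ ≤ ‖y - x‖ := by
      have := hz.2; rwa [mem_closedBall_iff_norm] at this
    exact mul_le_mul_of_nonneg_right (mul_le_mul_of_nonneg_left h2 he) (norm_nonneg _)

theorem convex_Rd (d : Dg) : Convex ℝ (Rd d) := by rw [Rd_eq]; exact convex_boxF _ _

/-- the lifted orbit with digits `d` over `u` -/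
theorem exists_lifted (hs : Side g e) (hQ : LiftQ Q ε) (he : e ≤ ε) (d : ℕ → Dg)
    (u : Fin 3 → ℝ) : ∃ X : ℕ → IL → ℝ, (X 0 (Sum.inl 0) = u 0 ∧ X 0 (Sum.inl 1) = u 1 ∧
      X 0 (Sum.inl 2) = u 2) ∧ (∀ n, X (n + 1) = Kl Q g.symm (d n) (X n)) ∧ ∃ B, ∀ n, ‖X n‖ ≤ B := by
  have hM : ∀ (d : Dg) c, |Kl Q g.symm d 0 c| ≤ 6000 := by
    intro d c
    cases c with
    | inl c =>
      have := Kb_zero hs d c
      have h2 : Kl Q g.symm d 0 (Sum.inl c) = Kb g.symm d 0 c := congrFun (Kl_inl Q g.symm d 0) c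
      rw [h2]; linarith
    | inr p =>
      have h := (Kl_spec hQ he hs.e0 hs.e1 (hs.hk d)).2.1 0 (Sum.inr p)
      have hl : 0 ≤ lamT p.1 p.2 := by have := lamT_ge p.1 p.2; linarith
      have hl2 : lamT p.1 p.2 ≤ 10000 := by
        obtain ⟨r, c⟩ := p
        fin_cases r <;> fin_cases c <;> simp [lamT] <;> norm_num
      have hb := bL_inr_abs d p
      have h4 : |lamL (Sum.inr p) * ((0 : IL → ℝ) (Sum.inr p) - bL d (Sum.inr p))| ≤ 5000 := by
        simp only [lamL, Sum.elim_inr, Pi.zero_apply, zero_sub]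
        rw [abs_mul, abs_of_nonneg hl, abs_neg]
        nlinarith [abs_nonneg (bL d (Sum.inr p))]
      have h5 := abs_sub_abs_le_abs_sub (Kl Q g.symm d 0 (Sum.inr p))
        (lamL (Sum.inr p) * ((0 : IL → ℝ) (Sum.inr p) - bL d (Sum.inr p)))
      linarith
  obtain ⟨X, h1, h2, h3⟩ := perron_exists rates_L (fun n => Kl Q g.symm (d n))
    (fun n => (Kl_spec hQ he hs.e0 hs.e1 (hs.hk _)).1) 6000 (fun n c => hM _ c)
    (Sum.elim ![u 0, u 1, u 2, 0, 0] (fun _ => 0))
  refine ⟨X, ⟨?_, ?_, ?_⟩, h2, h3⟩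
  · have := h1 (Sum.inl 0) (by simp [exL, exB]); simpa using this
  · have := h1 (Sum.inl 1) (by simp [exL, exB]); simpa using this
  · have := h1 (Sum.inl 2) (by simp [exL, exB]); simpa using this

theorem exL_not {c : IL} (hc : ¬ exL c) : c = Sum.inl 0 ∨ c = Sum.inl 1 ∨ c = Sum.inl 2 := by
  cases c with
  | inl c => fin_cases c <;> simp [exL, exB] at hc ⊢
  | inr p => exact absurd trivial hc

theorem exB_not {c : Fin 5} (hc : ¬ exB c) : c = 0 ∨ c = 1 ∨ c = 2 := by
  fin_cases c <;> simp [exB] at hc ⊢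

/-- Lipschitz dependence of lifted orbits -/
theorem lifted_lip (hs : Side g e) (hQ : LiftQ Q ε) (he : e ≤ ε) (d : ℕ → Dg) (X Y : ℕ → IL → ℝ)
    (hX : ∀ n, X (n + 1) = Kl Q g.symm (d n) (X n)) (hY : ∀ n, Y (n + 1) = Kl Q g.symm (d n) (Y n))
    (B : ℝ) (hB : ∀ n, ‖X n‖ ≤ B) (B' : ℝ) (hB' : ∀ n, ‖Y n‖ ≤ B') (δ : ℝ) (hδ : 0 ≤ δ)
    (h0 : |X 0 (Sum.inl 0) - Y 0 (Sum.inl 0)| ≤ δ) (h1 : |X 0 (Sum.inl 1) - Y 0 (Sum.inl 1)| ≤ δ)
    (h2 : |X 0 (Sum.inl 2) - Y 0 (Sum.inl 2)| ≤ δ) : ‖X 0 - Y 0‖ ≤ δ := by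
  refine (perron_unique rates_L (fun n => Kl Q g.symm (d n))
    (fun n => (Kl_spec hQ he hs.e0 hs.e1 (hs.hk _)).1) X Y hX hY (max B B')
    (fun n => (hB n).trans (le_max_left _ _)) (fun n => (hB' n).trans (le_max_right _ _))).1 δ hδ ?_
  intro c hc
  rcases exL_not hc with rfl | rfl | rfl
  · exact h0
  · exact h1
  · exact h2

theorem base_contract (hs : Side g e) (d : ℕ → Dg) (X Y : ℕ → E)
    (hX : ∀ n, X (n + 1) = Kb g.symm (d n) (X n)) (hY : ∀ n, Y (n + 1) = Kb g.symm (d n) (Y n))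
    (B : ℝ) (hB : ∀ n, ‖X n‖ ≤ B) (B' : ℝ) (hB' : ∀ n, ‖Y n‖ ≤ B') (n : ℕ) :
    ‖X n - Y n‖ ≤ (91 / 100) ^ n * ‖X 0 - Y 0‖ :=
  (perron_unique rates_b (fun n => Kb g.symm (d n))
    (fun n => (Kb_spec (hs.hk _) hs.e1).1) X Y hX hY (max B B')
    (fun n => (hB n).trans (le_max_left _ _)) (fun n => (hB' n).trans (le_max_right _ _))).2 n

/-- the unstable disc with prescribed digits -/
theorem disc (hs : Side g e) (hQ : LiftQ Q ε) (he : e ≤ ε) (d : ℕ → Dg) :
    ∃ (Φ : (Fin 3 → ℝ) → E) (T : (Fin 3 → ℝ) → Sl) (P : E), P ∈ maxInv g VV ∧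
      (∀ u ∈ Metric.ball (0 : Fin 3 → ℝ) 1, HasFDerivAt Φ (gm (T u)) u) ∧
      ContDiffOn ℝ 1 Φ (Metric.ball 0 1) ∧
      (∀ u ∈ Metric.ball (0 : Fin 3 → ℝ) 1, ∀ n : ℕ,
        ‖(g.symm ^ n) (Φ u) - (g.symm ^ n) P‖ ≤ (91 / 100) ^ n * 16) ∧
      (∀ (X : ℕ → IL → ℝ) (B : ℝ), (∀ n, X (n + 1) = Kl Q g.symm (d n) (X n)) → (∀ n, ‖X n‖ ≤ B) →
        bs (X 0) = Φ (fun i => X 0 (Sum.inl ⟨i, by omega⟩)) ∧
        slp (X 0) = T (fun i => X 0 (Sum.inl ⟨i, by omega⟩))) := by
  choose Xl hu hX B hB using exists_lifted hs hQ he d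
  -- coordinates of `u`
  have hun : ∀ u ∈ Metric.ball (0 : Fin 3 → ℝ) 1, |Xl u 0 (Sum.inl 0)| ≤ 1 ∧
      |Xl u 0 (Sum.inl 1)| ≤ 1 ∧ |Xl u 0 (Sum.inl 2)| ≤ 1 := by
    intro u hu'
    rw [mem_ball_zero_iff] at hu'
    have h : ∀ i, |u i| ≤ 1 := fun i => (norm_le_pi_norm u i).trans hu'.le
    rw [(hu u).1, (hu u).2.1, (hu u).2.2]
    exact ⟨h 0, h 1, h 2⟩
  have hmem : ∀ u ∈ Metric.ball (0 : Fin 3 → ℝ) 1, ∀ n, _ := fun u hu' n =>
    lifted_mem hs hQ he d (Xl u) (hX u) (B u) (hB u) (hun u hu').1 (hun u hu').2.1 (hun u hu').2.2 n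
  have hlip : ∀ u v, ‖Xl u 0 - Xl v 0‖ ≤ ‖u - v‖ := by
    intro u v
    refine lifted_lip hs hQ he d (Xl u) (Xl v) (hX u) (hX v) (B u) (hB u) (B v) (hB v) _
      (norm_nonneg _) ?_ ?_ ?_
    · rw [(hu u).1, (hu v).1]; exact norm_le_pi_norm (u - v) 0
    · rw [(hu u).2.1, (hu v).2.1]; exact norm_le_pi_norm (u - v) 1
    · rw [(hu u).2.2, (hu v).2.2]; exact norm_le_pi_norm (u - v) 2
  have hbl : ∀ u v, ‖bs (Xl u 0) - bs (Xl v 0)‖ ≤ ‖u - v‖ := fun u v =>
    (bs_norm (Xl u 0 - Xl v 0)).trans (hlip u v)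
  -- the quadratic estimate
  have hquad : ∀ u ∈ Metric.ball (0 : Fin 3 → ℝ) 1, ∀ v ∈ Metric.ball (0 : Fin 3 → ℝ) 1,
      ‖bs (Xl v 0) - bs (Xl u 0) - gm (slp (Xl u 0)) (v - u)‖ ≤ 30 * e * ‖v - u‖ ^ 2 := by
    intro u hu' v hv'
    have hcon : ∀ n, ‖bs (Xl v n) - bs (Xl u n)‖ ≤ ‖bs (Xl v 0) - bs (Xl u 0)‖ := by
      intro n
      refine (base_contract hs d (fun n => bs (Xl v n)) (fun n => bs (Xl u n)) (bs_orbit (hX v))
        (bs_orbit (hX u)) (B v) (fun n => (bs_norm _).trans (hB v n)) (B u)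
        (fun n => (bs_norm _).trans (hB u n)) n).trans ?_
      have h1 : ((91 : ℝ) / 100) ^ n ≤ 1 := pow_le_one₀ (by norm_num) (by norm_num)
      calc _ ≤ 1 * ‖bs (Xl v 0) - bs (Xl u 0)‖ := mul_le_mul_of_nonneg_right h1 (norm_nonneg _)
        _ = _ := one_mul _
    have hq := quad_estimate (fun n => fderiv ℝ g.symm (bs (Xl u n))) (fun n => bs (Xl u n))
      (fun n => bs (Xl v n)) (fun n => slp (Xl u n)) e hs.e0
      (fun n => by
        obtain ⟨a1, a2, a3, a4, a5⟩ := hmem u hu' n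
        obtain ⟨b1, b2, b3, b4, b5⟩ := hmem v hv' n
        rw [a2, b2]
        exact quad_of_close (convex_Rd (d n)) (hs.hk (d n)) hs.e0 a1 b1)
      (fun n w c => by
        obtain ⟨a1, a2, a3, a4, a5⟩ := hmem u hu' n
        have h1 := (hs.hk (d n)).der _ a1 w
        have h2 : |fderiv ℝ g.symm (bs (Xl u n)) w c - M0 (Cd (d n)) w c| ≤ e * ‖w‖ := by
          have := (norm_le_pi_norm (fderiv ℝ g.symm (bs (Xl u n)) w - M0 (Cd (d n)) w) c).trans h1
          simpa using this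
        have h3 : |M0 (Cd (d n)) w c - lamb c * w c| ≤ 1 / 500 * ‖w‖ := by
          have := kap_sub_lip (d n) w 0 c
          have e5 : (kap (d n) w c - lamb c * (w c - bB (d n) c)) -
              (kap (d n) 0 c - lamb c * ((0 : E) c - bB (d n) c)) =
              M0 (Cd (d n)) w c - lamb c * w c := by
            fin_cases c <;> simp [kap, M0, Cd, lamb, bB] <;> ring
          rw [e5, sub_zero] at this
          exact this
        calc |fderiv ℝ g.symm (bs (Xl u n)) w c - lamb c * w c|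
            = |(fderiv ℝ g.symm (bs (Xl u n)) w c - M0 (Cd (d n)) w c) +
                (M0 (Cd (d n)) w c - lamb c * w c)| := by ring_nf
          _ ≤ _ := (abs_add_le _ _).trans (by
              have := hs.e1
              have hn := norm_nonneg w
              nlinarith))
      (fun n r c => (hmem u hu' n).2.2.2.1 r c)
      (fun n w hw => by
        obtain ⟨a1, a2, a3, a4, a5⟩ := hmem u hu' n
        have h1 := (hQ.a (fderiv ℝ g.symm (bs (Xl u n))) (Cd (d n)) (slp (Xl u n)) (Cd_abs _)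
          (fun r c => (a4 r c).trans (by norm_num))
          (fun w => ((hs.hk (d n)).der _ a1 w).trans
            (mul_le_mul_of_nonneg_right he (norm_nonneg _)))).1 w hw
        have h2 : slp (Xl u (n + 1)) = Q (fderiv ℝ g.symm (bs (Xl u n))) (slp (Xl u n)) := by
          funext r c; exact a5 r c
        rw [h2]; exact h1)
      hcon (bs (Xl v 0) - bs (Xl u 0)) rfl
    have hb : ‖bs (Xl v 0) - bs (Xl u 0)‖ ≤ ‖v - u‖ := hbl v u
    have hb2 : 30 * e * ‖bs (Xl v 0) - bs (Xl u 0)‖ ^ 2 ≤ 30 * e * ‖v - u‖ ^ 2 :=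
      mul_le_mul_of_nonneg_left (pow_le_pow_left₀ (norm_nonneg _) hb 2)
        (mul_nonneg (by norm_num) hs.e0)
    have c0 : (bs (Xl v 0) - bs (Xl u 0)) 0 = v 0 - u 0 := by
      simp only [bs, Pi.sub_apply]; rw [(hu v).1, (hu u).1]
    have c1 : (bs (Xl v 0) - bs (Xl u 0)) 1 = v 1 - u 1 := by
      simp only [bs, Pi.sub_apply]; rw [(hu v).2.1, (hu u).2.1]
    have c2 : (bs (Xl v 0) - bs (Xl u 0)) 2 = v 2 - u 2 := by
      simp only [bs, Pi.sub_apply]; rw [(hu v).2.2, (hu u).2.2]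
    rw [c0, c1, c2] at hq
    have hnn : 0 ≤ 30 * e * ‖v - u‖ ^ 2 := mul_nonneg (mul_nonneg (by norm_num) hs.e0) (by positivity)
    rw [pi_norm_le_iff_of_nonneg hnn]
    intro i
    rw [Pi.sub_apply, gm_apply, Real.norm_eq_abs]
    fin_cases i
    · simp only [Fin.zero_eta, c0]; simpa using hnn
    · simp only [Fin.mk_one, c1]; simpa using hnn
    · simp only [Fin.reduceFinMk, c2]; simpa using hnn
    · exact hq.1.trans hb2
    · exact hq.2.trans hb2
  have hderiv : ∀ u ∈ Metric.ball (0 : Fin 3 → ℝ) 1,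
      HasFDerivAt (fun u => bs (Xl u 0)) (gm (slp (Xl u 0))) u := by
    intro u hu'
    have hO : (fun v => bs (Xl v 0) - bs (Xl u 0) - gm (slp (Xl u 0)) (v - u)) =O[𝓝 u]
        fun v => ‖v - u‖ ^ 2 := by
      refine Asymptotics.IsBigO.of_bound (30 * e) ?_
      filter_upwards [Metric.isOpen_ball.mem_nhds hu'] with v hv
      have := hquad u hu' v hv
      rw [Real.norm_of_nonneg (by positivity)]
      exact this
    have h1 := hO.hasFDerivAt (𝕜 := ℝ) (by norm_num)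
    have h2 : HasFDerivAt (fun v => gm (slp (Xl u 0)) (v - u) + bs (Xl u 0)) (gm (slp (Xl u 0))) u := by
      have hsub : HasFDerivAt (fun v : Fin 3 → ℝ => v - u) (ContinuousLinearMap.id ℝ _) u :=
        (hasFDerivAt_id u).sub_const u
      have := HasFDerivAt.comp (g := gm (slp (Xl u 0))) u (gm (slp (Xl u 0))).hasFDerivAt hsub
      exact this.add_const (bs (Xl u 0))
    have h3 := h1.add h2
    rw [zero_add] at h3
    refine h3.congr_of_eventuallyEq (Filter.Eventually.of_forall fun v => ?_)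
    simp only [Pi.add_apply]
    abel
  -- a point of the invariant set
  obtain ⟨P, hP⟩ := coding_exists hs (fun n : ℤ => d (n - 1).toNat)
  have hPm : P ∈ maxInv g VV := by
    intro n
    have := hP (-n)
    rw [neg_neg] at this
    exact Set.mem_iUnion.2 ⟨_, this⟩
  have hPn : ∀ n : ℕ, (g.symm ^ n) P = (g ^ (-(n : ℤ))) P := by
    intro n
    rw [zpow_neg, zpow_natCast, ← inv_pow]; rfl
  have hPo : ∀ n : ℕ, (g.symm ^ (n + 1)) P = Kb g.symm (d n) ((g.symm ^ n) P) := by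
    intro n
    have h1 := hP (n : ℤ)
    have h2 := hP ((n : ℤ) + 1)
    have e1 : ((n : ℤ) + 1 - 1).toNat = n := by simp
    simp only [e1] at h2
    rw [zpow_symm_apply] at h2
    have h3 := (Kb_spec (hs.hk (d n)) hs.e1).2.2 _ (mem_Rd_of hs h1 h2)
    rw [hPn, hPn, h3]
    push_cast
    rw [zpow_symm_apply]
  have hPb : ∀ n : ℕ, ‖(g.symm ^ n) P‖ ≤ 8 := by
    intro n; rw [hPn]; exact Vd_norm (hP n)
  refine ⟨fun u => bs (Xl u 0), fun u => slp (Xl u 0), P, hPm, hderiv, ?_, ?_, ?_⟩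
  · rw [show (1 : WithTop ℕ∞) = 0 + 1 from by norm_num, contDiffOn_succ_iff_fderiv_of_isOpen
      Metric.isOpen_ball]
    refine ⟨fun u hu' => (hderiv u hu').differentiableAt.differentiableWithinAt, by simp, ?_⟩
    rw [contDiffOn_zero]
    have hc : ContinuousOn (fun u => gm (slp (Xl u 0))) (Metric.ball (0 : Fin 3 → ℝ) 1) := by
      have hcX : Continuous (fun u => Xl u 0) := by
        refine LipschitzWith.continuous (K := 1) (LipschitzWith.of_dist_le_mul fun u v => ?_)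
        rw [dist_eq_norm, dist_eq_norm]; simpa using hlip u v
      have hcs : Continuous (fun u => slp (Xl u 0)) := by
        refine continuous_pi fun r => continuous_pi fun c => ?_
        exact continuous_const.mul ((continuous_apply _).comp hcX)
      have hcg : Continuous gm := by
        let L : Sl →ₗ[ℝ] ((Fin 3 → ℝ) →L[ℝ] E) :=
          { toFun := fun T => gm T - gm 0
            map_add' := by
              intro S T; ext w i
              simp only [ContinuousLinearMap.sub_apply, ContinuousLinearMap.add_apply, gm_apply]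
              fin_cases i <;> simp <;> ring
            map_smul' := by
              intro a T; ext w i
              simp only [ContinuousLinearMap.sub_apply, ContinuousLinearMap.smul_apply, gm_apply]
              fin_cases i <;> simp <;> ring }
        have hL : Continuous L := L.continuous_of_finiteDimensional
        have : gm = fun T => L T + gm 0 := by
          funext T
          change gm T = (gm T - gm 0) + gm 0
          abel
        rw [this]; exact hL.add continuous_const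
      exact (hcg.comp hcs).continuousOn
    exact hc.congr fun u hu' => (hderiv u hu').fderiv
  · intro u hu' n
    have hon : ∀ n : ℕ, (g.symm ^ n) (bs (Xl u 0)) = bs (Xl u n) := by
      intro n
      induction n with
      | zero => simp
      | succ n ih =>
        rw [pow_succ', Equiv.Perm.mul_apply, ih, (hmem u hu' n).2.1]
    have := base_contract hs d (fun n => bs (Xl u n)) (fun n => (g.symm ^ n) P) (bs_orbit (hX u))
      hPo (B u) (fun n => (bs_norm _).trans (hB u n)) 8 hPb n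
    rw [hon]
    refine this.trans (mul_le_mul_of_nonneg_left ?_ (by positivity))
    have h8 := (hmem u hu' 0).2.2.1
    have h9 := hPb 0
    calc _ ≤ ‖bs (Xl u 0)‖ + ‖(g.symm ^ 0) P‖ := norm_sub_le _ _
      _ ≤ 16 := by linarith
  · intro X B' hX' hB'
    have h0 : ‖X 0 - Xl (fun i => X 0 (Sum.inl ⟨i, by omega⟩)) 0‖ ≤ 0 := by
      refine lifted_lip hs hQ he d X (Xl _) hX' (hX _) B' hB' (B _) (hB _) 0 le_rfl ?_ ?_ ?_
      · rw [(hu _).1]; simp
      · rw [(hu _).2.1]; simp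
      · rw [(hu _).2.2]; simp
    have h1 : X 0 = Xl (fun i => X 0 (Sum.inl ⟨i, by omega⟩)) 0 := by
      rw [← sub_eq_zero, ← norm_le_zero_iff]; exact h0
    constructor
    · exact congrArg bs h1
    · exact congrArg slp h1

end Pool.Agent.Helper21.RT
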