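import Pool.Agent.Helper21.RT.Consts

set_option autoImplicit false

/-!
RT-4: the exit state (MP_b79ae6_an).
-/

open Set Filter Topology
open scoped ContDiff

noncomputable section

namespace Pool.Agent.Helper21.RT

/-- inverse of the linear part of the strong coordinates -/
def exInv (s : IL ⊕ IL → ℝ) : IZ → ℝ :=
  Sum.elim
    ![-(9 / 1000) * s (Sum.inl (Sum.inr (1, 0))) - s (Sum.inr (Sum.inr (0, 2))) / 120,
      -(9 / 1000) * s (Sum.inr (Sum.inr (1, 0))) - s (Sum.inl (Sum.inr (0, 2))) / 120,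
      s (Sum.inl (Sum.inl 3)) / 100,
      -(s (Sum.inr (Sum.inl 3)) / 100)]
    (fun p => (![![s (Sum.inl (Sum.inr (0, 0))) / 10000, s (Sum.inl (Sum.inr (0, 1))) / 120,
        -(9 / 1000) * s (Sum.inr (Sum.inr (1, 0)))],
      ![9 / 1000 * s (Sum.inl (Sum.inr (1, 0))), -(s (Sum.inr (Sum.inr (0, 1))) / 120),
        -(s (Sum.inr (Sum.inr (0, 0))) / 10000)]] : Fin 2 → Fin 3 → ℝ) p.1 p.2)

/-- linear part on both sides -/
def exLin (z : IZ → ℝ) : IL ⊕ IL → ℝ := Sum.elim (Ylin z) (Ylin (Jz z))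

theorem exLin_inv (s : IL ⊕ IL → ℝ) (c : IL ⊕ IL) (hc : st2 c) : exLin (exInv s) c = s c := by
  rcases c with (c | ⟨r, c⟩) | (c | ⟨r, c⟩)
  · have : c = 3 := hc
    subst this
    simp [exLin, exInv, Ylin]
    ring
  · have h : r = 0 ∨ c = 0 := hc
    fin_cases r <;> fin_cases c <;> simp_all [exLin, exInv, Ylin, lamT] <;> ring
  · have : c = 3 := hc
    subst this
    simp [exLin, exInv, Ylin, Jz]
    ring
  · have h : r = 0 ∨ c = 0 := hc
    fin_cases r <;> fin_cases c <;> simp_all [exLin, exInv, Ylin, lamT, Jz, Fin.rev] <;> ring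

theorem exLin_sub (z z' : IZ → ℝ) (δ : ℝ) (hδ : ∀ i, |z i - z' i| ≤ δ) (c : IL ⊕ IL)
    (hc : ¬ st2 c) : |exLin z c - exLin z' c| ≤ 4 / 3 * δ := by
  have h0 : 0 ≤ δ := le_trans (abs_nonneg _) (hδ (Sum.inl 0))
  have a0 := abs_le.1 (hδ (Sum.inl 0))
  have a1 := abs_le.1 (hδ (Sum.inl 1))
  have a2 := abs_le.1 (hδ (Sum.inl 2))
  have a3 := abs_le.1 (hδ (Sum.inl 3))
  have b0 := abs_le.1 (hδ (Sum.inr (0, 0)))
  have b1 := abs_le.1 (hδ (Sum.inr (0, 1)))
  have b2 := abs_le.1 (hδ (Sum.inr (0, 2)))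
  have c0 := abs_le.1 (hδ (Sum.inr (1, 0)))
  have c1 := abs_le.1 (hδ (Sum.inr (1, 1)))
  have c2 := abs_le.1 (hδ (Sum.inr (1, 2)))
  rw [abs_le]
  rcases c with (c | ⟨r, c⟩) | (c | ⟨r, c⟩)
  · have : c ≠ 3 := hc
    fin_cases c <;> simp_all [exLin, Ylin, tau] <;> constructor <;> linarith
  · have h : ¬ (r = 0 ∨ c = 0) := hc
    fin_cases r <;> fin_cases c <;> simp_all [exLin, Ylin, lamT] <;> constructor <;> linarith
  · have : c ≠ 3 := hc
    fin_cases c <;> simp_all [exLin, Ylin, tau, Jz] <;> constructor <;> linarith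
  · have h : ¬ (r = 0 ∨ c = 0) := hc
    fin_cases r <;> fin_cases c <;> simp_all [exLin, Ylin, lamT, Jz, Fin.rev] <;> constructor <;>
      linarith

theorem exInv_sub (s s' : IL ⊕ IL → ℝ) (δ : ℝ) (hδ : ∀ c, |s c - s' c| ≤ δ) (i : IZ) :
    |exInv s i - exInv s' i| ≤ 7 / 400 * δ := by
  have h0 : 0 ≤ δ := le_trans (abs_nonneg _) (hδ (Sum.inl (Sum.inl 0)))
  have a3 := abs_le.1 (hδ (Sum.inl (Sum.inl 3)))
  have b0 := abs_le.1 (hδ (Sum.inl (Sum.inr (0, 0))))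
  have b1 := abs_le.1 (hδ (Sum.inl (Sum.inr (0, 1))))
  have b2 := abs_le.1 (hδ (Sum.inl (Sum.inr (0, 2))))
  have c0 := abs_le.1 (hδ (Sum.inl (Sum.inr (1, 0))))
  have d3 := abs_le.1 (hδ (Sum.inr (Sum.inl 3)))
  have e0 := abs_le.1 (hδ (Sum.inr (Sum.inr (0, 0))))
  have e1 := abs_le.1 (hδ (Sum.inr (Sum.inr (0, 1))))
  have e2 := abs_le.1 (hδ (Sum.inr (Sum.inr (0, 2))))
  have f0 := abs_le.1 (hδ (Sum.inr (Sum.inr (1, 0))))
  rw [abs_le]
  rcases i with i | ⟨r, c⟩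
  · fin_cases i <;> simp [exInv] <;> constructor <;> linarith
  · fin_cases r <;> fin_cases c <;> simp [exInv] <;> constructor <;> linarith

theorem Jz_sub (z z' : IZ → ℝ) : ‖Jz z - Jz z'‖ ≤ ‖z - z'‖ := by
  rw [pi_norm_le_iff_of_nonneg (norm_nonneg _)]
  have key : ∀ i, |z i - z' i| ≤ ‖z - z'‖ := fun i => by
    simpa using norm_le_pi_norm (z - z') i
  intro i
  rcases i with i | ⟨r, c⟩
  · fin_cases i
    · simpa [Jz] using key (Sum.inl 1)
    · simpa [Jz] using key (Sum.inl 0)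
    · have := key (Sum.inl 3)
      rw [abs_sub_comm] at this
      simpa [Jz, neg_add_eq_sub] using this
    · have := key (Sum.inl 2)
      rw [abs_sub_comm] at this
      simpa [Jz, neg_add_eq_sub] using this
  · have := key (Sum.inr (Fin.rev r, Fin.rev c))
    rw [abs_sub_comm] at this
    simpa [Jz, neg_add_eq_sub] using this

theorem exit_state (H1 H2 : (IZ → ℝ) → (IL → ℝ))
    (h1 : ∀ z c, |H1 z c - Ylin z c| ≤ 1 / 100) (h2 : ∀ z c, |H2 z c - Ylin z c| ≤ 1 / 100)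
    (l1 : ∀ z z' c, |(H1 z c - Ylin z c) - (H1 z' c - Ylin z' c)| ≤ 1 / 100 * ‖z - z'‖)
    (l2 : ∀ z z' c, |(H2 z c - Ylin z c) - (H2 z' c - Ylin z' c)| ≤ 1 / 100 * ‖z - z'‖) :
    ∃ Z : ({c // st2 c} → ℝ) → (IZ → ℝ), (∀ σ, ‖σ‖ ≤ 1 → ‖Z σ‖ ≤ 1 / 50) ∧
      ∃ α : ({c // st2 c} → ℝ) → (IL ⊕ IL → ℝ),
        (∀ σ, α σ = Sum.elim (H1 (Z σ)) (H2 (Jz (Z σ)))) ∧
        (∀ σ c, α σ c.1 = σ c) ∧
        (∀ σ σ' c, ¬ st2 c → |α σ c - α σ' c| ≤ 1 / 10 * ‖σ - σ'‖) ∧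
        (∀ c, wk2 c → |α 0 c| ≤ 5 / 6) ∧
        (∀ σ, ‖σ‖ ≤ 1 → ∀ c, ¬ st2 c → ¬ wk2 c → |α σ c| ≤ 1) := by
  classical
  -- full map and perturbation
  set F : (IZ → ℝ) → (IL ⊕ IL → ℝ) := fun z => Sum.elim (H1 z) (H2 (Jz z)) with hF
  set P : (IZ → ℝ) → (IL ⊕ IL → ℝ) := fun z c => F z c - exLin z c with hP
  have hP1 : ∀ z c, |P z c| ≤ 1 / 100 := by
    intro z c
    rcases c with c | c
    · exact h1 z c
    · exact h2 (Jz z) c
  have hP2 : ∀ z z' c, |P z c - P z' c| ≤ 1 / 100 * ‖z - z'‖ := by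
    intro z z' c
    rcases c with c | c
    · exact l1 z z' c
    · refine (l2 (Jz z) (Jz z') c).trans ?_
      exact mul_le_mul_of_nonneg_left (Jz_sub z z') (by norm_num)
  -- extension of strong vectors
  set e : ({c // st2 c} → ℝ) → (IL ⊕ IL → ℝ) := fun σ c => if h : st2 c then σ ⟨c, h⟩ else 0
    with he
  have he1 : ∀ σ σ' c, |e σ c - e σ' c| ≤ ‖σ - σ'‖ := by
    intro σ σ' c
    by_cases h : st2 c
    · simp only [he, dif_pos h]
      simpa using norm_le_pi_norm (σ - σ') ⟨c, h⟩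
    · simp only [he, dif_neg h, sub_self, abs_zero]
      exact norm_nonneg _
  set Φ : ({c // st2 c} → ℝ) → (IZ → ℝ) → (IZ → ℝ) := fun σ z => exInv (fun c => e σ c - P z c)
    with hΦ
  have hΦ1 : ∀ σ σ' z z', ‖Φ σ z - Φ σ' z'‖ ≤ 7 / 400 * (‖σ - σ'‖ + 1 / 100 * ‖z - z'‖) := by
    intro σ σ' z z'
    rw [pi_norm_le_iff_of_nonneg (by positivity)]
    intro i
    rw [Pi.sub_apply, Real.norm_eq_abs]
    apply exInv_sub
    intro c
    have e1 : (e σ c - P z c) - (e σ' c - P z' c) = (e σ c - e σ' c) - (P z c - P z' c) := by ring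
    rw [e1]
    refine (abs_sub _ _).trans ?_
    exact add_le_add (he1 σ σ' c) (hP2 z z' c)
  have hcon : ∀ σ, ContractingWith (1 / 2) (Φ σ) := by
    intro σ
    refine ⟨by norm_num, LipschitzWith.of_dist_le_mul ?_⟩
    intro z z'
    rw [dist_eq_norm, dist_eq_norm]
    have := hΦ1 σ σ z z'
    rw [sub_self, norm_zero] at this
    have hn := norm_nonneg (z - z')
    push_cast
    norm_num at this ⊢
    linarith
  set Z : ({c // st2 c} → ℝ) → (IZ → ℝ) := fun σ => (hcon σ).fixedPoint (Φ σ) with hZ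
  have hfix : ∀ σ, Φ σ (Z σ) = Z σ := fun σ => (hcon σ).fixedPoint_isFixedPt
  have hZ1 : ∀ σ σ', ‖Z σ - Z σ'‖ ≤ 1 / 50 * ‖σ - σ'‖ := by
    intro σ σ'
    have := hΦ1 σ σ' (Z σ) (Z σ')
    rw [hfix, hfix] at this
    have hn := norm_nonneg (Z σ - Z σ')
    have hn' := norm_nonneg (σ - σ')
    linarith
  have hZ2 : ∀ σ, ‖σ‖ ≤ 1 → ‖Z σ‖ ≤ 1 / 50 := by
    intro σ hσ
    rw [← hfix σ, pi_norm_le_iff_of_nonneg (by positivity)]
    intro i
    have h3 := exInv_sub (fun c => e σ c - P (Z σ) c) (fun _ => 0) (1 + 1 / 100) ?_ i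
    · have h4 : exInv (fun _ => 0) i = 0 := by
        rcases i with i | ⟨r, c⟩
        · fin_cases i <;> simp [exInv]
        · fin_cases r <;> fin_cases c <;> simp [exInv]
      rw [h4, sub_zero] at h3
      rw [Real.norm_eq_abs]
      refine h3.trans (by norm_num)
    · intro c
      rw [sub_zero]
      refine (abs_sub _ _).trans ?_
      refine add_le_add ?_ (hP1 _ _)
      by_cases h : st2 c
      · simp only [he, dif_pos h]
        exact (by simpa using norm_le_pi_norm σ ⟨c, h⟩ : |σ ⟨c, h⟩| ≤ ‖σ‖).trans hσ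
      · simp [he, dif_neg h]
  have hZ0 : ‖Z 0‖ ≤ 1 / 50 := hZ2 0 (by simp)
  have hlin0 : ∀ c, exLin 0 c = 0 := by
    intro c
    rcases c with (c | ⟨r, c⟩) | (c | ⟨r, c⟩)
    · fin_cases c <;> simp [exLin, Ylin]
    · fin_cases r <;> fin_cases c <;> simp [exLin, Ylin]
    · fin_cases c <;> simp [exLin, Ylin, Jz]
    · fin_cases r <;> fin_cases c <;> simp [exLin, Ylin, Jz, Fin.rev]
  have hsmall : ∀ σ, ‖Z σ‖ ≤ 1 / 50 → ∀ c, ¬ st2 c → |F (Z σ) c| ≤ 5 / 6 := by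
    intro σ hσ c hc
    have e1 : F (Z σ) c = (exLin (Z σ) c - exLin 0 c) + P (Z σ) c := by
      simp only [hP, hlin0]
      ring
    rw [e1]
    refine (abs_add_le _ _).trans ?_
    have e2 := exLin_sub (Z σ) 0 (1 / 50) (fun i => by
      rw [Pi.zero_apply, sub_zero]
      exact (by simpa using norm_le_pi_norm (Z σ) i : |Z σ i| ≤ ‖Z σ‖).trans hσ) c hc
    have e3 := hP1 (Z σ) c
    linarith
  refine ⟨Z, hZ2, fun σ => F (Z σ), fun σ => rfl, ?_, ?_, ?_, ?_⟩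
  · rintro σ ⟨c, hc⟩
    have e1 := exLin_inv (fun c => e σ c - P (Z σ) c) c hc
    have e2 : exInv (fun c => e σ c - P (Z σ) c) = Z σ := hfix σ
    rw [e2] at e1
    simp only [hP, he, dif_pos hc] at e1
    show F (Z σ) c = σ ⟨c, hc⟩
    linarith
  · intro σ σ' c hc
    show |F (Z σ) c - F (Z σ') c| ≤ _
    have e1 : F (Z σ) c - F (Z σ') c
        = (exLin (Z σ) c - exLin (Z σ') c) + (P (Z σ) c - P (Z σ') c) := by
      simp only [hP]
      ring
    rw [e1]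
    refine (abs_add_le _ _).trans ?_
    have e2 := exLin_sub (Z σ) (Z σ') ‖Z σ - Z σ'‖ (fun i => by
      simpa using norm_le_pi_norm (Z σ - Z σ') i) c hc
    have e3 := hP2 (Z σ) (Z σ') c
    have e4 := hZ1 σ σ'
    have e5 := norm_nonneg (Z σ - Z σ')
    have e6 := norm_nonneg (σ - σ')
    linarith
  · intro c hc
    apply hsmall 0 hZ0 c
    intro hs
    rcases c with (c | ⟨r, c⟩) | (c | ⟨r, c⟩)
    · have a : c = 3 := hs
      have b : c = 4 := hc
      rw [a] at b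
      exact absurd b (by decide)
    · have a : r = 0 ∨ c = 0 := hs
      have b : r = 1 ∧ c ≠ 0 := hc
      rcases a with a | a
      · rw [a] at b
        exact absurd b.1 (by decide)
      · exact b.2 a
    · have a : c = 3 := hs
      have b : c = 4 := hc
      rw [a] at b
      exact absurd b (by decide)
    · have a : r = 0 ∨ c = 0 := hs
      have b : r = 1 ∧ c ≠ 0 := hc
      rcases a with a | a
      · rw [a] at b
        exact absurd b.1 (by decide)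
      · exact b.2 a
  · intro σ hσ c hc _
    exact (hsmall σ (hZ2 σ hσ) c hc).trans (by norm_num)

end Pool.Agent.Helper21.RT
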