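import Pool.Agent.Helper21.RT.ExitMap

/-!
The exit disc: image under `g` of the unstable disc.
-/

open Set Filter Topology
open scoped ContDiff

noncomputable section

namespace Pool.Agent.Helper21.RT

variable {Q : (E →L[ℝ] E) → Sl → Sl} {ε e : ℝ} {g : Equiv.Perm E}

theorem fderiv_symm_comp (hg : Differentiable ℝ g) (hg' : Differentiable ℝ g.symm) (y : E) :
    (fderiv ℝ g (g.symm y)).comp (fderiv ℝ g.symm y) = ContinuousLinearMap.id ℝ E := by
  have h1 := (hg (g.symm y)).hasFDerivAt.comp y (hg' y).hasFDerivAt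
  have h2 : (g : E → E) ∘ g.symm = id := by funext x; simp
  rw [h2] at h1
  exact h1.unique (hasFDerivAt_id y)

theorem fderiv_symm_comp' (hg : Differentiable ℝ g) (hg' : Differentiable ℝ g.symm) (y : E) :
    (fderiv ℝ g.symm y).comp (fderiv ℝ g (g.symm y)) = ContinuousLinearMap.id ℝ E := by
  have h3 : HasFDerivAt g.symm (fderiv ℝ g.symm y) (g (g.symm y)) := by
    rw [Equiv.apply_symm_apply]; exact (hg' y).hasFDerivAt
  have h1 := h3.comp (g.symm y) (hg (g.symm y)).hasFDerivAt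
  have h2 : (g.symm : E → E) ∘ g = id := by funext x; simp
  rw [h2] at h1
  exact h1.unique (hasFDerivAt_id _)

theorem exit_disc (hs : Side g e) (hQ : LiftQ Q ε) (he : e ≤ ε) {Φ : (Fin 3 → ℝ) → E}
    {T : (Fin 3 → ℝ) → Sl} {P : E}
    (hd : ∀ u ∈ Metric.ball (0 : Fin 3 → ℝ) 1, HasFDerivAt Φ (gm (T u)) u)
    (hC : ContDiffOn ℝ 1 Φ (Metric.ball 0 1))
    (hP : ∀ u ∈ Metric.ball (0 : Fin 3 → ℝ) 1, ∀ n : ℕ,
        ‖(g.symm ^ n) (Φ u) - (g.symm ^ n) P‖ ≤ (91 / 100) ^ n * 16)
    {u : Fin 3 → ℝ} (hu : u ∈ Metric.ball (0 : Fin 3 → ℝ) 1) {y : E} (hy : y ∈ R0)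
    (hyu : g.symm y = Φ u) {M : Sl} (hM : ∀ r c, |M r c| ≤ 1) (hT : T u = Q (fderiv ℝ g.symm y) M) :
    IsUnstableDisc g (g P) y (fun v => g (Φ (u + v))) (LinearMap.range (gm M).toLinearMap) := by
  have hgd : Differentiable ℝ g := hs.hg.differentiable (by norm_num)
  have hgd' : Differentiable ℝ g.symm := hs.hg'.differentiable (by norm_num)
  rw [mem_ball_zero_iff] at hu
  have hmem : ∀ v ∈ Metric.ball (0 : Fin 3 → ℝ) (1 - ‖u‖), u + v ∈ Metric.ball (0 : Fin 3 → ℝ) 1 := by
    intro v hv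
    rw [mem_ball_zero_iff] at hv ⊢
    calc ‖u + v‖ ≤ ‖u‖ + ‖v‖ := norm_add_le _ _
      _ < 1 := by linarith
  have hder : HasFDerivAt (fun v => g (Φ (u + v))) ((fderiv ℝ g (g.symm y)).comp (gm (T u))) 0 := by
    have h1 : HasFDerivAt (fun v : Fin 3 → ℝ => u + v) (ContinuousLinearMap.id ℝ _) 0 :=
      (hasFDerivAt_id (0 : Fin 3 → ℝ)).const_add u
    have h2 : HasFDerivAt Φ (gm (T u)) (u + 0) := by
      rw [add_zero]; exact hd u (by rw [mem_ball_zero_iff]; exact hu)
    have h3 := HasFDerivAt.comp (g := Φ) (0 : Fin 3 → ℝ) h2 h1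
    have h4 : HasFDerivAt g (fderiv ℝ g (g.symm y)) ((Φ ∘ fun v => u + v) 0) := by
      simp only [Function.comp, add_zero]; rw [← hyu]; exact (hgd _).hasFDerivAt
    have h5 := HasFDerivAt.comp (g := g) (0 : Fin 3 → ℝ) h4 h3
    rw [ContinuousLinearMap.comp_id] at h5
    exact h5
  have hinj : Function.Injective ((fderiv ℝ g (g.symm y)).comp (gm (T u))) := by
    intro v w hvw
    have := congrArg (fderiv ℝ g.symm y) hvw
    simp only [ContinuousLinearMap.comp_apply] at this
    have e1 := fderiv_symm_comp' hgd hgd' y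
    have e2 : ∀ w, fderiv ℝ g.symm y (fderiv ℝ g (g.symm y) w) = w := fun w => by
      have := congrArg (fun L => L w) e1; simpa using this
    rw [e2, e2] at this
    exact gm_injective _ this
  refine ⟨?_, 1 - ‖u‖, by linarith, ?_, ?_, ?_, ?_⟩
  · simp only [add_zero]; rw [← hyu]; simp
  · have h1 : ContDiffOn ℝ 1 (fun v => Φ (u + v)) (Metric.ball 0 (1 - ‖u‖)) :=
      hC.comp (contDiff_const.add contDiff_id).contDiffOn (fun v hv => hmem v hv)
    exact (hs.hg.of_le (by norm_num)).comp_contDiffOn h1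
  · rw [hder.fderiv]; exact hinj
  · rw [hder.fderiv]
    -- both ranges have dimension three
    have hgr : ∀ w : Fin 3 → ℝ, ∃ w' : Fin 3 → ℝ, fderiv ℝ g.symm y (gm M w) = gm (T u) w' := by
      intro w
      have h1 := (hQ.a (fderiv ℝ g.symm y) (C0 y) M (C0_abs hy) hM
        (fun v => (hs.hk0.der y hy v).trans (mul_le_mul_of_nonneg_right he (norm_nonneg _)))).1
        (gm M w) (graph_gm M w)
      rw [← hT, graph_iff] at h1
      exact ⟨_, h1.symm⟩
    have hsub : LinearMap.range (gm M).toLinearMap ≤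
        LinearMap.range ((fderiv ℝ g (g.symm y)).comp (gm (T u))).toLinearMap := by
      rintro _ ⟨w, rfl⟩
      obtain ⟨w', hw'⟩ := hgr w
      refine ⟨w', ?_⟩
      change fderiv ℝ g (g.symm y) (gm (T u) w') = gm M w
      rw [← hw']
      have e1 := fderiv_symm_comp hgd hgd' y
      have := congrArg (fun L => L (gm M w)) e1; simpa using this
    refine (Submodule.eq_of_le_of_finrank_eq hsub ?_).symm
    rw [LinearMap.finrank_range_of_inj (gm_injective M), LinearMap.finrank_range_of_inj hinj]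
  · rw [Metric.tendstoUniformlyOn_iff]
    intro δ hδ
    have h1 : Tendsto (fun n : ℕ => ((91 : ℝ) / 100) ^ n * 16) atTop (𝓝 0) := by
      have := (tendsto_pow_atTop_nhds_zero_of_lt_one (r := (91 : ℝ) / 100) (by norm_num)
        (by norm_num)).mul_const 16
      simpa using this
    have h2 := (h1.eventually (gt_mem_nhds hδ))
    obtain ⟨N, hN⟩ := Filter.eventually_atTop.1 h2
    filter_upwards [Filter.eventually_ge_atTop (N + 1)] with n hn v hv
    obtain ⟨m, rfl⟩ : ∃ m, n = m + 1 := ⟨n - 1, by omega⟩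
    have e1 : ∀ x, (g.symm ^ (m + 1)) (g x) = (g.symm ^ m) x := by
      intro x
      rw [pow_succ, Equiv.Perm.mul_apply]; simp
    have h3 := hP _ (hmem v hv) m
    have h4 := hN m (by omega)
    simp only [Pi.zero_apply]
    rw [e1, e1, dist_zero_left, Real.norm_of_nonneg dist_nonneg, dist_eq_norm]
    exact h3.trans_lt h4

/-- the involution exchanges the two sides at the exit data -/
theorem xz_Jz (z : IZ → ℝ) : xz (Jz z) = Tm (xz z) := by
  ext i; fin_cases i <;> simp [xz, Jz, Tm] <;> ring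

theorem range_gm (M : Sl) (v : E) : v ∈ LinearMap.range (gm M).toLinearMap ↔ Graph M v := by
  constructor
  · rintro ⟨w, rfl⟩; exact graph_gm M w
  · intro h; rw [graph_iff] at h; exact ⟨_, h⟩

theorem Tz_Jz (z : IZ → ℝ) : (LinearMap.range (gm (Tz (Jz z))).toLinearMap).map TmL =
    LinearMap.range (gm (Tz z)).toLinearMap := by
  have key : ∀ v, Graph (Tz (Jz z)) (TmL v) ↔ Graph (Tz z) v := by
    intro v
    unfold Graph
    simp only [Tz, Jz, TmL, LinearMap.coe_mk, AddHom.coe_mk, Sum.elim_inr, Matrix.cons_val,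
      Matrix.cons_val_zero, Matrix.cons_val_one]
    have r0 : Fin.rev (0 : Fin 2) = 1 := rfl
    have r1 : Fin.rev (1 : Fin 2) = 0 := rfl
    have s0 : Fin.rev (0 : Fin 3) = 2 := rfl
    have s1 : Fin.rev (1 : Fin 3) = 1 := rfl
    have s2 : Fin.rev (2 : Fin 3) = 0 := rfl
    rw [r0, r1, s0, s1, s2]
    constructor
    · rintro ⟨h1, h2⟩; constructor <;> linarith
    · rintro ⟨h1, h2⟩; constructor <;> linarith
  ext v
  rw [range_gm]
  constructor
  · rintro ⟨w, hw, rfl⟩
    have hw' : Graph (Tz (Jz z)) w := (range_gm _ _).1 hw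
    rw [← key, tTm w]; exact hw'
  · intro hv
    exact ⟨TmL v, (range_gm _ _).2 ((key v).2 hv), tTm v⟩
where
  tTm (v : E) : TmL (TmL v) = v := by ext i; fin_cases i <;> simp [TmL]

end Pool.Agent.Helper21.RT
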