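import Pool.Agent.Helper21.RT.Disc
import Pool.Agent.Helper21.RT.Adapt
import Pool.Agent.Helper21.RT.Exit

/-!
The lifted exit maps, the two-sided system and the joint bounded orbit.
-/

open Set Filter Topology
open scoped ContDiff

noncomputable section

namespace Pool.Agent.Helper21.RT

/-- position of the exit data -/
def xz (z : IZ → ℝ) : E :=
  ![tau * z (Sum.inl 0), 0, tau * z (Sum.inl 1), 50 + z (Sum.inl 2), 50 + z (Sum.inl 3)]

/-- slope of the exit data -/
def Tz (z : IZ → ℝ) : Sl := fun r c => tau * z (Sum.inr (r, c))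

/-- the lifted exit map -/
def PhiZ (Q : (E →L[ℝ] E) → Sl → Sl) (k : E → E) (z : IZ → ℝ) : IL → ℝ :=
  Sum.elim (k (xz z)) (fun p => Q (fderiv ℝ k (xz z)) (Tz z) p.1 p.2 / tau)

def zc (z : IZ → ℝ) : IZ → ℝ := clampF 0 (fun _ => 1 / 50) z

/-- global extension of the lifted exit map -/
def Hz (Q : (E →L[ℝ] E) → Sl → Sl) (k : E → E) (z : IZ → ℝ) : IL → ℝ :=
  fun i => Ylin z i + (PhiZ Q k (zc z) i - Ylin (zc z) i)

theorem zc_mem (z : IZ → ℝ) (i : IZ) : |zc z i| ≤ 1 / 50 := by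
  have := clampF_mem (c := (0 : IZ → ℝ)) (r := fun _ => 1 / 50) (fun _ => by norm_num) z i
  rwa [Pi.zero_apply, sub_zero] at this

theorem zc_eq {z : IZ → ℝ} (hz : ‖z‖ ≤ 1 / 50) : zc z = z := by
  apply clampF_eq
  intro i
  have := (norm_le_pi_norm z i).trans hz
  simpa using this

theorem xz_mem {z : IZ → ℝ} (hz : ∀ i, |z i| ≤ 1 / 50) : xz z ∈ R0 := by
  have h0 := hz (Sum.inl 0)
  have h1 := hz (Sum.inl 1)
  have h2 := hz (Sum.inl 2)
  have h3 := hz (Sum.inl 3)
  have ht : tau = 1 / 1000 := rfl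
  refine ⟨?_, ?_, ?_, ?_, ?_⟩
  · simp only [xz, Matrix.cons_val_zero, abs_mul, abs_of_pos tau_pos]; rw [ht]; linarith
  · simp [xz]
  · simp only [xz, Matrix.cons_val, abs_mul, abs_of_pos tau_pos]; rw [ht]; linarith
  · simp only [xz, Matrix.cons_val, add_sub_cancel_left]; exact h2
  · simp only [xz, Matrix.cons_val, add_sub_cancel_left]; exact h3

theorem xz_lip (z z' : IZ → ℝ) : ‖xz z - xz z'‖ ≤ ‖z - z'‖ := by
  have h : ∀ i, |z i - z' i| ≤ ‖z - z'‖ := fun i => norm_le_pi_norm (z - z') i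
  have hn := norm_nonneg (z - z')
  have ht : tau = 1 / 1000 := rfl
  rw [pi_norm_le_iff_of_nonneg hn]
  intro i
  rw [Real.norm_eq_abs, Pi.sub_apply]
  fin_cases i
  · simp only [xz, Fin.zero_eta, Matrix.cons_val_zero, ← mul_sub, abs_mul, abs_of_pos tau_pos]
    rw [ht]; have := h (Sum.inl 0); linarith
  · simp [xz]
  · simp only [xz, Fin.reduceFinMk, Matrix.cons_val, ← mul_sub, abs_mul, abs_of_pos tau_pos]
    rw [ht]; have := h (Sum.inl 1); linarith
  · simp only [xz, Fin.reduceFinMk, Matrix.cons_val, add_sub_add_left_eq_sub]; exact h _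
  · simp only [xz, Fin.reduceFinMk, Matrix.cons_val, add_sub_add_left_eq_sub]; exact h _

theorem C0_abs {x : E} (hx : x ∈ R0) (r : Fin 2) (c : Fin 3) : |C0 x r c| ≤ 1 := by
  have := hx.2.2.1
  fin_cases r <;> fin_cases c <;> simp [C0]
  linarith

theorem C0_xz (z : IZ → ℝ) (p : Fin 2 × Fin 3) :
    C0 (xz z) p.1 p.2 = tau * (if p = (0, 2) then z (Sum.inl 1) else 0) := by
  obtain ⟨r, c⟩ := p
  fin_cases r <;> fin_cases c <;> simp [C0, xz]

/-- base coordinates of the linear model of the exit map -/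
theorem kap0_xz (z : IZ → ℝ) (i : Fin 5) :
    kap0 (xz z) i - Ylin z (Sum.inl i) =
      if i = 3 then -(50 * (tau * z (Sum.inl 1)) ^ 2) else 0 := by
  fin_cases i <;> simp [kap0, xz, Ylin] <;> ring

variable {Q : (E →L[ℝ] E) → Sl → Sl} {ε e : ℝ} {g : Equiv.Perm E}

theorem PhiZ_est (hs : Side g e) (hQ : LiftQ Q ε) (he : e ≤ ε) :
    (∀ z : IZ → ℝ, (∀ i, |z i| ≤ 1 / 50) → ∀ c, |PhiZ Q g.symm z c - Ylin z c| ≤ 1 / 100) ∧
    (∀ z z' : IZ → ℝ, (∀ i, |z i| ≤ 1 / 50) → (∀ i, |z' i| ≤ 1 / 50) → ∀ c,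
      |(PhiZ Q g.symm z c - Ylin z c) - (PhiZ Q g.symm z' c - Ylin z' c)| ≤ 1 / 100 * ‖z - z'‖) := by
  have ht : tau = 1 / 1000 := rfl
  have he1 := hs.e1
  have he0 := hs.e0
  have hk := hs.hk0
  have hder : ∀ x ∈ R0, ∀ v, ‖fderiv ℝ g.symm x v - M0 (C0 x) v‖ ≤ ε * ‖v‖ := fun x hx v =>
    (hk.der x hx v).trans (mul_le_mul_of_nonneg_right he (norm_nonneg _))
  have hT : ∀ z : IZ → ℝ, (∀ i, |z i| ≤ 1 / 50) → ∀ r c, |Tz z r c| ≤ 1 := by
    intro z hz r c
    have := hz (Sum.inr (r, c))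
    simp only [Tz]
    rw [abs_mul, abs_of_pos tau_pos, ht]; linarith
  have key : ∀ z : IZ → ℝ, ∀ p : Fin 2 × Fin 3,
      PhiZ Q g.symm z (Sum.inr p) - Ylin z (Sum.inr p) =
      (Q (fderiv ℝ g.symm (xz z)) (Tz z) p.1 p.2 -
        lamT p.1 p.2 * (Tz z p.1 p.2 - C0 (xz z) p.1 p.2)) / tau := by
    intro z p
    rw [C0_xz]
    simp only [PhiZ, Ylin, Sum.elim_inr, Tz]
    have := tau_ne
    field_simp
  constructor
  · intro z hz c
    have hx := xz_mem hz
    cases c with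
    | inl i =>
      have h1 : |g.symm (xz z) i - kap0 (xz z) i| ≤ e := by
        have := (norm_le_pi_norm (g.symm (xz z) - kap0 (xz z)) i).trans (hk.val _ hx)
        simpa using this
      have h2 : |kap0 (xz z) i - Ylin z (Sum.inl i)| ≤ 1 / 1000 := by
        rw [kap0_xz]
        split_ifs
        · rw [abs_neg, abs_of_nonneg (by positivity), ht]
          have := hz (Sum.inl 1)
          have h3 : z (Sum.inl 1) ^ 2 ≤ 1 := by
            rw [sq_le_one_iff_abs_le_one]; linarith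
          nlinarith
        · norm_num
      calc |PhiZ Q g.symm z (Sum.inl i) - Ylin z (Sum.inl i)|
          = |(g.symm (xz z) i - kap0 (xz z) i) + (kap0 (xz z) i - Ylin z (Sum.inl i))| := by
            simp only [PhiZ, Sum.elim_inl]; ring_nf
        _ ≤ _ := (abs_add_le _ _).trans (by linarith)
    | inr p =>
      rw [key z p, abs_div, abs_of_pos tau_pos, div_le_iff₀ tau_pos]
      have := (hQ.a _ (C0 (xz z)) _ (C0_abs hx) (hT z hz) (hder _ hx)).2 p.1 p.2
      refine this.trans ?_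
      rw [ht]; norm_num
  · intro z z' hz hz' c
    have hx := xz_mem hz
    have hx' := xz_mem hz'
    have hn := norm_nonneg (z - z')
    have hzi : ∀ i, |z i - z' i| ≤ ‖z - z'‖ := fun i => norm_le_pi_norm (z - z') i
    cases c with
    | inl i =>
      have h1 : |(g.symm (xz z) i - kap0 (xz z) i) - (g.symm (xz z') i - kap0 (xz z') i)| ≤
          e * ‖z - z'‖ := by
        have := (norm_le_pi_norm ((g.symm (xz z) - kap0 (xz z)) -
          (g.symm (xz z') - kap0 (xz z'))) i).trans (hk.lip _ hx _ hx')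
        refine le_trans ?_ (this.trans (mul_le_mul_of_nonneg_left (xz_lip z z') he0))
        simp
      have h2 : |(kap0 (xz z) i - Ylin z (Sum.inl i)) - (kap0 (xz z') i - Ylin z' (Sum.inl i))| ≤
          1 / 1000 * ‖z - z'‖ := by
        rw [kap0_xz, kap0_xz]
        split_ifs
        · have e1 : -(50 * (tau * z (Sum.inl 1)) ^ 2) - -(50 * (tau * z' (Sum.inl 1)) ^ 2) =
              -(50 * tau ^ 2 * (z (Sum.inl 1) + z' (Sum.inl 1)) * (z (Sum.inl 1) - z' (Sum.inl 1))) := by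
            ring
          rw [e1, abs_neg, abs_mul]
          have h3 : |50 * tau ^ 2 * (z (Sum.inl 1) + z' (Sum.inl 1))| ≤ 1 / 1000 := by
            rw [abs_mul, abs_of_nonneg (by positivity), ht]
            have := abs_add_le (z (Sum.inl 1)) (z' (Sum.inl 1))
            have h4 := hz (Sum.inl 1)
            have h5 := hz' (Sum.inl 1)
            nlinarith
          exact mul_le_mul h3 (hzi _) (abs_nonneg _) (by norm_num)
        · simp only [sub_self, abs_zero]; positivity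
      calc |(PhiZ Q g.symm z (Sum.inl i) - Ylin z (Sum.inl i)) -
              (PhiZ Q g.symm z' (Sum.inl i) - Ylin z' (Sum.inl i))|
          = |((g.symm (xz z) i - kap0 (xz z) i) - (g.symm (xz z') i - kap0 (xz z') i)) +
              ((kap0 (xz z) i - Ylin z (Sum.inl i)) - (kap0 (xz z') i - Ylin z' (Sum.inl i)))| := by
            simp only [PhiZ, Sum.elim_inl]; ring_nf
        _ ≤ _ := (abs_add_le _ _).trans (by nlinarith)
    | inr p =>
      rw [key z p, key z' p, ← sub_div, abs_div, abs_of_pos tau_pos, div_le_iff₀ tau_pos]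
      have := hQ.b _ _ (C0 (xz z)) (C0 (xz z')) _ _ ‖z - z'‖ hn (C0_abs hx) (hT z hz) (C0_abs hx')
        (hT z' hz') (hder _ hx) (hder _ hx') ?_ ?_ ?_ p.1 p.2
      · refine this.trans ?_
        have ht' := tau_pos
        nlinarith
      · intro v
        refine (hk.der2 _ hx _ hx' v).trans ?_
        refine mul_le_mul_of_nonneg_right ?_ (norm_nonneg _)
        exact mul_le_mul he (xz_lip z z') (norm_nonneg _) (he0.trans he)
      · intro r c
        have e1 := C0_xz z (r, c)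
        have e2 := C0_xz z' (r, c)
        simp only at e1 e2
        rw [e1, e2]
        split_ifs
        · rw [← mul_sub, abs_mul, abs_of_pos tau_pos, ht]
          have := hzi (Sum.inl 1); linarith
        · simpa using hn
      · intro r c
        simp only [Tz]
        rw [← mul_sub, abs_mul, abs_of_pos tau_pos, ht]
        have := hzi (Sum.inr (r, c)); linarith

theorem Hz_est (hs : Side g e) (hQ : LiftQ Q ε) (he : e ≤ ε) :
    (∀ z c, |Hz Q g.symm z c - Ylin z c| ≤ 1 / 100) ∧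
    (∀ z z' c, |(Hz Q g.symm z c - Ylin z c) - (Hz Q g.symm z' c - Ylin z' c)| ≤
      1 / 100 * ‖z - z'‖) ∧
    ∀ z, ‖z‖ ≤ 1 / 50 → Hz Q g.symm z = PhiZ Q g.symm z := by
  obtain ⟨h1, h2⟩ := PhiZ_est hs hQ he
  refine ⟨?_, ?_, ?_⟩
  · intro z c
    have e1 : Hz Q g.symm z c - Ylin z c = PhiZ Q g.symm (zc z) c - Ylin (zc z) c := by
      unfold Hz; ring
    rw [e1]; exact h1 _ (zc_mem z) c
  · intro z z' c
    have e1 : ∀ z, Hz Q g.symm z c - Ylin z c = PhiZ Q g.symm (zc z) c - Ylin (zc z) c := by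
      intro z; unfold Hz; ring
    rw [e1, e1]
    exact (h2 _ _ (zc_mem z) (zc_mem z') c).trans
      (mul_le_mul_of_nonneg_left (clampF_lip _ _ z z') (by norm_num))
  · intro z hz
    funext c
    unfold Hz
    rw [zc_eq hz]; ring

theorem lamL_not {c : IL} (hc : ¬ stL c) : 0 ≤ lamL c ∧ lamL c ≤ 4 / 3 := by
  cases c with
  | inl c => fin_cases c <;> simp [stL, lamL, lamb] at hc ⊢ <;> norm_num
  | inr p =>
    obtain ⟨r, c⟩ := p
    fin_cases r <;> fin_cases c <;> simp [stL, lamL, lamT] at hc ⊢ <;> norm_num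

theorem lamL_st {c : IL} (hc : stL c) : 100 ≤ lamL c := by
  cases c with
  | inl c => fin_cases c <;> simp [stL, lamL, lamb] at hc ⊢
  | inr p =>
    obtain ⟨r, c⟩ := p
    fin_cases r <;> fin_cases c <;> simp [stL, lamL, lamT] at hc ⊢ <;> norm_num

theorem bL_st (d : Dg) {c : IL} (hc : stL c) : |bL d c| ≤ 7 / 8 := by
  cases c with
  | inl c =>
    have := qd_abs d
    fin_cases c <;> simp [stL, bL] at hc ⊢
    rw [abs_div]; norm_num; linarith
  | inr p =>
    obtain ⟨r, c⟩ := p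
    fin_cases r <;> fin_cases c <;> simp [stL, bL] at hc ⊢ <;> norm_num

theorem con_L (d : Dg) {c : IL} (hc : ¬ stL c) (hw : ¬ wkL c) :
    lamL c * (1 + |bL d c|) + 1 / 100 ≤ 1 := by
  cases c with
  | inl c =>
    have := qd_abs d
    fin_cases c
    · simp only [lamL, lamb, bL, Sum.elim_inl, Fin.zero_eta, Matrix.cons_val_zero, abs_neg, abs_mul]
      norm_num; linarith
    · simp [lamL, lamb, bL]; norm_num
    · simp [lamL, lamb, bL]; norm_num
    · exact absurd rfl hc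
    · exact absurd rfl hw
  | inr p =>
    obtain ⟨r, c⟩ := p
    fin_cases r <;> fin_cases c <;> simp [stL, wkL] at hc hw

/-- the digit with given signs of the weak offsets -/
theorem wk_L (s : IL → Bool) {c : IL} (hc : wkL c) :
    bL (s (Sum.inl 4), s (Sum.inr (1, 1)), s (Sum.inr (1, 2))) c = sg (s c) / 2 := by
  cases c with
  | inl c => fin_cases c <;> simp [wkL, bL] at hc ⊢
  | inr p =>
    obtain ⟨r, c⟩ := p
    fin_cases r <;> fin_cases c <;> simp [wkL, bL] at hc ⊢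

theorem disj_L (c : IL) : ¬ (stL c ∧ wkL c) := by
  cases c with
  | inl c => fin_cases c <;> simp [stL, wkL]
  | inr p =>
    obtain ⟨r, c⟩ := p
    fin_cases r <;> fin_cases c <;> simp [stL, wkL]

theorem norm_comp_inl (X X' : IL ⊕ IL → ℝ) :
    ‖(fun i => X (Sum.inl i)) - (fun i => X' (Sum.inl i))‖ ≤ ‖X - X'‖ := by
  rw [pi_norm_le_iff_of_nonneg (norm_nonneg _)]
  intro i
  exact norm_le_pi_norm (X - X') (Sum.inl i)

theorem norm_comp_inr (X X' : IL ⊕ IL → ℝ) :
    ‖(fun i => X (Sum.inr i)) - (fun i => X' (Sum.inr i))‖ ≤ ‖X - X'‖ := by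
  rw [pi_norm_le_iff_of_nonneg (norm_nonneg _)]
  intro i
  exact norm_le_pi_norm (X - X') (Sum.inr i)

/-- the two-sided system -/
def G2 (Q : (E →L[ℝ] E) → Sl → Sl) (k1 k2 : E → E) (d : Dg × Dg) (X : IL ⊕ IL → ℝ) :
    IL ⊕ IL → ℝ :=
  Sum.elim (Kl Q k1 d.1 (fun i => X (Sum.inl i))) (Kl Q k2 d.2 (fun i => X (Sum.inr i)))

variable {g2 : Equiv.Perm E}

theorem adaptSys2 (hs : Side g e) (hs2 : Side g2 e) (hQ : LiftQ Q ε) (he : e ≤ ε) :
    AdaptSys (Sum.elim lamL lamL) st2 wk2 (fun d : Dg × Dg => Sum.elim (bL d.1) (bL d.2))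
      (G2 Q g.symm g2.symm) := by
  refine ⟨?_, ?_, ?_, ?_, ?_, ?_, ?_, ?_⟩
  · intro d X X' c
    cases c with
    | inl c =>
      have := (Kl_spec hQ he hs.e0 hs.e1 (hs.hk d.1)).1 (fun i => X (Sum.inl i))
        (fun i => X' (Sum.inl i)) c
      exact this.trans (mul_le_mul_of_nonneg_left (norm_comp_inl X X') (by norm_num))
    | inr c =>
      have := (Kl_spec hQ he hs2.e0 hs2.e1 (hs2.hk d.2)).1 (fun i => X (Sum.inr i))
        (fun i => X' (Sum.inr i)) c
      exact this.trans (mul_le_mul_of_nonneg_left (norm_comp_inr X X') (by norm_num))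
  · intro d X c
    cases c with
    | inl c => exact (Kl_spec hQ he hs.e0 hs.e1 (hs.hk d.1)).2.1 (fun i => X (Sum.inl i)) c
    | inr c => exact (Kl_spec hQ he hs2.e0 hs2.e1 (hs2.hk d.2)).2.1 (fun i => X (Sum.inr i)) c
  · intro c hc
    cases c with
    | inl c => exact lamL_st hc
    | inr c => exact lamL_st hc
  · intro c hc
    cases c with
    | inl c => exact lamL_not hc
    | inr c => exact lamL_not hc
  · intro d c hc
    cases c with
    | inl c => exact bL_st d.1 hc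
    | inr c => exact bL_st d.2 hc
  · intro d c hc hw
    cases c with
    | inl c => exact con_L d.1 hc hw
    | inr c => exact con_L d.2 hc hw
  · intro s
    refine ⟨((s (Sum.inl (Sum.inl 4)), s (Sum.inl (Sum.inr (1, 1))), s (Sum.inl (Sum.inr (1, 2)))),
      (s (Sum.inr (Sum.inl 4)), s (Sum.inr (Sum.inr (1, 1))), s (Sum.inr (Sum.inr (1, 2))))), ?_⟩
    intro c hc
    cases c with
    | inl c => exact wk_L (fun i => s (Sum.inl i)) hc
    | inr c => exact wk_L (fun i => s (Sum.inr i)) hc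
  · intro c
    cases c with
    | inl c => exact disj_L c
    | inr c => exact disj_L c

theorem Jz_norm (z : IZ → ℝ) : ‖Jz z‖ ≤ ‖z‖ := by
  rw [pi_norm_le_iff_of_nonneg (norm_nonneg _)]
  intro i
  cases i with
  | inl i =>
    fin_cases i
    · exact norm_le_pi_norm z (Sum.inl 1)
    · exact norm_le_pi_norm z (Sum.inl 0)
    · simp only [Jz, Sum.elim_inl, Fin.reduceFinMk, Matrix.cons_val, norm_neg]
      exact norm_le_pi_norm z (Sum.inl 3)
    · simp only [Jz, Sum.elim_inl, Fin.reduceFinMk, Matrix.cons_val, norm_neg]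
      exact norm_le_pi_norm z (Sum.inl 2)
  | inr p =>
    simp only [Jz, Sum.elim_inr, norm_neg]
    exact norm_le_pi_norm z _

/-- the joint bounded orbit -/
theorem joint_orbit (hs : Side g e) (hs2 : Side g2 e) (hQ : LiftQ Q ε) (he : e ≤ ε) :
    ∃ (z : IZ → ℝ) (d1 d2 : ℕ → Dg) (X1 X2 : ℕ → IL → ℝ), ‖z‖ ≤ 1 / 50 ∧
      X1 0 = PhiZ Q g.symm z ∧ X2 0 = PhiZ Q g2.symm (Jz z) ∧
      (∀ n, X1 (n + 1) = Kl Q g.symm (d1 n) (X1 n)) ∧
      (∀ n, X2 (n + 1) = Kl Q g2.symm (d2 n) (X2 n)) ∧ (∀ n, ‖X1 n‖ ≤ 1) ∧ (∀ n, ‖X2 n‖ ≤ 1) := by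
  obtain ⟨a1, a2, a3⟩ := Hz_est hs hQ he
  obtain ⟨b1, b2, b3⟩ := Hz_est hs2 hQ he
  obtain ⟨Z, hZ, α, hα, c1, c2, c3, c4⟩ := exit_state (Hz Q g.symm) (Hz Q g2.symm) a1 b1 a2 b2
  obtain ⟨σ, d, X, hσ, hX0, hX, hXn⟩ := adapt (adaptSys2 hs hs2 hQ he) α c1 c2 c3 c4
  have hz := hZ σ hσ
  refine ⟨Z σ, fun n => (d n).1, fun n => (d n).2, fun n i => X n (Sum.inl i),
    fun n i => X n (Sum.inr i), hz, ?_, ?_, ?_, ?_, ?_, ?_⟩
  · rw [← a3 _ hz]
    funext i
    simp only
    rw [hX0, hα]; rfl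
  · rw [← b3 _ ((Jz_norm _).trans hz)]
    funext i
    simp only
    rw [hX0, hα]; rfl
  · intro n; funext i; exact congrFun (hX n) (Sum.inl i)
  · intro n; funext i; exact congrFun (hX n) (Sum.inr i)
  · intro n
    rw [pi_norm_le_iff_of_nonneg (by norm_num)]
    intro i; exact hXn n (Sum.inl i)
  · intro n
    rw [pi_norm_le_iff_of_nonneg (by norm_num)]
    intro i; exact hXn n (Sum.inr i)

end Pool.Agent.Helper21.RT
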