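import Pool.Agent.Helper21.RT.SideOf
import Pool.Agent.Helper21.RT.ConjT
import Pool.Agent.Helper21.RT.Conj

/-!
Assembly of the robust tangency.
-/

open Set Filter Topology
open scoped ContDiff

noncomputable section

namespace Pool.Agent.Helper21.RT

/-- the joint tangency -/
theorem joint_tangency {Q : (E →L[ℝ] E) → Sl → Sl} {ε e : ℝ} {g g2 : Equiv.Perm E}
    (hs : Side g e) (hs2 : Side g2 e) (hQ : LiftQ Q ε) (he : e ≤ ε)
    (h : ∀ x, g2 x = Tm (g.symm (Tm x))) :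
    ∃ (P R Y : E) (ψ φ : (Fin 3 → ℝ) → E) (A : Submodule ℝ E), P ∈ maxInv g VV ∧
      R ∈ maxInv g (Tm '' VV) ∧ IsUnstableDisc g P Y ψ A ∧ IsStableDisc g R Y φ A := by
  obtain ⟨z, d1, d2, X1, X2, hz, h10, h20, h1, h2, hb1, hb2⟩ := joint_orbit hs hs2 hQ he
  obtain ⟨Φ1, T1, P1, hP1, hd1, hC1, hc1, hu1⟩ := disc hs hQ he d1
  obtain ⟨Φ2, T2, P2, hP2, hd2, hC2, hc2, hu2⟩ := disc hs2 hQ he d2
  obtain ⟨a1, b1⟩ := hu1 X1 1 h1 hb1
  obtain ⟨a2, b2⟩ := hu2 X2 1 h2 hb2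
  have hzi : ∀ i, |z i| ≤ 1 / 50 := fun i => (norm_le_pi_norm z i).trans hz
  have hz' : ‖Jz z‖ ≤ 1 / 50 := (Jz_norm z).trans hz
  have hzi' : ∀ i, |Jz z i| ≤ 1 / 50 := fun i => (norm_le_pi_norm (Jz z) i).trans hz'
  have hy := xz_mem hzi
  have hy' := xz_mem hzi'
  have key : ∀ (w : IZ → ℝ) (hw : ∀ i, |w i| ≤ 1 / 50) (g : Equiv.Perm E) (hs : Side g e)
      (X : IL → ℝ) (hX : X = PhiZ Q g.symm w),
      (fun i : Fin 3 => X (Sum.inl ⟨i, by omega⟩)) ∈ Metric.ball (0 : Fin 3 → ℝ) 1 := by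
    intro w hw g hs X hX
    rw [mem_ball_zero_iff, pi_norm_lt_iff (by norm_num)]
    have h := (PhiZ_est hs hQ he).1 w hw
    have ht : tau = 1 / 1000 := rfl
    have w0 := hw (Sum.inl 0)
    have w1 := hw (Sum.inl 1)
    intro i
    rw [Real.norm_eq_abs, hX]
    fin_cases i
    · have h0 := h (Sum.inl 0)
      have e1 : Ylin w (Sum.inl 0) = tau * w (Sum.inl 0) / 100 := by simp [Ylin]
      rw [e1, ht] at h0
      change |PhiZ Q (⇑(Equiv.symm g)) w (Sum.inl 0)| < 1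
      rw [abs_le] at h0 w0; rw [abs_lt]; constructor <;> linarith [h0.1, h0.2, w0.1, w0.2]
    · have h0 := h (Sum.inl 1)
      have e1 : Ylin w (Sum.inl 1) = 0 := by simp [Ylin]
      rw [e1] at h0
      change |PhiZ Q (⇑(Equiv.symm g)) w (Sum.inl 1)| < 1
      rw [abs_le] at h0; rw [abs_lt]; constructor <;> linarith [h0.1, h0.2]
    · have h0 := h (Sum.inl 2)
      have e1 : Ylin w (Sum.inl 2) = 5 / 6 * (tau * w (Sum.inl 1)) := by simp [Ylin]
      rw [e1, ht] at h0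
      change |PhiZ Q (⇑(Equiv.symm g)) w (Sum.inl 2)| < 1
      rw [abs_le] at h0 w1; rw [abs_lt]; constructor <;> linarith [h0.1, h0.2, w1.1, w1.2]
  have slpPhi : ∀ (w : IZ → ℝ) (k : E → E), slp (PhiZ Q k w) = Q (fderiv ℝ k (xz w)) (Tz w) := by
    intro w k
    funext r c
    simp only [slp, PhiZ, Sum.elim_inr]
    have := tau_ne
    field_simp
  have hM : ∀ w : IZ → ℝ, (∀ i, |w i| ≤ 1 / 50) → ∀ r c, |Tz w r c| ≤ 1 := by
    intro w hw r c
    have := hw (Sum.inr (r, c))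
    have ht : tau = 1 / 1000 := rfl
    simp only [Tz]
    rw [abs_mul, abs_of_pos tau_pos, ht]; linarith
  have D1 := exit_disc hs hQ he hd1 hC1 hc1 (key z hzi g hs (X1 0) h10) hy
    (by rw [← a1, h10]; rfl) (M := Tz z) (hM z hzi) (by rw [← b1, h10, slpPhi])
  have D2 := exit_disc hs2 hQ he hd2 hC2 hc2 (key (Jz z) hzi' g2 hs2 (X2 0) h20) hy'
    (by rw [← a2, h20]; rfl) (M := Tz (Jz z)) (hM _ hzi') (by rw [← b2, h20, slpPhi])
  have D2' := stableDisc_transport g g2 h _ _ _ _ D2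
  rw [Tz_Jz, xz_Jz, tp_Tm_Tm] at D2'
  refine ⟨g P1, Tm (g2 P2), xz z, _, _, _, maxInv_apply hP1, ?_, D1, D2'⟩
  rw [maxInv_transport g g2 h]
  exact ⟨g2 P2, maxInv_apply hP2, rfl⟩

theorem disjoint_VV : Disjoint VV (Tm '' VV) := by
  rw [Set.disjoint_left]
  rintro x hx ⟨y, hy, rfl⟩
  obtain ⟨d, hd⟩ := Set.mem_iUnion.1 hx
  obtain ⟨d', hd'⟩ := Set.mem_iUnion.1 hy
  have h1 := hd.2.2.2.1
  have h2 := hd'.2.2.2.2
  have e1 : Tm y 3 = 100 - y 4 := by simp [Tm]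
  rw [e1, abs_le] at h1
  rw [abs_le] at h2
  linarith [h1.1, h1.2, h2.1, h2.2]

theorem robust : ∃ f : Equiv.Perm E, ContDiff ℝ ∞ f ∧ ContDiff ℝ ∞ f.symm ∧
    ∃ V W : Set E, IsCompact V ∧ IsCompact W ∧ Disjoint V W ∧ ∀ δ : ℝ, 0 < δ →
      ∃ (K : Set E) (ε : ℝ), IsCompact K ∧ 0 < ε ∧
      ∀ g : Equiv.Perm E, ContDiff ℝ 2 g → ContDiff ℝ 2 g.symm → C2Close K ε g f →
        IsBasic g V 2 ∧ IsBasic g W 3 ∧
        IsConjClose f g (maxInv f V) (maxInv g V) δ ∧ IsConjClose f g (maxInv f W) (maxInv g W) δ ∧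
        ∃ (P R Y : E) (ψ φ : (Fin 3 → ℝ) → E) (A : Submodule ℝ E), P ∈ maxInv g V ∧
          R ∈ maxInv g W ∧ IsUnstableDisc g P Y ψ A ∧ IsStableDisc g R Y φ A := by
  obtain ⟨f, hf, hf', hT, h1, h2, h3⟩ := exists_model
  obtain ⟨Q, hQ⟩ := lift_exists
  obtain ⟨ε, hε, hQa, hQb⟩ := hQ (tau / 200) (by unfold tau; norm_num)
  have hLQ : LiftQ Q ε := ⟨hQa, hQb⟩
  refine ⟨f, hf, hf', VV, Tm '' VV, isCompact_VV, isCompact_VV.image tp_continuous, disjoint_VV, ?_⟩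
  intro δ hδ
  set e := min ε (min (1 / 1000) (δ / 50)) with he
  have epos : 0 < e := lt_min hε (lt_min (by norm_num) (by positivity))
  obtain ⟨K1, ε1, hK1, hε1, hinv⟩ := c2close_symm f hf hf' (Metric.closedBall 0 200)
    (isCompact_closedBall 0 200) e epos
  refine ⟨K1 ∪ Metric.closedBall 0 200, min ε1 e,
    hK1.union (isCompact_closedBall 0 200), lt_min hε1 epos, ?_⟩
  intro g hg hg' hc
  have e0 : 0 ≤ e := epos.le
  have e1 : e ≤ 1 / 1000 := (min_le_right _ _).trans (min_le_left _ _)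
  have eε : e ≤ ε := min_le_left _ _
  have eδ : 50 * e ≤ δ := by
    have : e ≤ δ / 50 := (min_le_right _ _).trans (min_le_right _ _)
    linarith
  have c1 : C2Close K1 ε1 g f := fun j hj x hx =>
    (hc j hj x (Or.inl hx)).trans_le (min_le_left _ _)
  have c2 : C2Close (Metric.closedBall 0 200) e g f := fun j hj x hx =>
    (hc j hj x (Or.inr hx)).trans_le (min_le_right _ _)
  have c3 := hinv g hg hg' c1
  have hb : Metric.closedBall (0 : E) 100 ⊆ Metric.closedBall 0 200 :=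
    Metric.closedBall_subset_closedBall (by norm_num)
  have hs : Side g e := side_of_close e0 e1 hf hf' h1 h2 h3 hg hg' (fun j hj x hx => c2 j hj x (hb hx))
    (fun j hj x hx => c3 j hj x (hb hx))
  have h2i : (2 : WithTop ℕ∞) ≤ ∞ := by
    have : ((2 : ℕ∞) : WithTop ℕ∞) ≤ ((⊤ : ℕ∞) : WithTop ℕ∞) := WithTop.coe_le_coe.2 le_top
    exact this
  have hff : ∀ (K : Set E) (a : E → E), C2Close K e a a := by
    intro K a j hj x hx
    have : (fun y => a y - a y) = fun _ => (0 : E) := by funext y; simp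
    rw [this]
    have h0 : iteratedFDeriv ℝ j (fun _ : E => (0 : E)) x = 0 := by
      rw [iteratedFDeriv_fun_zero]; rfl
    rw [h0, norm_zero]; exact epos
  have hsf : Side f e := side_of_close e0 e1 hf hf' h1 h2 h3 (hf.of_le h2i) (hf'.of_le h2i)
    (hff _ _) (hff _ _)
  -- the other side
  let g2 : Equiv.Perm E := TmP * g⁻¹ * TmP⁻¹
  have hg2 : ∀ x, g2 x = Tm (g.symm (Tm x)) := fun x => rfl
  have hg2s : ∀ x, g2.symm x = Tm (g (Tm x)) := fun x => rfl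
  have hTc : ContDiff ℝ 2 Tm := by
    rw [tp_Tm_eq]; exact (TmC : E →L[ℝ] E).contDiff.add contDiff_const
  have k1 : ContDiff ℝ 2 g2 := by
    have : (g2 : E → E) = Tm ∘ g.symm ∘ Tm := funext hg2
    rw [this]; exact hTc.comp (hg'.comp hTc)
  have k2 : ContDiff ℝ 2 g2.symm := by
    have : (g2.symm : E → E) = Tm ∘ g ∘ Tm := funext hg2s
    rw [this]; exact hTc.comp (hg.comp hTc)
  have f1 : ∀ x, f x = Tm (f.symm (Tm x)) := by
    intro x
    rw [← hT, tp_Tm_Tm, tp_Tm_Tm]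
  have l1 : C2Close (Metric.closedBall 0 100) e g2 f := by
    have := c2close_conj (K' := Metric.closedBall 0 100) (fun x hx => Tm_ball hx) c3
    have e1 : (g2 : E → E) = fun x => Tm (g.symm (Tm x)) := funext hg2
    have e2 : (f : E → E) = fun x => Tm (f.symm (Tm x)) := funext f1
    rw [e1, e2]; exact this
  have l2 : C2Close (Metric.closedBall 0 100) e g2.symm f.symm := by
    have := c2close_conj (K' := Metric.closedBall 0 100) (fun x hx => Tm_ball hx) c2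
    have e1 : (g2.symm : E → E) = fun x => Tm (g (Tm x)) := funext hg2s
    have e2 : (f.symm : E → E) = fun x => Tm (f (Tm x)) := funext fun x => (hT x).symm
    rw [e1, e2]; exact this
  have hs2 : Side g2 e := side_of_close e0 e1 hf hf' h1 h2 h3 k1 k2 l1 l2
  have mono : ∀ {g : Equiv.Perm E} {L L' : Set E}, IsConjClose f g L L' (50 * e) →
      IsConjClose f g L L' δ := by
    rintro g L L' ⟨h, a, b, c⟩
    exact ⟨h, a, b, fun x hx => ⟨(c x hx).1, (c x hx).2.trans eδ⟩⟩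
  refine ⟨isBasic_VV hs, isBasic_transport g g2 hg2 hg hg' VV (isBasic_VV hs2),
    mono (conj_exists hsf hs), conj_transport f1 hg2 (mono (conj_exists hsf hs2)), ?_⟩
  exact joint_tangency hs hs2 hLQ eε hg2

end Pool.Agent.Helper21.RT
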