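import Pool.Agent.Helper21.RT.Consts

/-!
Hyperbolicity of invariant sets on which the derivatives are close to diagonal (MP_b79ae6_an, RT-7).
-/

open Set Filter Topology
open scoped ContDiff

noncomputable section

namespace Pool.Agent.Helper21.RT

/-- the statement of `perron_unique` (RT-2) for `Fin 5` -/
def PerronUniqueStmt : Prop := ∀ {lam : Fin 5 → ℝ} {ex : Fin 5 → Prop} (_ : Rates lam ex)
    (G : ℕ → (Fin 5 → ℝ) → (Fin 5 → ℝ)) (_ : ∀ n, NearDiag lam (1 / 100) (G n))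
    (X X' : ℕ → Fin 5 → ℝ) (_ : ∀ n, X (n + 1) = G n (X n)) (_ : ∀ n, X' (n + 1) = G n (X' n))
    (B : ℝ) (_ : ∀ n, ‖X n‖ ≤ B) (_ : ∀ n, ‖X' n‖ ≤ B),
    (∀ δ, 0 ≤ δ → (∀ c, ¬ ex c → |X 0 c - X' 0 c| ≤ δ) → ‖X 0 - X' 0‖ ≤ δ) ∧
      ∀ n, ‖X n - X' n‖ ≤ (91 / 100) ^ n * ‖X 0 - X' 0‖

/-- the statement of `perron_exists` (RT-2) for `Fin 5` -/
def PerronExistsStmt : Prop := ∀ {lam : Fin 5 → ℝ} {ex : Fin 5 → Prop} (_ : Rates lam ex)
    (G : ℕ → (Fin 5 → ℝ) → (Fin 5 → ℝ)) (_ : ∀ n, NearDiag lam (1 / 100) (G n))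
    (M : ℝ) (_ : ∀ n c, |G n 0 c| ≤ M) (x : Fin 5 → ℝ),
    ∃ X : ℕ → Fin 5 → ℝ, (∀ c, ¬ ex c → X 0 c = x c) ∧ (∀ n, X (n + 1) = G n (X n)) ∧
      ∃ B, ∀ n, ‖X n‖ ≤ B

namespace Hyp

lemma contDiff_pow {h : Equiv.Perm E} (hh : ContDiff ℝ 1 h) (n : ℕ) : ContDiff ℝ 1 ⇑(h ^ n) := by
  induction n with
  | zero => simpa using contDiff_id
  | succ n ih =>
    rw [pow_succ']
    exact hh.comp ih

lemma fderiv_pow_succ {h : Equiv.Perm E} (hh : ContDiff ℝ 1 h) (n : ℕ) (x v : E) :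
    fderiv ℝ ⇑(h ^ (n + 1)) x v = fderiv ℝ h ((h ^ n) x) (fderiv ℝ ⇑(h ^ n) x v) := by
  have e : (⇑(h ^ (n + 1)) : E → E) = ⇑h ∘ ⇑(h ^ n) := by rw [pow_succ']; rfl
  rw [e, fderiv_comp x (hh.differentiable (by norm_num) _)
    ((contDiff_pow hh n).differentiable (by norm_num) _)]
  rfl

lemma fderiv_pow_succ' {h : Equiv.Perm E} (hh : ContDiff ℝ 1 h) (n : ℕ) (x v : E) :
    fderiv ℝ ⇑(h ^ (n + 1)) x v = fderiv ℝ ⇑(h ^ n) (h x) (fderiv ℝ h x v) := by
  have e : (⇑(h ^ (n + 1)) : E → E) = ⇑(h ^ n) ∘ ⇑h := by rw [pow_succ]; rfl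
  rw [e, fderiv_comp x ((contDiff_pow hh n).differentiable (by norm_num) _)
    (hh.differentiable (by norm_num) _)]
  rfl

lemma fderiv_pow_zero (h : Equiv.Perm E) (x v : E) : fderiv ℝ ⇑(h ^ 0) x v = v := by
  have e : (⇑(h ^ 0) : E → E) = id := by rw [pow_zero]; rfl
  rw [e, fderiv_id]
  rfl

lemma fderiv_inv {h : Equiv.Perm E} (hh : ContDiff ℝ 1 h) (hh' : ContDiff ℝ 1 h.symm) (x v : E) :
    fderiv ℝ h.symm (h x) (fderiv ℝ h x v) = v := by
  have e : (⇑h.symm ∘ ⇑h : E → E) = id := by funext y; simp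
  have h1 := fderiv_comp x (g := ⇑h.symm) (f := ⇑h) (hh'.differentiable (by norm_num) _)
    (hh.differentiable (by norm_num) _)
  rw [e, fderiv_id] at h1
  have h2 := congrArg (fun T : E →L[ℝ] E => T v) h1
  exact h2.symm

/-- vectors with a bounded derivative orbit -/
def Bd (h : Equiv.Perm E) (x : E) : Submodule ℝ E where
  carrier := {v | ∃ B, ∀ n : ℕ, ‖fderiv ℝ ⇑(h ^ n) x v‖ ≤ B}
  zero_mem' := ⟨0, fun n => by simp⟩
  add_mem' := by
    rintro v w ⟨B, hB⟩ ⟨B', hB'⟩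
    refine ⟨B + B', fun n => ?_⟩
    rw [map_add]
    exact (norm_add_le _ _).trans (add_le_add (hB n) (hB' n))
  smul_mem' := by
    rintro a v ⟨B, hB⟩
    refine ⟨|a| * B, fun n => ?_⟩
    rw [map_smul, norm_smul, Real.norm_eq_abs]
    exact mul_le_mul_of_nonneg_left (hB n) (abs_nonneg _)

lemma mem_Bd {h : Equiv.Perm E} {x v : E} :
    v ∈ Bd h x ↔ ∃ B, ∀ n : ℕ, ‖fderiv ℝ ⇑(h ^ n) x v‖ ≤ B := Iff.rfl

lemma Bd_step {h : Equiv.Perm E} (hh : ContDiff ℝ 1 h) {x v : E} :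
    v ∈ Bd h x ↔ fderiv ℝ h x v ∈ Bd h (h x) := by
  rw [mem_Bd, mem_Bd]
  constructor
  · rintro ⟨B, hB⟩
    refine ⟨B, fun n => ?_⟩
    rw [← fderiv_pow_succ' hh]
    exact hB _
  · rintro ⟨B, hB⟩
    refine ⟨max B ‖v‖, fun n => ?_⟩
    rcases n with _ | n
    · rw [fderiv_pow_zero]
      exact le_max_right _ _
    · rw [fderiv_pow_succ' hh]
      exact (hB n).trans (le_max_left _ _)

lemma map_Bd {h : Equiv.Perm E} (hh : ContDiff ℝ 1 h) (hh' : ContDiff ℝ 1 h.symm) (x : E) :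
    (Bd h x).map (fderiv ℝ h x).toLinearMap = Bd h (h x) := by
  ext w
  rw [Submodule.mem_map]
  constructor
  · rintro ⟨v, hv, rfl⟩
    exact (Bd_step hh).1 hv
  · intro hw
    have h1 := fderiv_inv (h := h.symm) hh' hh (h x) w
    rw [Equiv.symm_symm, Equiv.symm_apply_apply] at h1
    refine ⟨fderiv ℝ h.symm (h x) w, ?_, h1⟩
    rw [Bd_step hh, h1]
    exact hw

lemma map_Bd' {h : Equiv.Perm E} (hh : ContDiff ℝ 1 h) (hh' : ContDiff ℝ 1 h.symm) (x : E) :
    (Bd h.symm x).map (fderiv ℝ h x).toLinearMap = Bd h.symm (h x) := by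
  have h1 := map_Bd (h := h.symm) hh' hh (h x)
  rw [Equiv.symm_apply_apply] at h1
  rw [← h1, ← Submodule.map_comp]
  have h2 : (fderiv ℝ h x).toLinearMap.comp (fderiv ℝ h.symm (h x)).toLinearMap =
      LinearMap.id := by
    refine LinearMap.ext fun w => ?_
    have h3 := fderiv_inv (h := h.symm) hh' hh (h x) w
    rw [Equiv.symm_symm, Equiv.symm_apply_apply] at h3
    exact h3
  rw [h2, Submodule.map_id]

section near

variable (PU : PerronUniqueStmt) (PE : PerronExistsStmt)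
  {h : Equiv.Perm E} (hh : ContDiff ℝ 1 h) {L : Set E} (hL : ∀ x ∈ L, h x ∈ L)
  {lam : Fin 5 → ℝ} {ex : Fin 5 → Prop} (hR : Rates lam ex)
  (hf : ∀ x ∈ L, NearDiag lam (1 / 100) (fderiv ℝ h x))

include hL in
lemma pow_mem {x : E} (hx : x ∈ L) (n : ℕ) : (h ^ n) x ∈ L := by
  induction n with
  | zero => simpa using hx
  | succ n ih => rw [pow_succ']; exact hL _ ih

include PU hh hL hR hf

lemma bounds {x : E} (hx : x ∈ L) {v : E} (hv : v ∈ Bd h x) :
    (∀ δ, 0 ≤ δ → (∀ c, ¬ ex c → |v c| ≤ δ) → ‖v‖ ≤ δ) ∧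
      ∀ n, ‖fderiv ℝ ⇑(h ^ n) x v‖ ≤ (91 / 100) ^ n * ‖v‖ := by
  obtain ⟨B, hB⟩ := hv
  have hB0 : 0 ≤ B := (norm_nonneg _).trans (hB 0)
  have h1 := PU hR (fun n => ⇑(fderiv ℝ h ((h ^ n) x)))
    (fun n => hf _ (pow_mem hL hx n)) (fun n => fderiv ℝ ⇑(h ^ n) x v) (fun _ => 0)
    (fun n => fderiv_pow_succ hh n x v) (fun n => by simp) B hB (fun n => by simpa using hB0)
  simp only [fderiv_pow_zero, sub_zero, Pi.zero_apply] at h1
  exact h1

include PE in
omit PU in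
lemma exists_Bd {x : E} (hx : x ∈ L) (w : E) : ∃ v ∈ Bd h x, ∀ c, ¬ ex c → v c = w c := by
  obtain ⟨X, h1, h2, B, hB⟩ := PE hR (fun n => ⇑(fderiv ℝ h ((h ^ n) x)))
    (fun n => hf _ (pow_mem hL hx n)) 0 (fun n c => by simp) w
  have h3 : ∀ n, X n = fderiv ℝ ⇑(h ^ n) x (X 0) := by
    intro n
    induction n with
    | zero => rw [fderiv_pow_zero]
    | succ n ih => rw [h2, ih, fderiv_pow_succ hh, ← ih]
  exact ⟨X 0, ⟨B, fun n => by rw [← h3]; exact hB n⟩, h1⟩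

include PE in
lemma finrank_Bd [DecidablePred ex] {x : E} (hx : x ∈ L) :
    Module.finrank ℝ (Bd h x) = Fintype.card {c // ¬ ex c} := by
  let π : Bd h x →ₗ[ℝ] ({c // ¬ ex c} → ℝ) :=
    { toFun := fun v c => (v : E) c.1
      map_add' := fun v w => by ext c; rfl
      map_smul' := fun a v => by ext c; rfl }
  have hinj : Function.Injective π := by
    rw [injective_iff_map_eq_zero]
    intro v hv
    have h1 := (bounds PU hh hL hR hf hx v.2).1 0 le_rfl (fun c hc => by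
      have := congrFun hv ⟨c, hc⟩
      change (v : E) c = 0 at this
      rw [this, abs_zero])
    exact Subtype.ext (norm_le_zero_iff.1 h1)
  have hsurj : Function.Surjective π := by
    intro w
    obtain ⟨v, hv, h1⟩ := exists_Bd PE hh hL hR hf hx (fun c => if hc : ¬ ex c then w ⟨c, hc⟩ else 0)
    refine ⟨⟨v, hv⟩, ?_⟩
    ext c
    have := h1 c.1 c.2
    rw [dif_pos c.2] at this
    exact this
  have e := LinearEquiv.ofBijective π ⟨hinj, hsurj⟩
  rw [e.finrank_eq, Module.finrank_fintype_fun_eq_card]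

end near

end Hyp

open Hyp in
theorem hyperbolic_of_nearDiag_core (PU : PerronUniqueStmt) (PE : PerronExistsStmt) (g : Equiv.Perm E) (hg : ContDiff ℝ 1 g)
    (hg' : ContDiff ℝ 1 g.symm) (L : Set E) (hL : ∀ x ∈ L, g x ∈ L) (hL' : ∀ x ∈ L, g.symm x ∈ L)
    (hf : ∀ x ∈ L, NearDiag lamf (1 / 100) (fderiv ℝ g x))
    (hb : ∀ x ∈ L, NearDiag lamb (1 / 100) (fderiv ℝ g.symm x)) : IsHyperbolicSet g L 2 := by
  have hR1 : Rates lamf (fun c => c = 0 ∨ c = 1 ∨ c = 2) := by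
    constructor
    · intro c hc
      fin_cases c <;> simp_all [lamf] <;> norm_num
    · intro c hc
      fin_cases c <;> simp_all [lamf] <;> norm_num
  have hR2 : Rates lamb (fun c => c = 3 ∨ c = 4) := by
    constructor
    · intro c hc
      fin_cases c <;> simp_all [lamb] <;> norm_num
    · intro c hc
      fin_cases c <;> simp_all [lamb] <;> norm_num
  have hd1 : ∀ x ∈ L, Module.finrank ℝ (Bd g x) = 2 := by
    intro x hx
    rw [finrank_Bd PU PE hg hL hR1 hf hx]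
    decide
  have hd2 : ∀ x ∈ L, Module.finrank ℝ (Bd g.symm x) = 3 := by
    intro x hx
    rw [finrank_Bd PU PE hg' hL' hR2 hb hx]
    decide
  refine ⟨Bd g, Bd g.symm, 1, 91 / 100, one_pos, by norm_num, by norm_num, fun x hx => ?_⟩
  have hdis : Disjoint (Bd g x) (Bd g.symm x) := by
    rw [Submodule.disjoint_def]
    intro v hv hv'
    obtain ⟨B, hB⟩ := hv'
    -- the backward orbit stays in the bounded subspaces
    have key : ∀ n : ℕ, ‖v‖ ≤ (91 / 100) ^ n * B := by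
      intro n
      have hxn : (g.symm ^ n) x ∈ L := pow_mem hL' hx n
      have h1 : ∀ (n : ℕ) (x : E) (v : E), v ∈ Bd g x →
          fderiv ℝ ⇑(g.symm ^ n) x v ∈ Bd g ((g.symm ^ n) x) ∧
          fderiv ℝ ⇑(g ^ n) ((g.symm ^ n) x) (fderiv ℝ ⇑(g.symm ^ n) x v) = v := by
        intro n
        induction n with
        | zero =>
          intro x v hv
          rw [fderiv_pow_zero, fderiv_pow_zero, pow_zero]
          exact ⟨hv, rfl⟩
        | succ n ih =>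
          intro x v hv
          obtain ⟨h2, h3⟩ := ih x v hv
          rw [fderiv_pow_succ hg', fderiv_pow_succ' hg, pow_succ', Equiv.Perm.mul_apply]
          set y := (g.symm ^ n) x with hy
          set w := fderiv ℝ ⇑(g.symm ^ n) x v with hw
          have h4 := fderiv_inv (h := g.symm) hg' hg y w
          rw [Equiv.symm_symm] at h4
          rw [Equiv.apply_symm_apply, h4]
          refine ⟨?_, h3⟩
          rw [Bd_step hg, h4, Equiv.apply_symm_apply]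
          exact h2
      obtain ⟨h2, h3⟩ := h1 n x v hv
      have h4 := (bounds PU hg hL hR1 hf hxn h2).2 n
      rw [h3] at h4
      exact h4.trans (mul_le_mul_of_nonneg_left (hB n) (by positivity))
    have hlim : Tendsto (fun n : ℕ => (91 / 100 : ℝ) ^ n * B) atTop (𝓝 0) := by
      have := (tendsto_pow_atTop_nhds_zero_of_lt_one (r := (91 / 100 : ℝ)) (by norm_num)
        (by norm_num)).mul_const B
      simpa using this
    have h5 : ‖v‖ ≤ 0 := ge_of_tendsto' hlim key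
    exact norm_le_zero_iff.1 h5
  refine ⟨⟨hdis, ?_⟩, hd1 x hx, map_Bd hg hg' x, map_Bd' hg hg' x, ?_, ?_⟩
  · rw [codisjoint_iff]
    refine Submodule.eq_top_of_disjoint _ _ ?_ hdis
    rw [hd1 x hx, hd2 x hx, Module.finrank_fintype_fun_eq_card, Fintype.card_fin]
  · intro v hv n
    have := (bounds PU hg hL hR1 hf hx hv).2 n
    rwa [one_mul]
  · intro v hv n
    have := (bounds PU hg' hL' hR2 hb hx hv).2 n
    rwa [one_mul]

end Pool.Agent.Helper21.RT
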