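import Pool.Agent.Helper21.RT.Consts

/-!
RT-9: closeness of order two on compact sets passes to inverse diffeomorphisms (MP_b79ae6_an).
-/

open Set Filter Topology
open scoped ContDiff

noncomputable section

namespace Pool.Agent.Helper21.RT

namespace Inv

set_option linter.unusedSectionVars false

variable {V : Type*} [NormedAddCommGroup V] [NormedSpace ℝ V] [ProperSpace V]

/-- the fixed point argument: the inverse is close in the sense of order zero -/
theorem zero_step (f : Equiv.Perm V) (hf : ContDiff ℝ 1 f) (hf' : ContDiff ℝ 1 f.symm)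
    (R R' : ℝ) (hR : ∀ y : V, ‖y‖ ≤ R' → ‖f.symm y‖ ≤ R) (η : ℝ) (hη : 0 < η) :
    ∃ ε : ℝ, 0 < ε ∧ ∀ g : Equiv.Perm V, ContDiff ℝ 1 g →
      (∀ x : V, ‖x‖ ≤ R + 1 → ‖g x - f x‖ < ε) →
      (∀ x : V, ‖x‖ ≤ R + 1 → ‖fderiv ℝ (fun y => g y - f y) x‖ < ε) →
      ∀ y : V, ‖y‖ ≤ R' → ‖g.symm y - f.symm y‖ ≤ η := by
  classical
  -- Lipschitz constant of `f.symm` on the ball of radius `R' + 1`
  obtain ⟨L, hL0, hL⟩ : ∃ L : ℝ, 0 ≤ L ∧ ∀ y z : V, ‖y‖ ≤ R' + 1 → ‖z‖ ≤ R' + 1 →
      ‖f.symm y - f.symm z‖ ≤ L * ‖y - z‖ := by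
    obtain ⟨C, hC⟩ := (isCompact_closedBall (0 : V) (R' + 1)).exists_bound_of_continuousOn
      (hf'.continuous_fderiv one_ne_zero).continuousOn
    refine ⟨max C 0, le_max_right _ _, fun y z hy hz => ?_⟩
    have := (convex_closedBall (0 : V) (R' + 1)).norm_image_sub_le_of_norm_fderiv_le
      (f := f.symm) (C := max C 0) (𝕜 := ℝ)
      (fun x _ => (hf'.differentiable one_ne_zero) x)
      (fun x hx => (hC x hx).trans (le_max_left _ _))
      (mem_closedBall_zero_iff.2 hz) (mem_closedBall_zero_iff.2 hy)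
    exact this
  set r : ℝ := min 1 η with hr
  have hr0 : 0 < r := lt_min one_pos hη
  set ε : ℝ := r / (2 * (L + 1)) with hε
  have hL1 : 0 < L + 1 := by linarith
  have hε0 : 0 < ε := by positivity
  have hLε : L * ε ≤ r / 2 := by
    rw [hε]
    rw [mul_div_assoc']
    rw [div_le_div_iff₀ (by positivity) (by positivity)]
    nlinarith
  have hr1 : r ≤ 1 := min_le_left _ _
  have hε1 : ε ≤ 1 := by
    rw [hε, div_le_one (by positivity)]
    linarith
  refine ⟨ε, hε0, fun g hg h0 h1 y hy => ?_⟩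
  set x0 := f.symm y with hx0
  have hx0R : ‖x0‖ ≤ R := hR y hy
  set s : Set V := Metric.closedBall x0 r with hs
  have hsR : ∀ x ∈ s, ‖x‖ ≤ R + 1 := by
    intro x hx
    have h2 : ‖x - x0‖ ≤ r := by simpa [hs, dist_eq_norm] using hx
    calc ‖x‖ = ‖(x - x0) + x0‖ := by simp
      _ ≤ ‖x - x0‖ + ‖x0‖ := norm_add_le _ _
      _ ≤ r + R := add_le_add h2 hx0R
      _ ≤ R + 1 := by linarith
  set h : V → V := fun z => g z - f z with hh
  have hhd : Differentiable ℝ h := (hg.differentiable one_ne_zero).sub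
    (hf.differentiable one_ne_zero)
  have hhL : ∀ x ∈ s, ∀ x' ∈ s, ‖h x - h x'‖ ≤ ε * ‖x - x'‖ := by
    intro x hx x' hx'
    exact (convex_closedBall x0 r).norm_image_sub_le_of_norm_fderiv_le (𝕜 := ℝ)
      (fun z _ => hhd z) (fun z hz => (h1 z (hsR z hz)).le) hx' hx
  have hball : ∀ x ∈ s, ‖y - h x‖ ≤ R' + 1 := by
    intro x hx
    calc ‖y - h x‖ ≤ ‖y‖ + ‖h x‖ := norm_sub_le _ _
      _ ≤ R' + ε := add_le_add hy (h0 x (hsR x hx)).le
      _ ≤ R' + 1 := by linarith
  set φ : V → V := fun x => f.symm (y - h x) with hφ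
  have hmaps : MapsTo φ s s := by
    intro x hx
    have h3 : ‖φ x - x0‖ ≤ L * ‖(y - h x) - y‖ :=
      hL _ _ (hball x hx) (by linarith)
    have h4 : ‖(y - h x) - y‖ ≤ ε := by
      have : (y - h x) - y = - h x := by abel
      rw [this, norm_neg]
      exact (h0 x (hsR x hx)).le
    have : ‖φ x - x0‖ ≤ r := by
      calc ‖φ x - x0‖ ≤ L * ‖(y - h x) - y‖ := h3
        _ ≤ L * ε := by gcongr
        _ ≤ r / 2 := hLε
        _ ≤ r := by linarith
    simpa [hs, dist_eq_norm] using this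
  have hcontr : ContractingWith (1 / 2 : NNReal) (hmaps.restrict φ s s) := by
    refine ⟨by norm_num, ?_⟩
    refine LipschitzWith.of_dist_le_mul fun x x' => ?_
    rw [Subtype.dist_eq, Subtype.dist_eq, dist_eq_norm, dist_eq_norm]
    have h5 : ‖φ x.1 - φ x'.1‖ ≤ L * ‖(y - h x.1) - (y - h x'.1)‖ :=
      hL _ _ (hball _ x.2) (hball _ x'.2)
    have h6 : (y - h x.1) - (y - h x'.1) = -(h x.1 - h x'.1) := by abel
    rw [h6, norm_neg] at h5
    calc ‖φ x.1 - φ x'.1‖ ≤ L * ‖h x.1 - h x'.1‖ := h5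
      _ ≤ L * (ε * ‖x.1 - x'.1‖) := by
        have := hhL _ x.2 _ x'.2
        gcongr
      _ = (L * ε) * ‖x.1 - x'.1‖ := by ring
      _ ≤ (1 / 2) * ‖x.1 - x'.1‖ := by
        have : L * ε ≤ 1 / 2 := by linarith
        gcongr
      _ = ((1 / 2 : NNReal) : ℝ) * ‖x.1 - x'.1‖ := by norm_num
  obtain ⟨x, hxs, hfix, -⟩ := hcontr.exists_fixedPoint' (Metric.isClosed_closedBall.isComplete)
    hmaps (x := x0) (Metric.mem_closedBall_self hr0.le) (edist_ne_top _ _)
  have h7 : f x = y - h x := by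
    have h8 : f.symm (y - h x) = x := hfix
    rw [← h8]
    rw [Equiv.apply_symm_apply]
    rw [h8]
  have h9 : g x = y := by
    have h10 : f x + h x = y := eq_sub_iff_add_eq.1 h7
    rw [← h10]
    change g x = f x + (g x - f x)
    abel
  have h11 : g.symm y = x := by rw [← h9, Equiv.symm_apply_apply]
  rw [h11]
  have : ‖x - x0‖ ≤ r := by simpa [hs, dist_eq_norm] using hxs
  exact this.trans (min_le_right _ _)

/-- the norms of the iterated derivatives of a difference -/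
theorem norm_iterated (g f : V → V) (hg : ContDiff ℝ 2 g) (hf : ContDiff ℝ 2 f) (x : V) :
    ‖iteratedFDeriv ℝ 0 (fun y => g y - f y) x‖ = ‖g x - f x‖ ∧
      ‖iteratedFDeriv ℝ 1 (fun y => g y - f y) x‖ = ‖fderiv ℝ g x - fderiv ℝ f x‖ ∧
      ‖iteratedFDeriv ℝ 2 (fun y => g y - f y) x‖ =
        ‖fderiv ℝ (fderiv ℝ g) x - fderiv ℝ (fderiv ℝ f) x‖ := by
  have hgd : Differentiable ℝ g := hg.differentiable two_ne_zero
  have hfd : Differentiable ℝ f := hf.differentiable two_ne_zero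
  have h1 : fderiv ℝ (fun y => g y - f y) = fun x => fderiv ℝ g x - fderiv ℝ f x := by
    funext z
    exact fderiv_fun_sub (hgd z) (hfd z)
  have hg2 : Differentiable ℝ (fderiv ℝ g) :=
    (hg.fderiv_right (m := 1) (by norm_num)).differentiable one_ne_zero
  have hf2 : Differentiable ℝ (fderiv ℝ f) :=
    (hf.fderiv_right (m := 1) (by norm_num)).differentiable one_ne_zero
  refine ⟨norm_iteratedFDeriv_zero, ?_, ?_⟩
  · rw [norm_iteratedFDeriv_one, h1]
  · rw [← norm_iteratedFDeriv_fderiv, norm_iteratedFDeriv_one, h1]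
    congr 1
    exact fderiv_fun_sub (hg2 x) (hf2 x)

/-- derivative of the inverse -/
theorem fderiv_symm_mul (g : Equiv.Perm V) (hg : Differentiable ℝ g)
    (hg' : Differentiable ℝ g.symm) (y : V) :
    fderiv ℝ g (g.symm y) * fderiv ℝ g.symm y = 1 ∧
      fderiv ℝ g.symm y * fderiv ℝ g (g.symm y) = 1 := by
  constructor
  · have h1 : (g : V → V) ∘ g.symm = id := by funext z; simp
    have h2 := fderiv_comp y (hg (g.symm y)) (hg' y)
    rw [h1, fderiv_id] at h2
    exact h2.symm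
  · have h1 : (g.symm : V → V) ∘ g = id := by funext z; simp
    have h2 := fderiv_comp (g.symm y) (g := g.symm) (by simpa using hg' y) (hg (g.symm y))
    rw [h1, fderiv_id] at h2
    rw [Equiv.apply_symm_apply] at h2
    exact h2.symm

/-- the second derivative of the inverse, as a function of the first derivative of the inverse and of the
second derivative -/
def sec (B : V →L[ℝ] V) (Q : V →L[ℝ] V →L[ℝ] V) : V →L[ℝ] V →L[ℝ] V :=
  -(((ContinuousLinearMap.compL ℝ V V V B) ∘L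
    ((ContinuousLinearMap.compL ℝ V V V).flip B)) ∘L (Q ∘L B))

theorem sec_apply (B : V →L[ℝ] V) (Q : V →L[ℝ] V →L[ℝ] V) (v : V) :
    sec B Q v = -(B ∘L (Q (B v) ∘L B)) := by
  simp [sec]

theorem continuous_sec : Continuous fun p : (V →L[ℝ] V) × (V →L[ℝ] V →L[ℝ] V) => sec p.1 p.2 := by
  unfold sec
  have h1 : Continuous fun p : (V →L[ℝ] V) × (V →L[ℝ] V →L[ℝ] V) =>
      (ContinuousLinearMap.compL ℝ V V V) p.1 :=
    (ContinuousLinearMap.compL ℝ V V V).continuous.comp continuous_fst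
  have h2 : Continuous fun p : (V →L[ℝ] V) × (V →L[ℝ] V →L[ℝ] V) =>
      (ContinuousLinearMap.compL ℝ V V V).flip p.1 :=
    (ContinuousLinearMap.compL ℝ V V V).flip.continuous.comp continuous_fst
  exact ((h1.clm_comp h2).clm_comp (continuous_snd.clm_comp continuous_fst)).neg

/-- the second derivative of the inverse -/
theorem fderiv_fderiv_symm (g : Equiv.Perm V) (hg : ContDiff ℝ 2 g)
    (hg' : ContDiff ℝ 2 g.symm) (y : V) :
    fderiv ℝ (fderiv ℝ g.symm) y =
      sec (fderiv ℝ g.symm y) (fderiv ℝ (fderiv ℝ g) (g.symm y)) := by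
  have hgd : Differentiable ℝ g := hg.differentiable two_ne_zero
  have hgd' : Differentiable ℝ g.symm := hg'.differentiable two_ne_zero
  have hg2 : Differentiable ℝ (fderiv ℝ g) :=
    (hg.fderiv_right (m := 1) (by norm_num)).differentiable one_ne_zero
  have hg2' : Differentiable ℝ (fderiv ℝ g.symm) :=
    (hg'.fderiv_right (m := 1) (by norm_num)).differentiable one_ne_zero
  -- differentiate `Dg (g⁻¹ z) ∘ D(g⁻¹) z = 1`
  have h1 : (fun z => (fderiv ℝ g (g.symm z)).comp (fderiv ℝ g.symm z)) =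
      fun _ => ContinuousLinearMap.id ℝ V := by
    funext z
    exact (fderiv_symm_mul g hgd hgd' z).1
  have hA : HasFDerivAt (fun z => fderiv ℝ g (g.symm z))
      ((fderiv ℝ (fderiv ℝ g) (g.symm y)).comp (fderiv ℝ g.symm y)) y :=
    ((hg2 (g.symm y)).hasFDerivAt).comp y (hgd' y).hasFDerivAt
  have hB : HasFDerivAt (fun z => fderiv ℝ g.symm z) (fderiv ℝ (fderiv ℝ g.symm) y) y :=
    (hg2' y).hasFDerivAt
  have h2 := hA.clm_comp hB
  rw [h1] at h2
  have h3 := h2.unique (hasFDerivAt_const _ _)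
  ext1 v
  have h4 := congrArg (fun T => T v) h3
  simp only [_root_.add_apply, ContinuousLinearMap.comp_apply,
    ContinuousLinearMap.flip_apply, ContinuousLinearMap.compL_apply,
    _root_.zero_apply] at h4
  rw [sec_apply]
  have h5 : fderiv ℝ g.symm y * fderiv ℝ g (g.symm y) = 1 :=
    (fderiv_symm_mul g hgd hgd' y).2
  have h6 : fderiv ℝ g (g.symm y) * (fderiv ℝ (fderiv ℝ g.symm) y v) =
      - ((fderiv ℝ (fderiv ℝ g) (g.symm y) (fderiv ℝ g.symm y v)) * fderiv ℝ g.symm y) := by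
    rw [eq_neg_iff_add_eq_zero]
    exact h4
  calc fderiv ℝ (fderiv ℝ g.symm) y v
      = (fderiv ℝ g.symm y * fderiv ℝ g (g.symm y)) * (fderiv ℝ (fderiv ℝ g.symm) y v) := by
        rw [h5, one_mul]
    _ = fderiv ℝ g.symm y * (fderiv ℝ g (g.symm y) * (fderiv ℝ (fderiv ℝ g.symm) y v)) := by
        rw [mul_assoc]
    _ = _ := by
        rw [h6]
        exact mul_neg (fderiv ℝ g.symm y)
          ((fderiv ℝ (fderiv ℝ g) (g.symm y) (fderiv ℝ g.symm y v)) * fderiv ℝ g.symm y)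

/-- the sequence version -/
theorem seq_step (f : Equiv.Perm V) (hf : ContDiff ℝ 2 f) (hf' : ContDiff ℝ 2 f.symm)
    (g : ℕ → Equiv.Perm V) (hg : ∀ n, ContDiff ℝ 2 (g n)) (hg' : ∀ n, ContDiff ℝ 2 (g n).symm)
    (hcl : ∀ n : ℕ, ∀ j : ℕ, j ≤ 2 → ∀ x ∈ Metric.closedBall (0 : V) n,
      ‖iteratedFDeriv ℝ j (fun y => g n y - f y) x‖ < 1 / ((n : ℝ) + 1))
    (y : ℕ → V) (y0 : V) (hy : Tendsto y atTop (𝓝 y0)) (j : ℕ) (hj : j ≤ 2) :
    Tendsto (fun n => ‖iteratedFDeriv ℝ j (fun z => (g n).symm z - f.symm z) (y n)‖) atTop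
      (𝓝 0) := by
  have hf1 : ContDiff ℝ 1 f := hf.of_le (by norm_num)
  have hf1' : ContDiff ℝ 1 f.symm := hf'.of_le (by norm_num)
  have hfs : Tendsto (fun n => f.symm (y n)) atTop (𝓝 (f.symm y0)) :=
    (hf1'.continuous.tendsto y0).comp hy
  -- bounds
  obtain ⟨R', hR'⟩ : ∃ R' : ℝ, ∀ n, ‖y n‖ ≤ R' := by
    obtain ⟨R', hR'⟩ := (hy.norm).bddAbove_range
    exact ⟨R', fun n => hR' (mem_range_self n)⟩
  obtain ⟨R, hR⟩ : ∃ R : ℝ, ∀ z : V, ‖z‖ ≤ R' → ‖f.symm z‖ ≤ R := by
    obtain ⟨R, hR⟩ := (isCompact_closedBall (0 : V) R').exists_bound_of_continuousOn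
      hf1'.continuous.continuousOn
    exact ⟨R, fun z hz => hR z (mem_closedBall_zero_iff.2 hz)⟩
  have hinv : Tendsto (fun n : ℕ => 1 / ((n : ℝ) + 1)) atTop (𝓝 0) :=
    tendsto_one_div_add_atTop_nhds_zero_nat
  -- order zero
  have hx0 : Tendsto (fun n => (g n).symm (y n) - f.symm (y n)) atTop (𝓝 0) := by
    rw [Metric.tendsto_atTop]
    intro η hη
    obtain ⟨ε, hε, H⟩ := zero_step f hf1 hf1' R R' hR (η / 2) (half_pos hη)
    have e1 : ∀ᶠ n : ℕ in atTop, 1 / ((n : ℝ) + 1) < ε := (tendsto_order.1 hinv).2 _ hε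
    have e2 : ∀ᶠ n : ℕ in atTop, R + 1 ≤ (n : ℝ) :=
      tendsto_natCast_atTop_atTop.eventually_ge_atTop _
    obtain ⟨N, hN⟩ := eventually_atTop.1 (e1.and e2)
    refine ⟨N, fun n hn => ?_⟩
    obtain ⟨h1, h2⟩ := hN n hn
    rw [dist_zero_right]
    refine lt_of_le_of_lt (H (g n) ((hg n).of_le (by norm_num)) ?_ ?_ (y n) (hR' n)) (by linarith)
    · intro x hx
      have := hcl n 0 (by norm_num) x (mem_closedBall_zero_iff.2 (hx.trans h2))
      rw [(norm_iterated _ _ (hg n) hf x).1] at this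
      exact this.trans h1
    · intro x hx
      have := hcl n 1 (by norm_num) x (mem_closedBall_zero_iff.2 (hx.trans h2))
      rw [norm_iteratedFDeriv_one] at this
      exact this.trans h1
  set x : ℕ → V := fun n => (g n).symm (y n) with hx
  have hxlim : Tendsto x atTop (𝓝 (f.symm y0)) := by
    have := hx0.add hfs
    simpa [hx] using this
  -- first and second derivatives of `g n` at `x n`
  have hev : ∀ᶠ n : ℕ in atTop, x n ∈ Metric.closedBall (0 : V) n := by
    obtain ⟨C, hC⟩ := (hxlim.norm).bddAbove_range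
    filter_upwards [tendsto_natCast_atTop_atTop.eventually_ge_atTop C] with n hn
    exact mem_closedBall_zero_iff.2 ((hC (mem_range_self n)).trans hn)
  have hA0 : Tendsto (fun n => fderiv ℝ (g n) (x n) - fderiv ℝ f (x n)) atTop (𝓝 0) := by
    rw [tendsto_zero_iff_norm_tendsto_zero]
    refine squeeze_zero' (Eventually.of_forall fun n => norm_nonneg _) ?_ hinv
    filter_upwards [hev] with n hn
    have := hcl n 1 (by norm_num) (x n) hn
    rw [(norm_iterated _ _ (hg n) hf (x n)).2.1] at this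
    exact this.le
  have hQ0 : Tendsto (fun n => fderiv ℝ (fderiv ℝ (g n)) (x n) - fderiv ℝ (fderiv ℝ f) (x n)) atTop
      (𝓝 0) := by
    rw [tendsto_zero_iff_norm_tendsto_zero]
    refine squeeze_zero' (Eventually.of_forall fun n => norm_nonneg _) ?_ hinv
    filter_upwards [hev] with n hn
    have := hcl n 2 le_rfl (x n) hn
    rw [(norm_iterated _ _ (hg n) hf (x n)).2.2] at this
    exact this.le
  have hA : Tendsto (fun n => fderiv ℝ (g n) (x n)) atTop (𝓝 (fderiv ℝ f (f.symm y0))) := by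
    have := hA0.add (((hf1.continuous_fderiv one_ne_zero).tendsto _).comp hxlim)
    simpa using this
  have hQ : Tendsto (fun n => fderiv ℝ (fderiv ℝ (g n)) (x n)) atTop
      (𝓝 (fderiv ℝ (fderiv ℝ f) (f.symm y0))) := by
    have hc : Continuous (fderiv ℝ (fderiv ℝ f)) :=
      (hf.fderiv_right (m := 1) (by norm_num)).continuous_fderiv one_ne_zero
    have := hQ0.add ((hc.tendsto _).comp hxlim)
    simpa using this
  -- first derivative of the inverse
  have hinvB : ∀ h : Equiv.Perm V, ContDiff ℝ 2 h → ContDiff ℝ 2 h.symm → ∀ z,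
      fderiv ℝ h.symm z = Ring.inverse (fderiv ℝ h (h.symm z)) := by
    intro h hh hh' z
    have h1 := fderiv_symm_mul h (hh.differentiable two_ne_zero) (hh'.differentiable two_ne_zero) z
    set u : (V →L[ℝ] V)ˣ := ⟨fderiv ℝ h (h.symm z), fderiv ℝ h.symm z, h1.1, h1.2⟩ with hu
    have h2 : fderiv ℝ h (h.symm z) = u := rfl
    rw [h2, Ring.inverse_unit]
    rfl
  have hB : Tendsto (fun n => fderiv ℝ (g n).symm (y n)) atTop (𝓝 (fderiv ℝ f.symm y0)) := by
    have h1 := fderiv_symm_mul f (hf.differentiable two_ne_zero)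
      (hf'.differentiable two_ne_zero) y0
    set u : (V →L[ℝ] V)ˣ := ⟨fderiv ℝ f (f.symm y0), fderiv ℝ f.symm y0, h1.1, h1.2⟩ with hu
    have h2 : fderiv ℝ f (f.symm y0) = u := rfl
    have h3 := (NormedRing.inverse_continuousAt u).tendsto
    rw [Ring.inverse_unit, ← h2] at h3
    have h4 := h3.comp hA
    refine Tendsto.congr (fun n => ?_) h4
    rw [hinvB (g n) (hg n) (hg' n) (y n)]
    rfl
  have hS : Tendsto (fun n => fderiv ℝ (fderiv ℝ (g n).symm) (y n)) atTop
      (𝓝 (fderiv ℝ (fderiv ℝ f.symm) y0)) := by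
    have h1 := (continuous_sec.tendsto (fderiv ℝ f.symm y0, fderiv ℝ (fderiv ℝ f) (f.symm y0))).comp
      (hB.prodMk_nhds hQ)
    rw [fderiv_fderiv_symm f hf hf' y0]
    refine Tendsto.congr (fun n => ?_) h1
    rw [fderiv_fderiv_symm (g n) (hg n) (hg' n) (y n)]
    rfl
  interval_cases j
  · have h1 : (fun n => ‖iteratedFDeriv ℝ 0 (fun z => (g n).symm z - f.symm z) (y n)‖) =
        fun n => ‖(g n).symm (y n) - f.symm (y n)‖ := by
      funext n
      exact (norm_iterated _ _ (hg' n) hf' (y n)).1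
    rw [h1, ← tendsto_zero_iff_norm_tendsto_zero]
    exact hx0
  · have h1 : (fun n => ‖iteratedFDeriv ℝ 1 (fun z => (g n).symm z - f.symm z) (y n)‖) =
        fun n => ‖fderiv ℝ (g n).symm (y n) - fderiv ℝ f.symm (y n)‖ := by
      funext n
      exact (norm_iterated _ _ (hg' n) hf' (y n)).2.1
    rw [h1, ← tendsto_zero_iff_norm_tendsto_zero]
    have := hB.sub (((hf1'.continuous_fderiv one_ne_zero).tendsto _).comp hy)
    simpa using this
  · have h1 : (fun n => ‖iteratedFDeriv ℝ 2 (fun z => (g n).symm z - f.symm z) (y n)‖) =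
        fun n => ‖fderiv ℝ (fderiv ℝ (g n).symm) (y n) - fderiv ℝ (fderiv ℝ f.symm) (y n)‖ := by
      funext n
      exact (norm_iterated _ _ (hg' n) hf' (y n)).2.2
    rw [h1, ← tendsto_zero_iff_norm_tendsto_zero]
    have hc : Continuous (fderiv ℝ (fderiv ℝ f.symm)) :=
      (hf'.fderiv_right (m := 1) (by norm_num)).continuous_fderiv one_ne_zero
    have := hS.sub ((hc.tendsto _).comp hy)
    simpa using this

end Inv

/-- closeness of order two on compact sets passes to the inverse diffeomorphisms -/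
theorem c2close_symm (f : Equiv.Perm E) (hf : ContDiff ℝ ∞ f) (hf' : ContDiff ℝ ∞ f.symm)
    (K' : Set E) (hK' : IsCompact K') (ε' : ℝ) (hε' : 0 < ε') :
    ∃ (K : Set E) (ε : ℝ), IsCompact K ∧ 0 < ε ∧ ∀ g : Equiv.Perm E, ContDiff ℝ 2 g →
      ContDiff ℝ 2 g.symm → C2Close K ε g f → C2Close K' ε' g.symm f.symm := by
  classical
  by_contra hcon
  push Not at hcon
  have H : ∀ n : ℕ, ∃ g : Equiv.Perm E, ContDiff ℝ 2 g ∧ ContDiff ℝ 2 g.symm ∧
      C2Close (Metric.closedBall 0 n) (1 / ((n : ℝ) + 1)) g f ∧ ¬ C2Close K' ε' g.symm f.symm := by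
    intro n
    obtain ⟨g, h1, h2, h3, h4⟩ := hcon (Metric.closedBall 0 n) (1 / ((n : ℝ) + 1))
      (isCompact_closedBall _ _) (by positivity)
    exact ⟨g, h1, h2, h3, h4⟩
  choose g hg hg' hcl hno using H
  have H2 : ∀ n : ℕ, ∃ j : Fin 3, ∃ y ∈ K',
      ε' ≤ ‖iteratedFDeriv ℝ (j : ℕ) (fun z => (g n).symm z - f.symm z) y‖ := by
    intro n
    have := hno n
    unfold C2Close at this
    push Not at this
    obtain ⟨j, hj, y, hy, h⟩ := this
    exact ⟨⟨j, by omega⟩, y, hy, h⟩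
  choose j y hy hbig using H2
  obtain ⟨y0, -, φ, hφ, hlim⟩ := hK'.tendsto_subseq hy
  have hf2 : ContDiff ℝ 2 f := hf.of_le (WithTop.coe_le_coe.2 le_top)
  have hf2' : ContDiff ℝ 2 f.symm := hf'.of_le (WithTop.coe_le_coe.2 le_top)
  have hcl' : ∀ n : ℕ, C2Close (Metric.closedBall 0 n) (1 / ((n : ℝ) + 1)) (g (φ n)) f := by
    intro n i hi x hx
    have h1 : n ≤ φ n := hφ.id_le n
    have h2 : (n : ℝ) ≤ (φ n : ℝ) := by exact_mod_cast h1
    refine lt_of_lt_of_le (hcl (φ n) i hi x (Metric.closedBall_subset_closedBall h2 hx)) ?_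
    exact one_div_le_one_div_of_le (by positivity) (by linarith)
  have T : ∀ i : ℕ, i ≤ 2 → ∀ᶠ n in atTop,
      ‖iteratedFDeriv ℝ i (fun z => (g (φ n)).symm z - f.symm z) (y (φ n))‖ < ε' := by
    intro i hi
    have := Inv.seq_step f hf2 hf2' (fun n => g (φ n)) (fun n => hg _) (fun n => hg' _) hcl'
      (fun n => y (φ n)) y0 hlim i hi
    exact (tendsto_order.1 this).2 _ hε'
  have T' : ∀ᶠ n in atTop, ∀ i : Fin 3,
      ‖iteratedFDeriv ℝ (i : ℕ) (fun z => (g (φ n)).symm z - f.symm z) (y (φ n))‖ < ε' := by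
    rw [eventually_all]
    intro i
    exact T i (by omega)
  obtain ⟨n, hn⟩ := T'.exists
  exact absurd (hbig (φ n)) (not_le.2 (hn (j (φ n))))

end Pool.Agent.Helper21.RT
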