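import Pool.Agent.Helper21.RT.Consts

/-!
The model diffeomorphism (MP_b79ae6_an), piece RT-1.
-/

open Set Filter Topology
open scoped ContDiff

noncomputable section

namespace Pool.Agent.Helper21.RT

namespace Model

/-! ### bump functions -/

/-- a smooth bump -/
def bmp (c r R : ℝ) (h : 0 < r) (h' : r < R) : ContDiffBump c := ⟨r, R, h, h'⟩

lemma bmp_one {c r R : ℝ} {h : 0 < r} {h' : r < R} {t : ℝ} (ht : |t - c| ≤ r) :
    bmp c r R h h' t = 1 := by
  apply ContDiffBump.one_of_mem_closedBall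
  rw [Metric.mem_closedBall, Real.dist_eq]
  exact ht

lemma bmp_zero {c r R : ℝ} {h : 0 < r} {h' : r < R} {t : ℝ} (ht : R ≤ |t - c|) :
    bmp c r R h h' t = 0 := by
  apply ContDiffBump.zero_of_le_dist
  rw [Real.dist_eq]
  exact ht

/-- cut-off, `1` on `[-15, 65]` and `0` on `[85, ∞)` -/
def chi (t : ℝ) : ℝ := bmp 25 40 60 (by norm_num) (by norm_num) t

/-- cut-off, `1` on `[40, 60]` and `0` outside `(35, 65)` -/
def kk (t : ℝ) : ℝ := bmp 50 10 15 (by norm_num) (by norm_num) t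

/-- sums of bumps around the points `4 q_d`, and `0` -/
def bs (v : Dg → ℝ) (t : ℝ) : ℝ :=
  ∑ d : Dg, v d * bmp (4 * qd d) (7 / 5) 2 (by norm_num) (by norm_num) t +
    50 * bmp 0 (7 / 5) 2 (by norm_num) (by norm_num) t

/-- sums of bumps around the points `q_d / 8` -/
def cs (v : Dg → ℝ) (t : ℝ) : ℝ :=
  ∑ d : Dg, v d * bmp (qd d / 8) (1 / 40) (1 / 20) (by norm_num) (by norm_num) t

@[fun_prop] lemma chi_smooth : ContDiff ℝ ∞ chi := ContDiffBump.contDiff _
@[fun_prop] lemma kk_smooth : ContDiff ℝ ∞ kk := ContDiffBump.contDiff _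

@[fun_prop] lemma bs_smooth (v : Dg → ℝ) : ContDiff ℝ ∞ (bs v) := by
  unfold bs
  refine ContDiff.add (ContDiff.sum fun d _ => ?_) ?_
  · exact contDiff_const.mul (ContDiffBump.contDiff _)
  · exact contDiff_const.mul (ContDiffBump.contDiff _)

@[fun_prop] lemma cs_smooth (v : Dg → ℝ) : ContDiff ℝ ∞ (cs v) := by
  unfold cs
  refine ContDiff.sum fun d _ => ?_
  exact contDiff_const.mul (ContDiffBump.contDiff _)

lemma chi_one {t : ℝ} (h : -15 ≤ t) (h' : t ≤ 65) : chi t = 1 :=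
  bmp_one (by rw [abs_le]; constructor <;> linarith)

lemma chi_zero {t : ℝ} (h : 85 ≤ t) : chi t = 0 :=
  bmp_zero (by rw [abs_of_nonneg (by linarith)]; linarith)

lemma kk_one {t : ℝ} (h : 40 ≤ t) (h' : t ≤ 60) : kk t = 1 :=
  bmp_one (by rw [abs_le]; constructor <;> linarith)

lemma kk_zero_left {t : ℝ} (h : t ≤ 35) : kk t = 0 :=
  bmp_zero (by rw [abs_of_nonpos (by linarith)]; linarith)

lemma kk_zero_right {t : ℝ} (h : 65 ≤ t) : kk t = 0 :=
  bmp_zero (by rw [abs_of_nonneg (by linarith)]; linarith)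

/-! ### separation of the digits -/

lemma sg_cases (a : Bool) : sg a = 1 ∨ sg a = -1 := by
  unfold sg; split_ifs <;> simp

lemma qd_sep {d d' : Dg} (h : d' ≠ d) : 2 ≤ |qd d - qd d'| := by
  rcases d with ⟨a, b, c⟩
  rcases d' with ⟨a', b', c'⟩
  rcases a with _ | _ <;> rcases b with _ | _ <;> rcases c with _ | _ <;>
    rcases a' with _ | _ <;> rcases b' with _ | _ <;> rcases c' with _ | _ <;>
    first
      | exact absurd rfl h
      | (simp only [qd, sg]; norm_num [abs_le, le_abs])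

lemma qd_abs (d : Dg) : 1 ≤ |qd d| := by
  rcases d with ⟨a, b, c⟩
  rcases a with _ | _ <;> rcases b with _ | _ <;> rcases c with _ | _ <;>
    (simp only [qd, sg]; norm_num [abs_le, le_abs])

lemma qd_le (d : Dg) : |qd d| ≤ 7 := by
  rcases d with ⟨a, b, c⟩
  rcases a with _ | _ <;> rcases b with _ | _ <;> rcases c with _ | _ <;>
    (simp only [qd, sg]; norm_num [abs_le, le_abs])

lemma bs_at {v : Dg → ℝ} {d : Dg} {t : ℝ} (h : |t - 4 * qd d| ≤ 7 / 5) : bs v t = v d := by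
  unfold bs
  rw [Finset.sum_eq_single d]
  · rw [bmp_one h, bmp_zero]
    · ring
    · have h1 := qd_abs d
      have h2 : |4 * qd d| = 4 * |qd d| := by rw [abs_mul]; norm_num
      have h3 : |4 * qd d| ≤ |t - 0| + |t - 4 * qd d| := by
        have : 4 * qd d = (t - 0) - (t - 4 * qd d) := by ring
        calc |4 * qd d| = |(t - 0) - (t - 4 * qd d)| := by rw [← this]
          _ ≤ |t - 0| + |t - 4 * qd d| := abs_sub _ _
      linarith
  · intro d' _ hd
    rw [bmp_zero, mul_zero]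
    have h1 := qd_sep hd
    have h2 : |4 * qd d - 4 * qd d'| = 4 * |qd d - qd d'| := by
      rw [← mul_sub, abs_mul]; norm_num
    have h3 : |4 * qd d - 4 * qd d'| ≤ |t - 4 * qd d'| + |t - 4 * qd d| := by
      have : 4 * qd d - 4 * qd d' = (t - 4 * qd d') - (t - 4 * qd d) := by ring
      rw [this]
      exact abs_sub _ _
    linarith
  · intro h; exact absurd (Finset.mem_univ d) h

lemma bs_zero {v : Dg → ℝ} {t : ℝ} (h : |t| ≤ 7 / 5) : bs v t = 50 := by
  unfold bs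
  rw [Finset.sum_eq_zero]
  · rw [bmp_one (by simpa using h)]; ring
  · intro d _
    rw [bmp_zero, mul_zero]
    have h1 := qd_abs d
    have h2 : |4 * qd d| = 4 * |qd d| := by rw [abs_mul]; norm_num
    have h3 : |4 * qd d| ≤ |t| + |t - 4 * qd d| := by
      have : 4 * qd d = t - (t - 4 * qd d) := by ring
      calc |4 * qd d| = |t - (t - 4 * qd d)| := by rw [← this]
        _ ≤ |t| + |t - 4 * qd d| := abs_sub _ _
    linarith

lemma cs_at {v : Dg → ℝ} {d : Dg} {t : ℝ} (h : |t - qd d / 8| ≤ 1 / 40) : cs v t = v d := by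
  unfold cs
  rw [Finset.sum_eq_single d]
  · rw [bmp_one h]; ring
  · intro d' _ hd
    rw [bmp_zero, mul_zero]
    have h1 := qd_sep hd
    have h2 : |qd d / 8 - qd d' / 8| = |qd d - qd d'| / 8 := by
      rw [← sub_div, abs_div]; norm_num
    have h3 : |qd d / 8 - qd d' / 8| ≤ |t - qd d' / 8| + |t - qd d / 8| := by
      have : qd d / 8 - qd d' / 8 = (t - qd d' / 8) - (t - qd d / 8) := by ring
      rw [this]
      exact abs_sub _ _
    linarith
  · intro h; exact absurd (Finset.mem_univ d) h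

lemma cs_zero {v : Dg → ℝ} {t : ℝ} (h : 40 ≤ t) : cs v t = 0 := by
  unfold cs
  apply Finset.sum_eq_zero
  intro d _
  rw [bmp_zero, mul_zero]
  have h1 := (abs_le.1 (qd_le d)).2
  rw [abs_of_nonneg (by linarith)]
  linarith

/-! ### elementary diffeomorphisms -/

/-- smooth with smooth inverse -/
def Sm (h : Equiv.Perm E) : Prop := ContDiff ℝ ∞ h ∧ ContDiff ℝ ∞ h.symm

lemma Sm.mul {h h' : Equiv.Perm E} (a : Sm h) (b : Sm h') : Sm (h * h') :=
  ⟨a.1.comp b.1, b.2.comp a.2⟩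

lemma Sm.inv {h : Equiv.Perm E} (a : Sm h) : Sm h⁻¹ := ⟨a.2, a.1⟩

lemma contDiff_vec {a0 a1 a2 a3 a4 : E → ℝ} (h0 : ContDiff ℝ ∞ a0) (h1 : ContDiff ℝ ∞ a1)
    (h2 : ContDiff ℝ ∞ a2) (h3 : ContDiff ℝ ∞ a3) (h4 : ContDiff ℝ ∞ a4) :
    ContDiff ℝ ∞ (fun x : E => (![a0 x, a1 x, a2 x, a3 x, a4 x] : E)) := by
  rw [contDiff_pi]
  intro i
  fin_cases i
  · exact h0
  · exact h1
  · exact h2
  · exact h3
  · exact h4

lemma cancel_exp {a s : ℝ} : a * Real.exp s * Real.exp (-s) = a := by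
  rw [mul_assoc, ← Real.exp_add]; simp

lemma cancel_exp' {a s : ℝ} : a * Real.exp (-s) * Real.exp s = a := by
  rw [mul_assoc, ← Real.exp_add]; simp

/-- step 1 -/
def h1 : Equiv.Perm E where
  toFun x := ![x 0, x 1, x 2, x 3 * Real.exp (-(chi (x 4) * Real.log 100)), x 4]
  invFun x := ![x 0, x 1, x 2, x 3 * Real.exp (chi (x 4) * Real.log 100), x 4]
  left_inv x := by
    ext i; fin_cases i <;> simp [cancel_exp']
  right_inv x := by
    ext i; fin_cases i <;> simp [cancel_exp]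

/-- step 2 -/
def h2 : Equiv.Perm E where
  toFun x := ![x 0 * Real.exp (chi (x 3) * Real.log 100),
    x 1 * Real.exp (chi (x 3) * Real.log (6 / 5)), x 2 * Real.exp (chi (x 3) * Real.log (6 / 5)),
    x 3, x 4 * Real.exp (chi (x 3) * Real.log (9 / 10))]
  invFun x := ![x 0 * Real.exp (-(chi (x 3) * Real.log 100)),
    x 1 * Real.exp (-(chi (x 3) * Real.log (6 / 5))),
    x 2 * Real.exp (-(chi (x 3) * Real.log (6 / 5))),
    x 3, x 4 * Real.exp (-(chi (x 3) * Real.log (9 / 10)))]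
  left_inv x := by
    ext i; fin_cases i <;> simp [cancel_exp]
  right_inv x := by
    ext i; fin_cases i <;> simp [cancel_exp']

/-- offsets of the coordinate `3` -/
def b1 : ℝ → ℝ := bs (fun d => qd d / 8)
/-- offsets of the coordinate `4` -/
def b2 : ℝ → ℝ := bs (fun d => sg d.1 / 2)
/-- shifts -/
def c0 : ℝ → ℝ := cs (fun d => 4 * qd d)
/-- shear coefficient -/
def c1 : ℝ → ℝ := cs (fun d => tau / 2 * sg d.2.1)
/-- shear coefficient -/
def c2 : ℝ → ℝ := cs (fun d => tau / 2 * sg d.2.2)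

/-- step 3 -/
def h3 : Equiv.Perm E where
  toFun x := ![x 0, x 1, x 2, x 3 + b1 (x 0) * chi (x 4), x 4]
  invFun x := ![x 0, x 1, x 2, x 3 - b1 (x 0) * chi (x 4), x 4]
  left_inv x := by ext i; fin_cases i <;> simp
  right_inv x := by ext i; fin_cases i <;> simp

/-- step 4 -/
def h4 : Equiv.Perm E where
  toFun x := ![x 0, x 1, x 2, x 3, x 4 + b2 (x 0) * chi (x 3)]
  invFun x := ![x 0, x 1, x 2, x 3, x 4 - b2 (x 0) * chi (x 3)]
  left_inv x := by ext i; fin_cases i <;> simp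
  right_inv x := by ext i; fin_cases i <;> simp

/-- step 5 -/
def h5 : Equiv.Perm E where
  toFun x := ![x 0 - c0 (x 3), x 1, x 2, x 3, x 4]
  invFun x := ![x 0 + c0 (x 3), x 1, x 2, x 3, x 4]
  left_inv x := by ext i; fin_cases i <;> simp
  right_inv x := by ext i; fin_cases i <;> simp

/-- step 6 -/
def h6 : Equiv.Perm E where
  toFun x := ![x 0, x 1, x 2, x 3, x 4 + (c1 (x 3) * x 1 + c2 (x 3) * x 2)]
  invFun x := ![x 0, x 1, x 2, x 3, x 4 - (c1 (x 3) * x 1 + c2 (x 3) * x 2)]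
  left_inv x := by ext i; fin_cases i <;> simp
  right_inv x := by ext i; fin_cases i <;> simp

/-- step 7 -/
def h7 : Equiv.Perm E where
  toFun x := ![x 0, x 1, x 2, x 3 + kk (x 4) * (x 2 ^ 2 / 2), x 4]
  invFun x := ![x 0, x 1, x 2, x 3 - kk (x 4) * (x 2 ^ 2 / 2), x 4]
  left_inv x := by ext i; fin_cases i <;> simp
  right_inv x := by ext i; fin_cases i <;> simp

/-- the involution as a permutation -/
def TT : Equiv.Perm E where
  toFun := Tm
  invFun := Tm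
  left_inv x := by ext i; fin_cases i <;> simp [Tm]
  right_inv x := by ext i; fin_cases i <;> simp [Tm]

lemma ev_smooth (i : Fin 5) : ContDiff ℝ ∞ (fun x : E => x i) := contDiff_apply ℝ ℝ i

lemma comp_smooth {g : ℝ → ℝ} (hg : ContDiff ℝ ∞ g) (i : Fin 5) :
    ContDiff ℝ ∞ (fun x : E => g (x i)) := hg.comp (ev_smooth i)

lemma exp_smooth {a : ℝ} (i j : Fin 5) :
    ContDiff ℝ ∞ (fun x : E => x i * Real.exp (chi (x j) * a)) :=
  (ev_smooth i).mul (((comp_smooth chi_smooth j).mul contDiff_const).exp)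

lemma exp_smooth' {a : ℝ} (i j : Fin 5) :
    ContDiff ℝ ∞ (fun x : E => x i * Real.exp (-(chi (x j) * a))) :=
  (ev_smooth i).mul (((comp_smooth chi_smooth j).mul contDiff_const).neg.exp)

lemma sm1 : Sm h1 :=
  ⟨contDiff_vec (ev_smooth 0) (ev_smooth 1) (ev_smooth 2) (exp_smooth' 3 4) (ev_smooth 4),
    contDiff_vec (ev_smooth 0) (ev_smooth 1) (ev_smooth 2) (exp_smooth 3 4) (ev_smooth 4)⟩

lemma sm2 : Sm h2 :=
  ⟨contDiff_vec (exp_smooth 0 3) (exp_smooth 1 3) (exp_smooth 2 3) (ev_smooth 3) (exp_smooth 4 3),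
    contDiff_vec (exp_smooth' 0 3) (exp_smooth' 1 3) (exp_smooth' 2 3) (ev_smooth 3)
      (exp_smooth' 4 3)⟩

lemma sm3 : Sm h3 :=
  ⟨contDiff_vec (ev_smooth 0) (ev_smooth 1) (ev_smooth 2)
      ((ev_smooth 3).add ((comp_smooth (bs_smooth _) 0).mul (comp_smooth chi_smooth 4)))
      (ev_smooth 4),
    contDiff_vec (ev_smooth 0) (ev_smooth 1) (ev_smooth 2)
      ((ev_smooth 3).sub ((comp_smooth (bs_smooth _) 0).mul (comp_smooth chi_smooth 4)))
      (ev_smooth 4)⟩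

lemma sm4 : Sm h4 :=
  ⟨contDiff_vec (ev_smooth 0) (ev_smooth 1) (ev_smooth 2) (ev_smooth 3)
      ((ev_smooth 4).add ((comp_smooth (bs_smooth _) 0).mul (comp_smooth chi_smooth 3))),
    contDiff_vec (ev_smooth 0) (ev_smooth 1) (ev_smooth 2) (ev_smooth 3)
      ((ev_smooth 4).sub ((comp_smooth (bs_smooth _) 0).mul (comp_smooth chi_smooth 3)))⟩

lemma sm5 : Sm h5 :=
  ⟨contDiff_vec ((ev_smooth 0).sub (comp_smooth (cs_smooth _) 3)) (ev_smooth 1) (ev_smooth 2)
      (ev_smooth 3) (ev_smooth 4),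
    contDiff_vec ((ev_smooth 0).add (comp_smooth (cs_smooth _) 3)) (ev_smooth 1) (ev_smooth 2)
      (ev_smooth 3) (ev_smooth 4)⟩

lemma sm6 : Sm h6 :=
  ⟨contDiff_vec (ev_smooth 0) (ev_smooth 1) (ev_smooth 2) (ev_smooth 3)
      ((ev_smooth 4).add (((comp_smooth (cs_smooth _) 3).mul (ev_smooth 1)).add
        ((comp_smooth (cs_smooth _) 3).mul (ev_smooth 2)))),
    contDiff_vec (ev_smooth 0) (ev_smooth 1) (ev_smooth 2) (ev_smooth 3)
      ((ev_smooth 4).sub (((comp_smooth (cs_smooth _) 3).mul (ev_smooth 1)).add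
        ((comp_smooth (cs_smooth _) 3).mul (ev_smooth 2))))⟩

lemma sm7 : Sm h7 :=
  ⟨contDiff_vec (ev_smooth 0) (ev_smooth 1) (ev_smooth 2)
      ((ev_smooth 3).add ((comp_smooth kk_smooth 4).mul (((ev_smooth 2).pow 2).div_const 2)))
      (ev_smooth 4),
    contDiff_vec (ev_smooth 0) (ev_smooth 1) (ev_smooth 2)
      ((ev_smooth 3).sub ((comp_smooth kk_smooth 4).mul (((ev_smooth 2).pow 2).div_const 2)))
      (ev_smooth 4)⟩

lemma smT : Sm TT := by
  have : ContDiff ℝ ∞ Tm :=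
    contDiff_vec (ev_smooth 2) (ev_smooth 1) (ev_smooth 0) (contDiff_const.sub (ev_smooth 4))
      (contDiff_const.sub (ev_smooth 3))
  exact ⟨this, this⟩

/-- the composition of the seven steps -/
def F : Equiv.Perm E := h7 * (h6 * (h5 * (h4 * (h3 * (h2 * h1)))))

lemma smF : Sm F := sm7.mul (sm6.mul (sm5.mul (sm4.mul (sm3.mul (sm2.mul sm1)))))

/-- the model diffeomorphism -/
def f : Equiv.Perm E := F * (TT * (F⁻¹ * TT))

lemma smf : Sm f := smF.mul (smT.mul (smF.inv.mul smT))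

lemma comp7 (a b c d e g k : Equiv.Perm E) (x : E) :
    (a * (b * (c * (d * (e * (g * k)))))) x = a (b (c (d (e (g (k x)))))) := rfl

lemma comp4 (a b : Equiv.Perm E) (x : E) : (a * (b * (a⁻¹ * b))) x = a (b (a⁻¹ (b x))) := rfl

lemma comp4_symm (a b : Equiv.Perm E) (hb : ∀ z, b (b z) = z) (x : E) :
    (a * (b * (a⁻¹ * b))).symm x = b (a (b (a⁻¹ x))) := by
  rw [Equiv.symm_apply_eq, comp4, hb]
  have h1 : ∀ z, a⁻¹ (a z) = z := fun z => a.symm_apply_apply z
  have h2 : ∀ z, a (a⁻¹ z) = z := fun z => a.apply_symm_apply z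
  rw [h1, hb, h2]

lemma F_apply (x : E) : F x = h7 (h6 (h5 (h4 (h3 (h2 (h1 x)))))) := comp7 h7 h6 h5 h4 h3 h2 h1 x

lemma f_apply (x : E) : f x = F (TT (F⁻¹ (TT x))) := comp4 F TT x

lemma f_symm_apply (x : E) : f.symm x = TT (F (TT (F⁻¹ x))) :=
  comp4_symm F TT TT.left_inv x

lemma TT_TT (x : E) : TT (TT x) = x := TT.left_inv x

lemma F_id {x : E} (h3' : 88 ≤ x 3) (h4' : 88 ≤ x 4) : F x = x := by
  have e1 : h1 x = x := by
    have : chi (x 4) = 0 := chi_zero (by linarith)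
    ext i; fin_cases i <;> simp [h1, this]
  have e2 : h2 x = x := by
    have : chi (x 3) = 0 := chi_zero (by linarith)
    ext i; fin_cases i <;> simp [h2, this]
  have e3 : h3 x = x := by
    have : chi (x 4) = 0 := chi_zero (by linarith)
    ext i; fin_cases i <;> simp [h3, this]
  have e4 : h4 x = x := by
    have : chi (x 3) = 0 := chi_zero (by linarith)
    ext i; fin_cases i <;> simp [h4, this]
  have e5 : h5 x = x := by
    have : c0 (x 3) = 0 := cs_zero (by linarith)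
    ext i; fin_cases i <;> simp [h5, this]
  have e6 : h6 x = x := by
    have h' : c1 (x 3) = 0 := cs_zero (by linarith)
    have h'' : c2 (x 3) = 0 := cs_zero (by linarith)
    ext i; fin_cases i <;> simp [h6, h', h'']
  have e7 : h7 x = x := by
    have : kk (x 4) = 0 := kk_zero_right (by linarith)
    ext i; fin_cases i <;> simp [h7, this]
  rw [F_apply, e1, e2, e3, e4, e5, e6, e7]

lemma f_eq_F {x : E} (h3' : x 3 ≤ 12) (h4' : x 4 ≤ 12) : f x = F x := by
  have e : F (TT x) = TT x := by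
    apply F_id
    · show 88 ≤ 100 - x 4
      linarith
    · show 88 ≤ 100 - x 3
      linarith
  have e' : F⁻¹ (TT x) = TT x := by
    rw [Equiv.Perm.inv_eq_iff_eq, e]
  rw [f_apply, e', TT_TT]

lemma exp_log_one {a c : ℝ} (hc : 0 < c) : a * Real.exp (1 * Real.log c) = a * c := by
  rw [one_mul, Real.exp_log hc]

lemma exp_log_one' {a c : ℝ} (hc : 0 < c) : a * Real.exp (-(1 * Real.log c)) = a / c := by
  rw [one_mul, Real.exp_neg, Real.exp_log hc]; rfl

lemma h1_at {a0 a1 a2 a3 a4 : ℝ} (h : -15 ≤ a4) (h' : a4 ≤ 65) :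
    h1 ![a0, a1, a2, a3, a4] = ![a0, a1, a2, a3 / 100, a4] := by
  show (![a0, a1, a2, a3 * Real.exp (-(chi a4 * Real.log 100)), a4] : E) = _
  rw [chi_one h h', exp_log_one' (by norm_num)]

lemma h2_at {a0 a1 a2 a3 a4 : ℝ} (h : -15 ≤ a3) (h' : a3 ≤ 65) :
    h2 ![a0, a1, a2, a3, a4] = ![a0 * 100, a1 * (6 / 5), a2 * (6 / 5), a3, a4 * (9 / 10)] := by
  show (![a0 * Real.exp (chi a3 * Real.log 100), a1 * Real.exp (chi a3 * Real.log (6 / 5)),
    a2 * Real.exp (chi a3 * Real.log (6 / 5)), a3,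
    a4 * Real.exp (chi a3 * Real.log (9 / 10))] : E) = _
  rw [chi_one h h', exp_log_one (by norm_num), exp_log_one (by norm_num),
    exp_log_one (by norm_num), exp_log_one (by norm_num)]

lemma h3_at {a0 a1 a2 a3 a4 : ℝ} (h : -15 ≤ a4) (h' : a4 ≤ 65) :
    h3 ![a0, a1, a2, a3, a4] = ![a0, a1, a2, a3 + b1 a0, a4] := by
  show (![a0, a1, a2, a3 + b1 a0 * chi a4, a4] : E) = _
  rw [chi_one h h', mul_one]

lemma h4_at {a0 a1 a2 a3 a4 : ℝ} (h : -15 ≤ a3) (h' : a3 ≤ 65) :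
    h4 ![a0, a1, a2, a3, a4] = ![a0, a1, a2, a3, a4 + b2 a0] := by
  show (![a0, a1, a2, a3, a4 + b2 a0 * chi a3] : E) = _
  rw [chi_one h h', mul_one]

lemma h5_at {a0 a1 a2 a3 a4 : ℝ} :
    h5 ![a0, a1, a2, a3, a4] = ![a0 - c0 a3, a1, a2, a3, a4] := rfl

lemma h6_at {a0 a1 a2 a3 a4 : ℝ} :
    h6 ![a0, a1, a2, a3, a4] = ![a0, a1, a2, a3, a4 + (c1 a3 * a1 + c2 a3 * a2)] := rfl

lemma h7_at {a0 a1 a2 a3 a4 : ℝ} :
    h7 ![a0, a1, a2, a3, a4] = ![a0, a1, a2, a3 + kk a4 * (a2 ^ 2 / 2), a4] := rfl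

lemma sg_abs (a : Bool) : |sg a| = 1 := by
  rcases sg_cases a with h | h <;> rw [h] <;> simp

lemma F_branch (d : Dg) (x : E) (hx : x ∈ Vp d) : F x = Fd d x := by
  obtain ⟨x0, x1, x2, x3, x4⟩ := hx
  have hq := abs_le.1 (qd_le d)
  rw [abs_lt] at x1 x2 x3 x4
  have s1 := abs_le.1 (sg_abs d.1).le
  have s2 := abs_le.1 (sg_abs d.2.1).le
  have s3 := abs_le.1 (sg_abs d.2.2).le
  have hx : x = ![x 0, x 1, x 2, x 3, x 4] := by ext i; fin_cases i <;> rfl
  have hb1 : b1 (x 0 * 100) = qd d / 8 := bs_at (by rw [mul_comm]; exact x0.le)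
  have hb2 : b2 (x 0 * 100) = sg d.1 / 2 := bs_at (by rw [mul_comm]; exact x0.le)
  have habs : |x 3 / 100 + qd d / 8 - qd d / 8| ≤ 1 / 40 := by
    rw [add_sub_cancel_right, abs_le]
    constructor <;> linarith
  have hc0 : c0 (x 3 / 100 + qd d / 8) = 4 * qd d := cs_at habs
  have hc1 : c1 (x 3 / 100 + qd d / 8) = tau / 2 * sg d.2.1 := cs_at habs
  have hc2 : c2 (x 3 / 100 + qd d / 8) = tau / 2 * sg d.2.2 := cs_at habs
  rw [F_apply]
  conv_lhs => rw [hx]
  rw [h1_at (by linarith) (by linarith), h2_at (by linarith) (by linarith),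
    h3_at (by linarith) (by linarith), hb1, h4_at (by linarith) (by linarith), hb2, h5_at, hc0,
    h6_at, hc1, hc2, h7_at, kk_zero_left]
  · unfold Fd
    ext i
    fin_cases i
    · show x 0 * 100 - 4 * qd d = 100 * x 0 - 4 * qd d
      ring
    · show x 1 * (6 / 5) = 6 / 5 * x 1
      ring
    · show x 2 * (6 / 5) = 6 / 5 * x 2
      ring
    · show x 3 / 100 + qd d / 8 + 0 * ((x 2 * (6 / 5)) ^ 2 / 2) = x 3 / 100 + qd d / 8
      ring
    · show x 4 * (9 / 10) + sg d.1 / 2 +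
          (tau / 2 * sg d.2.1 * (x 1 * (6 / 5)) + tau / 2 * sg d.2.2 * (x 2 * (6 / 5))) =
        9 / 10 * x 4 + sg d.1 / 2 +
          tau / 2 * (sg d.2.1 * (6 / 5 * x 1) + sg d.2.2 * (6 / 5 * x 2))
      ring
  · have t1 : tau / 2 * sg d.2.1 * (x 1 * (6 / 5)) ≤ 1 := by
      rcases sg_cases d.2.1 with h | h <;> rw [h] <;> unfold tau <;> linarith
    have t2 : tau / 2 * sg d.2.2 * (x 2 * (6 / 5)) ≤ 1 := by
      rcases sg_cases d.2.2 with h | h <;> rw [h] <;> unfold tau <;> linarith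
    linarith

lemma F_exit (y : E) (hy : y ∈ Rp0) : F (kap0 y) = y := by
  obtain ⟨y0, y1, y2, y3, y4⟩ := hy
  rw [abs_lt] at y0 y1 y2 y3 y4
  have hsq : (y 2) ^ 2 ≤ 1 := by nlinarith
  have hsq0 : 0 ≤ (y 2) ^ 2 := sq_nonneg _
  have hb1 : b1 (y 0 / 100 * 100) = 50 := bs_zero (by rw [abs_le]; constructor <;> linarith)
  have hb2 : b2 (y 0 / 100 * 100) = 50 := bs_zero (by rw [abs_le]; constructor <;> linarith)
  have e3 : 100 * (y 3 - 50 - y 2 ^ 2 / 2) / 100 + 50 = y 3 - y 2 ^ 2 / 2 := by ring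
  have hc0 : c0 (y 3 - y 2 ^ 2 / 2) = 0 := cs_zero (by linarith)
  have hc1 : c1 (y 3 - y 2 ^ 2 / 2) = 0 := cs_zero (by linarith)
  have hc2 : c2 (y 3 - y 2 ^ 2 / 2) = 0 := cs_zero (by linarith)
  rw [F_apply]
  unfold kap0
  rw [h1_at (by linarith) (by linarith), h2_at (by linarith) (by linarith),
    h3_at (by linarith) (by linarith), hb1, h4_at (by linarith) (by linarith), hb2, h5_at, e3,
    hc0, h6_at, hc1, hc2, h7_at, kk_one (by linarith) (by linarith)]
  ext i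
  fin_cases i
  · show y 0 / 100 * 100 - 0 = y 0
    ring
  · show 5 / 6 * y 1 * (6 / 5) = y 1
    ring
  · show 5 / 6 * y 2 * (6 / 5) = y 2
    ring
  · show y 3 - y 2 ^ 2 / 2 + 1 * ((5 / 6 * y 2 * (6 / 5)) ^ 2 / 2) = y 3
    ring
  · show 10 / 9 * (y 4 - 50) * (9 / 10) + 50 +
        (0 * (5 / 6 * y 1 * (6 / 5)) + 0 * (5 / 6 * y 2 * (6 / 5))) = y 4
    ring

lemma kap_mem (d : Dg) (y : E) (hy : y ∈ Rp d) : kap d y ∈ Vp d := by
  obtain ⟨y0, y1, y2, y3, y4⟩ := hy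
  rw [abs_lt] at y0 y1 y2 y3 y4
  refine ⟨?_, ?_, ?_, ?_, ?_⟩
  · show |100 * ((y 0 + 4 * qd d) / 100) - 4 * qd d| < 7 / 5
    rw [abs_lt]; constructor <;> linarith
  · show |5 / 6 * y 1| < 6 / 5
    rw [abs_lt]; constructor <;> linarith
  · show |5 / 6 * y 2| < 6 / 5
    rw [abs_lt]; constructor <;> linarith
  · show |100 * (y 3 - qd d / 8)| < 11 / 5
    rw [abs_lt]; constructor <;> linarith
  · show |10 / 9 * (y 4 - sg d.1 / 2 - tau / 2 * (sg d.2.1 * y 1 + sg d.2.2 * y 2))| < 10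
    have a1 : |sg d.2.1 * y 1| ≤ 4 / 3 := by
      rw [abs_mul, sg_abs, one_mul, abs_le]; constructor <;> linarith
    have a2 : |sg d.2.2 * y 2| ≤ 4 / 3 := by
      rw [abs_mul, sg_abs, one_mul, abs_le]; constructor <;> linarith
    rw [abs_le] at a1 a2
    have s1 := abs_le.1 (sg_abs d.1).le
    unfold tau
    rw [abs_lt]; constructor <;> linarith

lemma Fd_kap (d : Dg) (y : E) : Fd d (kap d y) = y := by
  unfold Fd kap
  ext i
  fin_cases i
  · show 100 * ((y 0 + 4 * qd d) / 100) - 4 * qd d = y 0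
    ring
  · show 6 / 5 * (5 / 6 * y 1) = y 1
    ring
  · show 6 / 5 * (5 / 6 * y 2) = y 2
    ring
  · show 100 * (y 3 - qd d / 8) / 100 + qd d / 8 = y 3
    ring
  · show 9 / 10 * (10 / 9 * (y 4 - sg d.1 / 2 - tau / 2 * (sg d.2.1 * y 1 + sg d.2.2 * y 2))) +
        sg d.1 / 2 + tau / 2 * (sg d.2.1 * (6 / 5 * (5 / 6 * y 1)) +
          sg d.2.2 * (6 / 5 * (5 / 6 * y 2))) = y 4
    ring

lemma f_branch (d : Dg) (x : E) (hx : x ∈ Vp d) : f x = Fd d x := by
  rw [f_eq_F, F_branch d x hx]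
  · have := (abs_lt.1 hx.2.2.2.1).2
    linarith
  · have := (abs_lt.1 hx.2.2.2.2).2
    linarith

end Model

/-- the model diffeomorphism -/
theorem exists_model : ∃ f : Equiv.Perm E, ContDiff ℝ ∞ f ∧ ContDiff ℝ ∞ f.symm ∧
    (∀ x, Tm (f (Tm x)) = f.symm x) ∧ (∀ d, ∀ y ∈ Rp d, f.symm y = kap d y) ∧
    (∀ y ∈ Rp0, f.symm y = kap0 y) ∧ (∀ d, ∀ x ∈ Vp d, f x = Fd d x) := by
  refine ⟨Model.f, Model.smf.1, Model.smf.2, ?_, ?_, ?_, fun d x hx => Model.f_branch d x hx⟩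
  · intro x
    have e : ∀ z, Tm z = Model.TT z := fun z => rfl
    rw [e, e, Model.f_apply, Model.TT_TT, Model.f_symm_apply]
  · intro d y hy
    rw [Equiv.symm_apply_eq, Model.f_branch d _ (Model.kap_mem d y hy), Model.Fd_kap]
  · intro y hy
    rw [Equiv.symm_apply_eq, Model.f_eq_F, Model.F_exit y hy]
    · obtain ⟨y0, y1, y2, y3, y4⟩ := hy
      rw [abs_lt] at y3
      show 100 * (y 3 - 50 - (y 2) ^ 2 / 2) ≤ 12
      have := sq_nonneg (y 2)
      linarith
    · obtain ⟨y0, y1, y2, y3, y4⟩ := hy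
      rw [abs_lt] at y4
      show 10 / 9 * (y 4 - 50) ≤ 12
      linarith

end Pool.Agent.Helper21.RT
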