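import Pool.Agent.Helper21.RT.Systems

/-!
The global base maps and lifted maps are near diagonal maps.
-/

open Set Filter Topology
open scoped ContDiff

noncomputable section

namespace Pool.Agent.Helper21.RT

/-- difference between the branch and the diagonal model -/
theorem kap_sub (d : Dg) (y : E) (i : Fin 5) :
    kap d y i - lamb i * (y i - bB d i) =
      if i = 4 then -(10 / 9 * (tau / 2 * (sg d.2.1 * y 1 + sg d.2.2 * y 2))) else 0 := by
  fin_cases i <;> simp [kap, lamb, bB] <;> ring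

theorem sg_mul_abs (a : Bool) (x : ℝ) : |sg a * x| = |x| := by rw [abs_mul, sg_abs, one_mul]

theorem kap_sub_abs (d : Dg) (y : E) (hy1 : |y 1| ≤ 13 / 10) (hy2 : |y 2| ≤ 13 / 10) (i : Fin 5) :
    |kap d y i - lamb i * (y i - bB d i)| ≤ 1 / 500 := by
  rw [kap_sub]
  split_ifs
  · rw [abs_neg, abs_mul, abs_mul]
    have h := abs_add_le (sg d.2.1 * y 1) (sg d.2.2 * y 2)
    rw [sg_mul_abs, sg_mul_abs] at h
    have e1 : |(10 / 9 : ℝ)| = 10 / 9 := by norm_num
    have e2 : |tau / 2| = 1 / 2000 := by unfold tau; norm_num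
    rw [e1, e2]
    nlinarith
  · norm_num

theorem kap_sub_lip (d : Dg) (x y : E) (i : Fin 5) :
    |(kap d x i - lamb i * (x i - bB d i)) - (kap d y i - lamb i * (y i - bB d i))| ≤
      1 / 500 * ‖x - y‖ := by
  rw [kap_sub, kap_sub]
  have hn := norm_nonneg (x - y)
  split_ifs
  · have e : -(10 / 9 * (tau / 2 * (sg d.2.1 * x 1 + sg d.2.2 * x 2))) -
        -(10 / 9 * (tau / 2 * (sg d.2.1 * y 1 + sg d.2.2 * y 2))) =
        -(10 / 9 * (tau / 2 * (sg d.2.1 * (x 1 - y 1) + sg d.2.2 * (x 2 - y 2)))) := by ring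
    rw [e, abs_neg, abs_mul, abs_mul]
    have h := abs_add_le (sg d.2.1 * (x 1 - y 1)) (sg d.2.2 * (x 2 - y 2))
    rw [sg_mul_abs, sg_mul_abs] at h
    have h1 : |x 1 - y 1| ≤ ‖x - y‖ := by
      have := norm_le_pi_norm (x - y) 1; simpa using this
    have h2 : |x 2 - y 2| ≤ ‖x - y‖ := by
      have := norm_le_pi_norm (x - y) 2; simpa using this
    have e1 : |(10 / 9 : ℝ)| = 10 / 9 := by norm_num
    have e2 : |tau / 2| = 1 / 2000 := by unfold tau; norm_num
    rw [e1, e2]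
    nlinarith
  · simp only [sub_self, abs_zero]; positivity

/-- closeness for one digit -/
abbrev CloseD (k : E → E) (e : ℝ) (d : Dg) : Prop := CloseOn (Rd d) (kap d) (fun _ => Cd d) k e

theorem base_est {k : E → E} {e : ℝ} {d : Dg} (hk : CloseD k e d) (he : e ≤ 1 / 1000) :
    (∀ X ∈ Rd d, ∀ i, |k X i - lamb i * (X i - bB d i)| ≤ 1 / 100) ∧
    (∀ X ∈ Rd d, ∀ Y ∈ Rd d, ∀ i,
      |(k X i - lamb i * (X i - bB d i)) - (k Y i - lamb i * (Y i - bB d i))| ≤
        1 / 100 * ‖X - Y‖) := by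
  constructor
  · intro X hX i
    have h1 : |k X i - kap d X i| ≤ e := by
      have := (norm_le_pi_norm (k X - kap d X) i).trans (hk.val X hX)
      simpa using this
    have h2 := kap_sub_abs d X hX.2.1 hX.2.2.1 i
    calc |k X i - lamb i * (X i - bB d i)|
        = |(k X i - kap d X i) + (kap d X i - lamb i * (X i - bB d i))| := by ring_nf
      _ ≤ _ := (abs_add_le _ _).trans (by linarith)
  · intro X hX Y hY i
    have hn := norm_nonneg (X - Y)
    have h1 : |(k X i - kap d X i) - (k Y i - kap d Y i)| ≤ e * ‖X - Y‖ := by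
      have := (norm_le_pi_norm ((k X - kap d X) - (k Y - kap d Y)) i).trans (hk.lip X hX Y hY)
      simpa using this
    have h2 := kap_sub_lip d X Y i
    calc |(k X i - lamb i * (X i - bB d i)) - (k Y i - lamb i * (Y i - bB d i))|
        = |((k X i - kap d X i) - (k Y i - kap d Y i)) +
          ((kap d X i - lamb i * (X i - bB d i)) - (kap d Y i - lamb i * (Y i - bB d i)))| := by
          ring_nf
      _ ≤ _ := (abs_add_le _ _).trans (by nlinarith)

theorem Kb_spec {k : E → E} {e : ℝ} {d : Dg} (hk : CloseD k e d) (he : e ≤ 1 / 1000) :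
    NearDiag lamb (1 / 100) (Kb k d) ∧
      (∀ X i, |Kb k d X i - lamb i * (X i - bB d i)| ≤ 1 / 100) ∧
      ∀ X ∈ Rd d, Kb k d X = k X := by
  obtain ⟨h1, h2⟩ := base_est hk he
  rw [Rd_eq] at h1 h2 ⊢
  exact extF_spec rB_nonneg (by norm_num) h1 h2

theorem Cd_abs (d : Dg) (r : Fin 2) (c : Fin 3) : |Cd d r c| ≤ 1 := by
  have h1 := sg_abs d.2.1
  have h2 := sg_abs d.2.2
  have e2 : |tau / 2| = 1 / 2000 := by unfold tau; norm_num
  fin_cases r <;> fin_cases c <;> simp [Cd, abs_mul, h1, h2] <;> (rw [e2]; norm_num)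

theorem Cd_tau (d : Dg) (p : Fin 2 × Fin 3) : Cd d p.1 p.2 = tau * bL d (Sum.inr p) := by
  obtain ⟨r, c⟩ := p
  fin_cases r <;> fin_cases c <;> simp [Cd, bL] <;> ring

theorem tau_pos : 0 < tau := by unfold tau; norm_num

theorem tau_ne : tau ≠ 0 := tau_pos.ne'

theorem mem_boxL {d : Dg} {X : IL → ℝ} (hX : X ∈ boxF (cL d) rL) :
    (fun i => X (Sum.inl i)) ∈ Rd d ∧ ∀ p, |X (Sum.inr p)| ≤ 3 := by
  constructor
  · rw [Rd_eq]; intro i; exact hX (Sum.inl i)
  · intro p; have := hX (Sum.inr p); simpa [cL, rL] using this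

theorem inl_sub_norm (X Y : IL → ℝ) :
    ‖(fun i => X (Sum.inl i)) - (fun i => Y (Sum.inl i))‖ ≤ ‖X - Y‖ := by
  rw [pi_norm_le_iff_of_nonneg (norm_nonneg _)]
  intro i
  exact norm_le_pi_norm (X - Y) (Sum.inl i)

theorem slope_est {Q : (E →L[ℝ] E) → Sl → Sl} {ε e : ℝ} (hQ : LiftQ Q ε) (he : e ≤ ε) (he' : 0 ≤ e)
    {k : E → E} {d : Dg} (hk : CloseD k e d) :
    (∀ X ∈ boxF (cL d) rL, ∀ p,
      |Phi Q k X (Sum.inr p) - lamL (Sum.inr p) * (X (Sum.inr p) - bL d (Sum.inr p))| ≤ 1 / 100) ∧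
    (∀ X ∈ boxF (cL d) rL, ∀ Y ∈ boxF (cL d) rL, ∀ p,
      |(Phi Q k X (Sum.inr p) - lamL (Sum.inr p) * (X (Sum.inr p) - bL d (Sum.inr p))) -
        (Phi Q k Y (Sum.inr p) - lamL (Sum.inr p) * (Y (Sum.inr p) - bL d (Sum.inr p)))| ≤
        1 / 100 * ‖X - Y‖) := by
  have hder : ∀ x ∈ Rd d, ∀ v, ‖fderiv ℝ k x v - M0 (Cd d) v‖ ≤ ε * ‖v‖ := fun x hx v =>
    (hk.der x hx v).trans (mul_le_mul_of_nonneg_right he (norm_nonneg _))
  have hT : ∀ X ∈ boxF (cL d) rL, ∀ (r : Fin 2) (c : Fin 3), |tau * X (Sum.inr (r, c))| ≤ 1 := by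
    intro X hX r c
    have := (mem_boxL hX).2 (r, c)
    rw [abs_mul, abs_of_pos tau_pos]
    unfold tau; linarith
  have key : ∀ X : IL → ℝ, ∀ p : Fin 2 × Fin 3,
      Phi Q k X (Sum.inr p) - lamL (Sum.inr p) * (X (Sum.inr p) - bL d (Sum.inr p)) =
      (Q (fderiv ℝ k (fun i => X (Sum.inl i))) (fun r c => tau * X (Sum.inr (r, c))) p.1 p.2 -
        lamT p.1 p.2 * (tau * X (Sum.inr (p.1, p.2)) - Cd d p.1 p.2)) / tau := by
    intro X p
    rw [Cd_tau]
    simp only [Phi, lamL, Sum.elim_inr]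
    have := tau_ne
    field_simp
  constructor
  · intro X hX p
    rw [key X p, abs_div, abs_of_pos tau_pos, div_le_iff₀ tau_pos]
    have := (hQ.a _ (Cd d) _ (Cd_abs d) (hT X hX) (hder _ (mem_boxL hX).1)).2 p.1 p.2
    refine this.trans ?_
    unfold tau; norm_num
  · intro X hX Y hY p
    rw [key X p, key Y p, ← sub_div, abs_div, abs_of_pos tau_pos, div_le_iff₀ tau_pos]
    have := hQ.b _ _ (Cd d) (Cd d) _ _ ‖X - Y‖ (norm_nonneg _) (Cd_abs d) (hT X hX) (Cd_abs d)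
      (hT Y hY) (hder _ (mem_boxL hX).1) (hder _ (mem_boxL hY).1) ?_ ?_ ?_ p.1 p.2
    · refine this.trans ?_
      have hn := norm_nonneg (X - Y)
      have ht := tau_pos
      nlinarith
    · intro v
      refine (hk.der2 _ (mem_boxL hX).1 _ (mem_boxL hY).1 v).trans ?_
      refine mul_le_mul_of_nonneg_right ?_ (norm_nonneg _)
      exact mul_le_mul he (inl_sub_norm X Y) (norm_nonneg _) (he'.trans he)
    · intro r c; simp
    · intro r c
      have h1 : |X (Sum.inr (r, c)) - Y (Sum.inr (r, c))| ≤ ‖X - Y‖ := by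
        have := norm_le_pi_norm (X - Y) (Sum.inr (r, c)); simpa using this
      rw [← mul_sub, abs_mul, abs_of_pos tau_pos]
      have hn := norm_nonneg (X - Y)
      unfold tau; linarith

theorem Kl_spec {Q : (E →L[ℝ] E) → Sl → Sl} {ε e : ℝ} (hQ : LiftQ Q ε) (he : e ≤ ε) (he' : 0 ≤ e)
    (he1 : e ≤ 1 / 1000) {k : E → E} {d : Dg} (hk : CloseD k e d) :
    NearDiag lamL (1 / 100) (Kl Q k d) ∧
      (∀ X i, |Kl Q k d X i - lamL i * (X i - bL d i)| ≤ 1 / 100) ∧
      ∀ X ∈ boxF (cL d) rL, Kl Q k d X = Phi Q k X := by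
  obtain ⟨h1, h2⟩ := base_est hk he1
  obtain ⟨h3, h4⟩ := slope_est hQ he he' hk
  refine extF_spec rL_nonneg (by norm_num) ?_ ?_
  · intro X hX i
    cases i with
    | inl i => exact h1 _ (mem_boxL hX).1 i
    | inr p => exact h3 X hX p
  · intro X hX Y hY i
    cases i with
    | inl i =>
      refine (h2 _ (mem_boxL hX).1 _ (mem_boxL hY).1 i).trans ?_
      exact mul_le_mul_of_nonneg_left (inl_sub_norm X Y) (by norm_num)
    | inr p => exact h4 X hX Y hY p

end Pool.Agent.Helper21.RT
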