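import Pool.Agent.Helper21.RT.Consts

/-!
RT-10: transport of basic sets and of discs under the involution (MP_b79ae6_an).
-/

set_option autoImplicit false

open Set Filter Topology
open scoped ContDiff

noncomputable section

namespace Pool.Agent.Helper21.RT

theorem tp_Tm_Tm (x : E) : Tm (Tm x) = x := by
  ext i; fin_cases i <;> simp [Tm]

theorem tp_TmL_TmL (v : E) : TmL (TmL v) = v := by
  ext i; fin_cases i <;> simp [TmL]

theorem tp_Tm_sub (x y : E) : Tm x - Tm y = TmL (x - y) := by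
  ext i; fin_cases i <;> simp [Tm, TmL]

theorem tp_norm_TmL_le (v : E) : ‖TmL v‖ ≤ ‖v‖ := by
  refine (pi_norm_le_iff_of_nonneg (norm_nonneg v)).2 ?_
  intro i
  fin_cases i <;> simp only [TmL, LinearMap.coe_mk, AddHom.coe_mk, norm_neg, Fin.reduceFinMk,
    Matrix.cons_val, Fin.zero_eta, Fin.mk_one, Matrix.cons_val_zero, Matrix.cons_val_one] <;>
    exact norm_le_pi_norm v _

theorem tp_norm_TmL (v : E) : ‖TmL v‖ = ‖v‖ := by
  refine le_antisymm (tp_norm_TmL_le v) ?_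
  conv_lhs => rw [← tp_TmL_TmL v]
  exact tp_norm_TmL_le _

/-- the derivative of the involution as a continuous linear equivalence -/
def TmC : E ≃L[ℝ] E :=
  LinearEquiv.toContinuousLinearEquiv
    (LinearEquiv.ofLinearMap TmL TmL (LinearMap.ext fun v => tp_TmL_TmL v)
      (LinearMap.ext fun v => tp_TmL_TmL v))

theorem TmC_apply (v : E) : TmC v = TmL v := rfl

theorem tp_Tm_eq : Tm = fun x => TmC x + Tm 0 := by
  funext x
  rw [TmC_apply]
  have := tp_Tm_sub x 0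
  rw [sub_zero] at this
  rw [← this]
  abel

theorem tp_hasFDerivAt (x : E) : HasFDerivAt Tm (TmC : E →L[ℝ] E) x := by
  rw [tp_Tm_eq]
  exact (TmC : E →L[ℝ] E).hasFDerivAt.add_const _

theorem tp_dist (x y : E) : dist (Tm x) (Tm y) = dist x y := by
  rw [dist_eq_norm, dist_eq_norm, tp_Tm_sub, tp_norm_TmL]

theorem tp_continuous : Continuous Tm :=
  continuous_iff_continuousAt.2 fun x => (tp_hasFDerivAt x).continuousAt

/-- the involution as a permutation -/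
def TmP : Equiv.Perm E := ⟨Tm, Tm, tp_Tm_Tm, tp_Tm_Tm⟩

theorem TmP_apply (x : E) : TmP x = Tm x := rfl

theorem TmP_inv : TmP⁻¹ = TmP := rfl

/-- the involution as a homeomorphism -/
def TmH : E ≃ₜ E where
  toEquiv := TmP
  continuous_toFun := tp_continuous
  continuous_invFun := tp_continuous

theorem tp_conj {g g2 : Equiv.Perm E} (h : ∀ x, g2 x = Tm (g.symm (Tm x))) :
    g2 = TmP * g⁻¹ * TmP⁻¹ := by
  ext1 x
  exact h x

theorem tp_zpow {g g2 : Equiv.Perm E} (h : ∀ x, g2 x = Tm (g.symm (Tm x))) (n : ℤ) (x : E) :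
    (g2 ^ n) x = Tm ((g ^ (-n)) (Tm x)) := by
  rw [tp_conj h, conj_zpow, inv_zpow, ← zpow_neg]
  rfl

theorem tp_zpow' {g g2 : Equiv.Perm E} (h : ∀ x, g2 x = Tm (g.symm (Tm x))) (n : ℤ) (x : E) :
    (g ^ n) x = Tm ((g2 ^ (-n)) (Tm x)) := by
  rw [tp_zpow h, tp_Tm_Tm, tp_Tm_Tm, neg_neg]

theorem tp_pow {g g2 : Equiv.Perm E} (h : ∀ x, g2 x = Tm (g.symm (Tm x))) (n : ℕ) (x : E) :
    (g2 ^ n) x = Tm ((g.symm ^ n) (Tm x)) := by
  have := tp_zpow h n x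
  rw [zpow_natCast] at this
  rw [this, zpow_neg, ← inv_zpow, zpow_natCast]
  rfl

theorem tp_pow' {g g2 : Equiv.Perm E} (h : ∀ x, g2 x = Tm (g.symm (Tm x))) (n : ℕ) (x : E) :
    (g ^ n) x = Tm ((g2.symm ^ n) (Tm x)) := by
  have := tp_zpow' h n x
  rw [zpow_natCast] at this
  rw [this, zpow_neg, ← inv_zpow, zpow_natCast]
  rfl

theorem tp_pow_symm {g g2 : Equiv.Perm E} (h : ∀ x, g2 x = Tm (g.symm (Tm x))) (n : ℕ) (x : E) :
    (g2.symm ^ n) x = Tm ((g ^ n) (Tm x)) := by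
  rw [tp_pow' h, tp_Tm_Tm, tp_Tm_Tm]

theorem tp_pow_symm' {g g2 : Equiv.Perm E} (h : ∀ x, g2 x = Tm (g.symm (Tm x))) (n : ℕ) (x : E) :
    (g.symm ^ n) x = Tm ((g2 ^ n) (Tm x)) := by
  rw [tp_pow h, tp_Tm_Tm, tp_Tm_Tm]

theorem maxInv_transport (g : Equiv.Perm E) (g2 : Equiv.Perm E) (h : ∀ x, g2 x = Tm (g.symm (Tm x)))
    (V : Set E) : maxInv g (Tm '' V) = Tm '' maxInv g2 V := by
  ext x
  constructor
  · intro hx
    refine ⟨Tm x, ?_, tp_Tm_Tm x⟩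
    intro n
    rw [tp_zpow h, tp_Tm_Tm]
    obtain ⟨y, hy, hyx⟩ := hx (-n)
    rw [← hyx, tp_Tm_Tm]
    exact hy
  · rintro ⟨y, hy, rfl⟩
    intro n
    refine ⟨(g2 ^ (-n)) y, hy (-n), ?_⟩
    rw [tp_zpow' h, tp_Tm_Tm]

theorem tp_maxInv_step {g : Equiv.Perm E} {V : Set E} {x : E} (hx : x ∈ maxInv g V) (m : ℤ) :
    (g ^ m) x ∈ maxInv g V := by
  intro n
  rw [← Equiv.Perm.mul_apply, ← zpow_add]
  exact hx _

theorem tp_transitive {g g2 : Equiv.Perm E} (h : ∀ x, g2 x = Tm (g.symm (Tm x))) {V : Set E}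
    (hT : IsTransitiveOn g2 (maxInv g2 V)) : IsTransitiveOn g (Tm '' maxInv g2 V) := by
  intro O O' hO hO' hne hne'
  obtain ⟨_, ⟨y, hy, rfl⟩, hyO⟩ := hne
  obtain ⟨_, ⟨y', hy', rfl⟩, hyO'⟩ := hne'
  obtain ⟨n, hn, x, ⟨hxL, hxO⟩, hxO'⟩ := hT (Tm ⁻¹' O') (Tm ⁻¹' O) (hO'.preimage tp_continuous)
    (hO.preimage tp_continuous) ⟨y', hy', hyO'⟩ ⟨y, hy, hyO⟩
  refine ⟨n, hn, Tm ((g2 ^ n) x), ⟨⟨(g2 ^ n) x, ?_, rfl⟩, hxO'⟩, ?_⟩
  · have := tp_maxInv_step hxL (n : ℤ)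
    rwa [zpow_natCast] at this
  · rw [tp_pow' h, tp_Tm_Tm]
    have : (g2.symm ^ n) ((g2 ^ n) x) = x := by
      have h1 : g2.symm ^ n = (g2 ^ n)⁻¹ := by
        rw [← inv_pow]; rfl
      rw [h1]
      exact Equiv.symm_apply_apply _ _
    rw [this]
    exact hxO

theorem tp_contDiff_pow {g : Equiv.Perm E} (hg : ContDiff ℝ 2 g) (n : ℕ) :
    ContDiff ℝ 2 (⇑(g ^ n)) := by
  induction n with
  | zero => exact contDiff_id
  | succ n ih =>
    rw [pow_succ]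
    exact ih.comp hg

/-- derivative of a conjugate -/
theorem tp_fderiv_conj {a b : E → E} (hab : ∀ x, a x = Tm (b (Tm x))) (hb : Differentiable ℝ b)
    (x v : E) : fderiv ℝ a x v = TmL (fderiv ℝ b (Tm x) (TmL v)) := by
  have ha : a = Tm ∘ b ∘ Tm := funext hab
  have h1 : HasFDerivAt a (((TmC : E →L[ℝ] E).comp (fderiv ℝ b (Tm x))).comp (TmC : E →L[ℝ] E)) x := by
    rw [ha]
    exact ((tp_hasFDerivAt _).comp x ((hb (Tm x)).hasFDerivAt.comp x (tp_hasFDerivAt x)))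
  rw [h1.fderiv]
  rfl

theorem tp_fderiv_symm_apply {g : Equiv.Perm E} (hg : Differentiable ℝ g)
    (hg' : Differentiable ℝ g.symm) (x v : E) :
    fderiv ℝ g x (fderiv ℝ g.symm (g x) v) = v := by
  have h1 : HasFDerivAt (g ∘ g.symm) ((fderiv ℝ g x).comp (fderiv ℝ g.symm (g x))) (g x) := by
    have h2 : HasFDerivAt g (fderiv ℝ g x) (g.symm (g x)) := by
      rw [Equiv.symm_apply_apply]; exact (hg x).hasFDerivAt
    exact h2.comp (g x) (hg' (g x)).hasFDerivAt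
  have h2 : g ∘ g.symm = id := by
    funext y; simp
  rw [h2] at h1
  have h3 := h1.unique (hasFDerivAt_id (g x))
  have := congrArg (fun L : E →L[ℝ] E => L v) h3
  simpa using this

theorem tp_hyp {g g2 : Equiv.Perm E} (h : ∀ x, g2 x = Tm (g.symm (Tm x)))
    (hg : ContDiff ℝ 2 g) (hg' : ContDiff ℝ 2 g.symm) {V : Set E}
    (hH : IsHyperbolicSet g2 (maxInv g2 V) 2) : IsHyperbolicSet g (Tm '' maxInv g2 V) 3 := by
  obtain ⟨Es, Eu, C, θ, hC, h0, h1, H⟩ := hH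
  have dg : Differentiable ℝ g := hg.differentiable (by norm_num)
  have dg' : Differentiable ℝ g.symm := hg'.differentiable (by norm_num)
  -- the derivative of g2
  have hd2 : ∀ z v, fderiv ℝ g2 z v = TmL (fderiv ℝ g.symm (Tm z) (TmL v)) :=
    fun z v => tp_fderiv_conj h dg' z v
  -- generic invariance
  have key : ∀ (F : E → Submodule ℝ E), (∀ y ∈ maxInv g2 V,
      (F y).map (fderiv ℝ g2 y).toLinearMap = F (g2 y)) →
      ∀ x ∈ Tm '' maxInv g2 V, ((F (Tm x)).map TmL).map (fderiv ℝ g x).toLinearMap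
        = (F (Tm (g x))).map TmL := by
    rintro F hF x ⟨y, hy, rfl⟩
    rw [tp_Tm_Tm]
    have hz : Tm (g (Tm y)) ∈ maxInv g2 V := by
      have e1 : Tm (g (Tm y)) = (g2 ^ (-1 : ℤ)) y := by
        rw [tp_zpow h, neg_neg, zpow_one]
      rw [e1]
      exact tp_maxInv_step hy _
    have hz2 : g2 (Tm (g (Tm y))) = y := by
      rw [h, tp_Tm_Tm, Equiv.symm_apply_apply, tp_Tm_Tm]
    have hF' := hF _ hz
    rw [hz2] at hF'
    rw [← hF']
    ext w
    simp only [Submodule.mem_map]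
    constructor
    · rintro ⟨_, ⟨_, ⟨v, hv, rfl⟩, rfl⟩, rfl⟩
      refine ⟨v, hv, ?_⟩
      simp only [ContinuousLinearMap.coe_coe]
      rw [hd2, tp_TmL_TmL, tp_Tm_Tm, tp_fderiv_symm_apply dg dg']
    · rintro ⟨v, hv, rfl⟩
      refine ⟨TmL (fderiv ℝ g2 (Tm (g (Tm y))) v), ⟨_, ⟨v, hv, rfl⟩, rfl⟩, ?_⟩
      simp only [ContinuousLinearMap.coe_coe]
      rw [hd2, tp_TmL_TmL, tp_Tm_Tm, tp_fderiv_symm_apply dg dg']
  have hsymm2 : ∀ n : ℕ, ∀ x v, fderiv ℝ (⇑(g ^ n)) x v =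
      TmL (fderiv ℝ (⇑(g2.symm ^ n)) (Tm x) (TmL v)) := by
    intro n x v
    refine tp_fderiv_conj (fun x => tp_pow' h n x) ?_ x v
    have e : ⇑(g2.symm ^ n) = Tm ∘ ⇑(g ^ n) ∘ Tm := funext fun x => tp_pow_symm h n x
    rw [e]
    exact (Differentiable.comp (fun x => (tp_hasFDerivAt x).differentiableAt)
      (((tp_contDiff_pow hg n).differentiable (by norm_num)).comp
        (fun x => (tp_hasFDerivAt x).differentiableAt)))
  have hsymm3 : ∀ n : ℕ, ∀ x v, fderiv ℝ (⇑(g.symm ^ n)) x v =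
      TmL (fderiv ℝ (⇑(g2 ^ n)) (Tm x) (TmL v)) := by
    intro n x v
    refine tp_fderiv_conj (fun x => tp_pow_symm' h n x) ?_ x v
    have e : ⇑(g2 ^ n) = Tm ∘ ⇑(g.symm ^ n) ∘ Tm := funext fun x => tp_pow h n x
    rw [e]
    exact (Differentiable.comp (fun x => (tp_hasFDerivAt x).differentiableAt)
      (((tp_contDiff_pow hg' n).differentiable (by norm_num)).comp
        (fun x => (tp_hasFDerivAt x).differentiableAt)))
  refine ⟨fun x => (Eu (Tm x)).map TmL, fun x => (Es (Tm x)).map TmL, C, θ, hC, h0, h1, ?_⟩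
  intro x hx
  have hx' : Tm x ∈ maxInv g2 V := by
    obtain ⟨y, hy, rfl⟩ := hx
    rwa [tp_Tm_Tm]
  obtain ⟨a1, a2, a3, a4, a5, a6⟩ := H (Tm x) hx'
  have hrank : ∀ F : Submodule ℝ E, Module.finrank ℝ (F.map TmL) = Module.finrank ℝ F :=
    fun F => LinearEquiv.finrank_map_eq TmC.toLinearEquiv F
  refine ⟨?_, ?_, key Eu (fun y hy => (H y hy).2.2.2.1) x hx,
    key Es (fun y hy => (H y hy).2.2.1) x hx, ?_, ?_⟩
  · exact (Submodule.orderIsoMapComap TmC.toLinearEquiv).isCompl a1.symm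
  · show Module.finrank ℝ ((Eu (Tm x)).map TmL) = 3
    rw [hrank]
    have := Submodule.finrank_add_eq_of_isCompl a1
    rw [a2] at this
    simp at this
    omega
  · rintro _ ⟨v, hv, rfl⟩ n
    rw [hsymm2, tp_norm_TmL, tp_TmL_TmL, tp_norm_TmL]
    exact a6 v hv n
  · rintro _ ⟨v, hv, rfl⟩ n
    rw [hsymm3, tp_norm_TmL, tp_TmL_TmL, tp_norm_TmL]
    exact a5 v hv n

theorem isBasic_transport (g : Equiv.Perm E) (g2 : Equiv.Perm E)
    (h : ∀ x, g2 x = Tm (g.symm (Tm x))) (hg : ContDiff ℝ 2 g) (hg' : ContDiff ℝ 2 g.symm)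
    (V : Set E) (hB : IsBasic g2 V 2) : IsBasic g (Tm '' V) 3 := by
  obtain ⟨h1, h2, h3, h4, h5⟩ := hB
  unfold IsBasic
  rw [maxInv_transport g g2 h V]
  refine ⟨h1.image _, h2.image tp_continuous, ?_, tp_transitive h h4, tp_hyp h hg hg' h5⟩
  have : interior (Tm '' V) = Tm '' interior V := (TmH.image_interior V).symm
  rw [this]
  exact image_mono h3

theorem stableDisc_transport (g : Equiv.Perm E) (g2 : Equiv.Perm E)
    (h : ∀ x, g2 x = Tm (g.symm (Tm x))) (P Y : E) (ψ : (Fin 3 → ℝ) → E) (A : Submodule ℝ E)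
    (hψ : IsUnstableDisc g2 P Y ψ A) :
    IsStableDisc g (Tm P) (Tm Y) (fun v => Tm (ψ v)) (A.map TmL) := by
  obtain ⟨h1, r, hr, h2, h3, h4, h5⟩ := hψ
  have hdiff : DifferentiableAt ℝ ψ 0 :=
    (h2.contDiffAt (Metric.ball_mem_nhds _ hr)).differentiableAt (by norm_num)
  have hder : fderiv ℝ (fun v => Tm (ψ v)) 0 = (TmC : E →L[ℝ] E).comp (fderiv ℝ ψ 0) :=
    ((tp_hasFDerivAt (ψ 0)).comp (0 : Fin 3 → ℝ) hdiff.hasFDerivAt).fderiv
  refine ⟨by simp only [h1], r, hr, ?_, ?_, ?_, ?_⟩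
  · have : ContDiff ℝ 1 Tm := by
      rw [tp_Tm_eq]
      exact TmC.contDiff.add contDiff_const
    exact this.comp_contDiffOn h2
  · rw [hder]
    exact TmC.injective.comp h3
  · rw [hder, ← h4]
    have : ((TmC : E →L[ℝ] E).comp (fderiv ℝ ψ 0)).toLinearMap
        = TmL.comp (fderiv ℝ ψ 0).toLinearMap := rfl
    rw [this, LinearMap.range_comp]
  · have : (fun (n : ℕ) v => dist ((g.symm.symm ^ n) (Tm (ψ v))) ((g.symm.symm ^ n) (Tm P)))
        = fun (n : ℕ) v => dist ((g2.symm ^ n) (ψ v)) ((g2.symm ^ n) P) := by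
      funext n v
      have e1 : ∀ y, (g.symm.symm ^ n) (Tm y) = Tm ((g2.symm ^ n) y) := by
        intro y
        rw [Equiv.symm_symm, tp_pow' h, tp_Tm_Tm]
      rw [e1, e1, tp_dist]
    rw [this]
    exact h5

end Pool.Agent.Helper21.RT
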