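import Pool.Agent.Helper21.RT.ExitDisc
import Pool.Agent.Helper21.RT.Model
import Pool.Agent.Helper21.RT.Inv
import Pool.Agent.Helper21.RT.Transport

/-!
From closeness of order two to the estimates of `Side`.
-/

open Set Filter Topology
open scoped ContDiff

noncomputable section

namespace Pool.Agent.Helper21.RT

/-- derivative of the forward branch -/
def FdL (d : Dg) : E →L[ℝ] E :=
  LinearMap.toContinuousLinearMap
    { toFun := fun v => ![100 * v 0, 6 / 5 * v 1, 6 / 5 * v 2, v 3 / 100,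
        9 / 10 * v 4 + tau / 2 * (sg d.2.1 * (6 / 5 * v 1) + sg d.2.2 * (6 / 5 * v 2))]
      map_add' := by intro v w; ext i; fin_cases i <;> simp <;> ring
      map_smul' := by intro a v; ext i; fin_cases i <;> simp <;> ring }

theorem FdL_apply (d : Dg) (v : E) : FdL d v = ![100 * v 0, 6 / 5 * v 1, 6 / 5 * v 2, v 3 / 100,
    9 / 10 * v 4 + tau / 2 * (sg d.2.1 * (6 / 5 * v 1) + sg d.2.2 * (6 / 5 * v 2))] := rfl

theorem Fd_hasFDerivAt (d : Dg) (y : E) : HasFDerivAt (Fd d) (FdL d) y := by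
  have h : Fd d = fun x => FdL d x + Fd d 0 := by
    funext x
    rw [FdL_apply]
    ext i; fin_cases i <;> simp [Fd] <;> ring
  rw [h]
  exact (FdL d).hasFDerivAt.add_const _

theorem FdL_near (d : Dg) (v : E) (c : Fin 5) : |FdL d v c - lamf c * v c| ≤ 1 / 500 * ‖v‖ := by
  have h1 : |v 1| ≤ ‖v‖ := norm_le_pi_norm v 1
  have h2 : |v 2| ≤ ‖v‖ := norm_le_pi_norm v 2
  have hn := norm_nonneg v
  have ht : tau = 1 / 1000 := rfl
  rw [FdL_apply]
  fin_cases c
  · simp [lamf]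
  · simp [lamf]
  · simp [lamf]
  · have e1 : (![100 * v 0, 6 / 5 * v 1, 6 / 5 * v 2, v 3 / 100,
      9 / 10 * v 4 + tau / 2 * (sg d.2.1 * (6 / 5 * v 1) + sg d.2.2 * (6 / 5 * v 2))] : Fin 5 → ℝ) 3 -
      lamf 3 * v 3 = 0 := by simp [lamf]; ring
    refine (le_of_eq (congrArg abs e1)).trans ?_
    rw [abs_zero]; positivity
  · have e1 : (![100 * v 0, 6 / 5 * v 1, 6 / 5 * v 2, v 3 / 100,
      9 / 10 * v 4 + tau / 2 * (sg d.2.1 * (6 / 5 * v 1) + sg d.2.2 * (6 / 5 * v 2))] : Fin 5 → ℝ) 4 -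
      lamf 4 * v 4 = tau / 2 * (sg d.2.1 * (6 / 5 * v 1) + sg d.2.2 * (6 / 5 * v 2)) := by
      simp [lamf]
    refine (le_of_eq (congrArg abs e1)).trans ?_
    rw [abs_mul]
    have h3 := abs_add_le (sg d.2.1 * (6 / 5 * v 1)) (sg d.2.2 * (6 / 5 * v 2))
    rw [sg_mul_abs, sg_mul_abs, abs_mul, abs_mul] at h3
    have e2 : |tau / 2| = 1 / 2000 := by rw [ht]; norm_num
    have e3 : |(6 / 5 : ℝ)| = 6 / 5 := by norm_num
    rw [e3] at h3
    rw [e2]
    nlinarith

theorem Rd_ball (d : Dg) : Rd d ⊆ Metric.closedBall (0 : E) 100 := by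
  rintro y ⟨h0, h1, h2, h3, h4⟩
  have hq := qd_abs d
  rw [mem_closedBall_zero_iff, pi_norm_le_iff_of_nonneg (by norm_num)]
  intro i
  rw [Real.norm_eq_abs]
  fin_cases i
  · exact h0.trans (by norm_num)
  · exact h1.trans (by norm_num)
  · exact h2.trans (by norm_num)
  · rw [abs_le] at h3 hq ⊢
    simp only [Fin.reduceFinMk]
    constructor <;> linarith [h3.1, h3.2, hq.1, hq.2]
  · exact h4.trans (by norm_num)

theorem R0_ball : R0 ⊆ Metric.closedBall (0 : E) 100 := by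
  rintro y ⟨h0, h1, h2, h3, h4⟩
  rw [mem_closedBall_zero_iff, pi_norm_le_iff_of_nonneg (by norm_num)]
  intro i
  rw [Real.norm_eq_abs]
  fin_cases i
  · exact h0.trans (by norm_num)
  · exact h1.trans (by norm_num)
  · exact h2.trans (by norm_num)
  · rw [abs_le] at h3 ⊢
    simp only [Fin.reduceFinMk]
    constructor <;> linarith [h3.1, h3.2]
  · rw [abs_le] at h4 ⊢
    simp only [Fin.reduceFinMk]
    constructor <;> linarith [h4.1, h4.2]

theorem Vd_ball (d : Dg) : Vd d ⊆ Metric.closedBall (0 : E) 100 := by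
  intro y hy
  rw [mem_closedBall_zero_iff]; exact (Vd_norm hy).trans (by norm_num)

theorem convex_R0 : Convex ℝ R0 := by rw [R0_eq]; exact convex_boxF _ _

theorem side_of_close {f g : Equiv.Perm E} {e : ℝ} (e0 : 0 ≤ e) (e1 : e ≤ 1 / 1000)
    (hf : ContDiff ℝ ∞ f) (hf' : ContDiff ℝ ∞ f.symm) (h1 : ∀ d, ∀ y ∈ Rp d, f.symm y = kap d y)
    (h2 : ∀ y ∈ Rp0, f.symm y = kap0 y) (h3 : ∀ d, ∀ x ∈ Vp d, f x = Fd d x)
    (hg : ContDiff ℝ 2 g) (hg' : ContDiff ℝ 2 g.symm)
    (hc : C2Close (Metric.closedBall 0 100) e g f)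
    (hc' : C2Close (Metric.closedBall 0 100) e g.symm f.symm) : Side g e := by
  have h2i : (2 : WithTop ℕ∞) ≤ ∞ := by
    have : ((2 : ℕ∞) : WithTop ℕ∞) ≤ ((⊤ : ℕ∞) : WithTop ℕ∞) := WithTop.coe_le_coe.2 le_top
    exact this
  have hf2 : ContDiff ℝ 2 f := hf.of_le h2i
  have hf2' : ContDiff ℝ 2 f.symm := hf'.of_le h2i
  refine ⟨e0, e1, hg, hg', ?_, ?_, ?_, ?_⟩
  · intro d
    exact closeOn_of_C2Close (isOpen_Rp d) (Rd_sub_Rp d) (Rd_ball d) (convex_Rd d) hf2' hg' (h1 d)
      (fun y _ => kap_hasFDerivAt d y) hc'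
  · exact closeOn_of_C2Close isOpen_Rp0 R0_sub_Rp0 R0_ball convex_R0 hf2' hg' h2
      (fun y _ => kap0_hasFDerivAt y) hc'
  · intro d x hx
    rw [← h3 d x (Vd_sub_Vp d hx)]
    have := hc 0 (by norm_num) x (Vd_ball d hx)
    rw [norm_iteratedFDeriv_zero] at this
    exact this.le
  · intro d x hx
    have hfd : HasFDerivAt f (FdL d) x :=
      (Fd_hasFDerivAt d x).congr_of_eventuallyEq
        (Filter.eventually_of_mem ((isOpen_Vp d).mem_nhds (Vd_sub_Vp d hx)) (fun z hz => h3 d z hz))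
    have hgd : HasFDerivAt g (fderiv ℝ g x) x := (hg.differentiable (by norm_num) x).hasFDerivAt
    have h4 := hc 1 (by norm_num) x (Vd_ball d hx)
    have hsub : HasFDerivAt (fun y => g y - f y) (fderiv ℝ g x - FdL d) x := hgd.sub hfd
    rw [← norm_iteratedFDeriv_fderiv, norm_iteratedFDeriv_zero, hsub.fderiv] at h4
    intro v w c
    rw [← Pi.sub_apply, ← map_sub]
    have h5 : |fderiv ℝ g x (v - w) c - FdL d (v - w) c| ≤ e * ‖v - w‖ := by
      have := (norm_le_pi_norm ((fderiv ℝ g x - FdL d) (v - w)) c).trans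
        ((fderiv ℝ g x - FdL d).le_of_opNorm_le h4.le (v - w))
      simpa using this
    have h6 := FdL_near d (v - w) c
    calc |fderiv ℝ g x (v - w) c - lamf c * (v c - w c)|
        = |(fderiv ℝ g x (v - w) c - FdL d (v - w) c) + (FdL d (v - w) c - lamf c * (v - w) c)| := by
          simp only [Pi.sub_apply]; ring_nf
      _ ≤ _ := (abs_add_le _ _).trans (by
          have hn := norm_nonneg (v - w)
          nlinarith)

/-- the linear part of the involution as an isometry -/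
def TmI : E ≃ₗᵢ[ℝ] E where
  toLinearEquiv := TmC.toLinearEquiv
  norm_map' := fun v => tp_norm_TmL v

theorem TmI_apply (v : E) : TmI v = TmL v := rfl

theorem c2close_conj {K K' : Set E} {e : ℝ} {a b : E → E} (hK : ∀ x ∈ K', Tm x ∈ K)
    (h : C2Close K e a b) : C2Close K' e (fun x => Tm (a (Tm x))) (fun x => Tm (b (Tm x))) := by
  intro j hj x hx
  have h1 := h j hj (Tm x) (hK x hx)
  have e1 : (fun y => Tm (a (Tm y)) - Tm (b (Tm y))) =
      TmI ∘ ((fun z => (fun y => a y - b y) (z + Tm 0)) ∘ TmI) := by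
    funext y
    simp only [Function.comp, TmI_apply]
    rw [tp_Tm_sub]
    have : Tm y = TmL y + Tm 0 := by
      have := tp_Tm_sub y 0
      rw [sub_zero] at this
      rw [← this]; abel
    rw [this]
  rw [e1, LinearIsometryEquiv.norm_iteratedFDeriv_comp_left,
    LinearIsometryEquiv.norm_iteratedFDeriv_comp_right,
    iteratedFDeriv_comp_add_right (f := fun y => a y - b y) j (Tm 0) (TmI x)]
  have e2 : TmI x + Tm 0 = Tm x := by
    rw [TmI_apply]
    have := tp_Tm_sub x 0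
    rw [sub_zero] at this
    rw [← this]; abel
  rw [e2]
  exact h1

theorem Tm_ball {x : E} (hx : x ∈ Metric.closedBall (0 : E) 100) :
    Tm x ∈ Metric.closedBall (0 : E) 200 := by
  rw [mem_closedBall_zero_iff] at hx ⊢
  have h : ∀ i, |x i| ≤ 100 := fun i => (norm_le_pi_norm x i).trans hx
  rw [pi_norm_le_iff_of_nonneg (by norm_num)]
  intro i
  rw [Real.norm_eq_abs]
  have h3 := h 3
  have h4 := h 4
  fin_cases i
  · exact (h 2).trans (by norm_num)
  · exact (h 1).trans (by norm_num)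
  · exact (h 0).trans (by norm_num)
  · simp only [Tm, Fin.reduceFinMk, Matrix.cons_val]
    rw [abs_le] at h4 ⊢; constructor <;> linarith [h4.1, h4.2]
  · simp only [Tm, Fin.reduceFinMk, Matrix.cons_val]
    rw [abs_le] at h3 ⊢; constructor <;> linarith [h3.1, h3.2]

end Pool.Agent.Helper21.RT
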