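import Pool.Agent.Helper21.RT.Close

/-!
Derivatives of the model branches; the global base maps and lifted maps.
-/

open Set Filter Topology
open scoped ContDiff

noncomputable section

namespace Pool.Agent.Helper21.RT

/-- slope matrix of the branch `d` -/
def Cd (d : Dg) : Sl := ![![0, 0, 0], ![0, tau / 2 * sg d.2.1, tau / 2 * sg d.2.2]]

/-- slope matrix of the exit branch -/
def C0 (y : E) : Sl := ![![0, 0, y 2], ![0, 0, 0]]

theorem sg_abs (a : Bool) : |sg a| = 1 := by unfold sg; split_ifs <;> norm_num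

theorem sg_le (a : Bool) : sg a ≤ 1 ∧ -1 ≤ sg a := by
  unfold sg; split_ifs <;> norm_num

theorem qd_abs (d : Dg) : |qd d| ≤ 7 := by
  obtain ⟨a, b, c⟩ := d
  unfold qd
  have ha := sg_le a
  have hb := sg_le b
  have hc := sg_le c
  simp only
  rw [abs_le]; constructor <;> linarith [ha.1, ha.2, hb.1, hb.2, hc.1, hc.2]

theorem kap_hasFDerivAt (d : Dg) (y : E) : HasFDerivAt (kap d) (M0L (Cd d)) y := by
  rw [hasFDerivAt_pi']
  have hp : ∀ i : Fin 5, HasFDerivAt (fun y : E => y i) (ContinuousLinearMap.proj (R := ℝ) i) y :=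
    fun i => hasFDerivAt_apply i y
  intro i
  fin_cases i
  · refine (((hp 0).add_const (4 * qd d)).mul_const (1 / 100)).congr_fderiv ?_ |>.congr_of_eventuallyEq
      (Filter.Eventually.of_forall fun z => ?_)
    · ext v; simp [M0, M0L_apply]; ring
    · simp [kap]; ring
  · refine ((hp 1).const_mul (5 / 6)).congr_fderiv ?_ |>.congr_of_eventuallyEq
      (Filter.Eventually.of_forall fun z => ?_)
    · ext v; simp [M0, M0L_apply]
    · simp [kap]
  · refine ((hp 2).const_mul (5 / 6)).congr_fderiv ?_ |>.congr_of_eventuallyEq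
      (Filter.Eventually.of_forall fun z => ?_)
    · ext v; simp [M0, M0L_apply]
    · simp [kap]
  · refine (((hp 3).sub_const (qd d / 8)).const_mul 100).congr_fderiv ?_ |>.congr_of_eventuallyEq
      (Filter.Eventually.of_forall fun z => ?_)
    · ext v; simp [M0, M0L_apply, Cd]
    · simp [kap]
  · refine ((((hp 4).sub_const (sg d.1 / 2)).sub (((hp 1).const_mul (sg d.2.1)).add
      ((hp 2).const_mul (sg d.2.2)) |>.const_mul (tau / 2))).const_mul (10 / 9)).congr_fderiv ?_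
      |>.congr_of_eventuallyEq (Filter.Eventually.of_forall fun z => ?_)
    · ext v; simp [M0, M0L_apply, Cd]; ring
    · simp [kap]

theorem kap0_hasFDerivAt (y : E) : HasFDerivAt kap0 (M0L (C0 y)) y := by
  rw [hasFDerivAt_pi']
  have hp : ∀ i : Fin 5, HasFDerivAt (fun y : E => y i) (ContinuousLinearMap.proj (R := ℝ) i) y :=
    fun i => hasFDerivAt_apply i y
  intro i
  fin_cases i
  · refine ((hp 0).mul_const (1 / 100)).congr_fderiv ?_ |>.congr_of_eventuallyEq
      (Filter.Eventually.of_forall fun z => ?_)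
    · ext v; simp [M0, M0L_apply]; ring
    · simp [kap0]; ring
  · refine ((hp 1).const_mul (5 / 6)).congr_fderiv ?_ |>.congr_of_eventuallyEq
      (Filter.Eventually.of_forall fun z => ?_)
    · ext v; simp [M0, M0L_apply]
    · simp [kap0]
  · refine ((hp 2).const_mul (5 / 6)).congr_fderiv ?_ |>.congr_of_eventuallyEq
      (Filter.Eventually.of_forall fun z => ?_)
    · ext v; simp [M0, M0L_apply]
    · simp [kap0]
  · refine ((((hp 3).sub_const 50).sub (((hp 2).pow 2).mul_const (1 / 2))).const_mul 100).congr_fderiv ?_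
      |>.congr_of_eventuallyEq (Filter.Eventually.of_forall fun z => ?_)
    · ext v; simp [M0, M0L_apply, C0]; ring
    · simp [kap0]; ring
  · refine (((hp 4).sub_const 50).const_mul (10 / 9)).congr_fderiv ?_
      |>.congr_of_eventuallyEq (Filter.Eventually.of_forall fun z => ?_)
    · ext v; simp [M0, M0L_apply, C0]
    · simp [kap0]

theorem isOpen_Rp (d : Dg) : IsOpen (Rp d) := by
  unfold Rp
  simp only [Set.setOf_and]
  refine IsOpen.inter ?_ (IsOpen.inter ?_ (IsOpen.inter ?_ (IsOpen.inter ?_ ?_))) <;>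
    exact isOpen_lt (by fun_prop) continuous_const

theorem isOpen_Rp0 : IsOpen Rp0 := by
  unfold Rp0
  simp only [Set.setOf_and]
  refine IsOpen.inter ?_ (IsOpen.inter ?_ (IsOpen.inter ?_ (IsOpen.inter ?_ ?_))) <;>
    exact isOpen_lt (by fun_prop) continuous_const

theorem isOpen_Vp (d : Dg) : IsOpen (Vp d) := by
  unfold Vp
  simp only [Set.setOf_and]
  refine IsOpen.inter ?_ (IsOpen.inter ?_ (IsOpen.inter ?_ (IsOpen.inter ?_ ?_))) <;>
    exact isOpen_lt (by fun_prop) continuous_const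

theorem Rd_sub_Rp (d : Dg) : Rd d ⊆ Rp d := by
  rintro y ⟨h0, h1, h2, h3, h4⟩
  exact ⟨by linarith, by linarith, by linarith, by linarith, by linarith⟩

theorem R0_sub_Rp0 : R0 ⊆ Rp0 := by
  rintro y ⟨h0, h1, h2, h3, h4⟩
  exact ⟨by linarith, by linarith, by linarith, by linarith, by linarith⟩

theorem Vd_sub_Vp (d : Dg) : Vd d ⊆ Vp d := by
  rintro y ⟨h0, h1, h2, h3, h4⟩
  exact ⟨by linarith, by linarith, by linarith, by linarith, by linarith⟩

/-- center and radius of the box of slopes and positions -/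
def cB (d : Dg) : Fin 5 → ℝ := ![0, 0, 0, qd d / 8, 0]
def rB : Fin 5 → ℝ := ![13 / 10, 13 / 10, 13 / 10, 1 / 50, 41 / 5]
def cL (d : Dg) : IL → ℝ := Sum.elim (cB d) (fun _ => 0)
def rL : IL → ℝ := Sum.elim rB (fun _ => 3)
/-- base offsets -/
def bB (d : Dg) : Fin 5 → ℝ := ![-(4 * qd d), 0, 0, qd d / 8, sg d.1 / 2]

theorem Rd_eq (d : Dg) : Rd d = boxF (cB d) rB := by
  ext y
  simp only [Rd, boxF, Set.mem_setOf_eq, Fin.forall_fin_succ, cB, rB]
  simp [Fin.forall_fin_succ]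

def c0v : Fin 5 → ℝ := ![0, 0, 0, 50, 50]
def r0v : Fin 5 → ℝ := ![1 / 1000, 1 / 1000, 1 / 1000, 1 / 50, 1 / 50]

theorem R0_eq : R0 = boxF c0v r0v := by
  ext y
  simp only [R0, boxF, Set.mem_setOf_eq, Fin.forall_fin_succ, c0v, r0v]
  simp [Fin.forall_fin_succ]

theorem convex_boxF {ι : Type*} (c r : ι → ℝ) : Convex ℝ (boxF c r) := by
  have : boxF c r = ⋂ i, {X : ι → ℝ | |X i - c i| ≤ r i} := by
    ext X; simp [boxF]
  rw [this]
  refine convex_iInter fun i => ?_
  intro X hX Y hY a b ha hb hab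
  simp only [Set.mem_setOf_eq, Pi.add_apply, Pi.smul_apply, smul_eq_mul, abs_le] at *
  have hc : c i = a * c i + b * c i := by rw [← add_mul, hab, one_mul]
  have hr : r i = a * r i + b * r i := by rw [← add_mul, hab, one_mul]
  constructor
  · rw [hc, hr]; nlinarith [hX.1, hY.1, mul_le_mul_of_nonneg_left hX.1 ha, mul_le_mul_of_nonneg_left hY.1 hb]
  · rw [hc, hr]; nlinarith [hX.1, hY.1, mul_le_mul_of_nonneg_left hX.2 ha, mul_le_mul_of_nonneg_left hY.2 hb]

theorem rB_nonneg : ∀ i, 0 ≤ rB i := by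
  intro i; fin_cases i <;> simp [rB] <;> norm_num

theorem rL_nonneg : ∀ i, 0 ≤ rL i := by
  intro i
  cases i with
  | inl i => exact rB_nonneg i
  | inr p => simp [rL]

/-- the global base map of the branch `d` -/
def Kb (k : E → E) (d : Dg) : E → E := extF lamb (bB d) (cB d) rB k

/-- the lifted map -/
def Phi (Q : (E →L[ℝ] E) → Sl → Sl) (k : E → E) (X : IL → ℝ) : IL → ℝ :=
  Sum.elim (k (fun i => X (Sum.inl i)))
    (fun p => Q (fderiv ℝ k (fun i => X (Sum.inl i))) (fun r c => tau * X (Sum.inr (r, c))) p.1 p.2 / tau)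

/-- the global lifted map of the branch `d` -/
def Kl (Q : (E →L[ℝ] E) → Sl → Sl) (k : E → E) (d : Dg) : (IL → ℝ) → (IL → ℝ) :=
  extF lamL (bL d) (cL d) rL (Phi Q k)

/-- the base part of the lifted map is the base map -/
theorem Kl_inl (Q : (E →L[ℝ] E) → Sl → Sl) (k : E → E) (d : Dg) (X : IL → ℝ) :
    (fun i => Kl Q k d X (Sum.inl i)) = Kb k d (fun i => X (Sum.inl i)) := by
  funext i
  rfl

/-- the estimates for the action on slopes -/
structure LiftQ (Q : (E →L[ℝ] E) → Sl → Sl) (ε : ℝ) : Prop where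
  a : ∀ (N : E →L[ℝ] E) (C T : Sl), (∀ r c, |C r c| ≤ 1) → (∀ r c, |T r c| ≤ 1) →
      (∀ v, ‖N v - M0 C v‖ ≤ ε * ‖v‖) →
      (∀ v, Graph T v → Graph (Q N T) (N v)) ∧
      ∀ r c, |Q N T r c - lamT r c * (T r c - C r c)| ≤ tau / 200
  b : ∀ (N N' : E →L[ℝ] E) (C C' T T' : Sl) (δ : ℝ), 0 ≤ δ →
      (∀ r c, |C r c| ≤ 1) → (∀ r c, |T r c| ≤ 1) → (∀ r c, |C' r c| ≤ 1) → (∀ r c, |T' r c| ≤ 1) →
      (∀ v, ‖N v - M0 C v‖ ≤ ε * ‖v‖) → (∀ v, ‖N' v - M0 C' v‖ ≤ ε * ‖v‖) →
      (∀ v, ‖(N v - M0 C v) - (N' v - M0 C' v)‖ ≤ ε * δ * ‖v‖) →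
      (∀ r c, |C r c - C' r c| ≤ δ) → (∀ r c, |T r c - T' r c| ≤ δ) →
      ∀ r c, |(Q N T r c - lamT r c * (T r c - C r c)) - (Q N' T' r c - lamT r c * (T' r c - C' r c))|
        ≤ tau / 200 * δ

end Pool.Agent.Helper21.RT
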